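import Pool.Agent.Lib.H65G.D0

/-! Chunk G1a: logarithmic generation. -/

set_option autoImplicit false

namespace Pool.Agent.Lib.H65G

open Subgroup Pool.Agent.H69 Pool.Agent.Lib.H65F

/-- A subgroup `U ≥ C` of a finite group is generated by `C` and at most `log₂ |U : C|` elements.
PROOF. Induction on `C.relIndex U` (strong, generalizing `C`; all these indices are positive, `Finite X`).
If `U ≤ C`: `l := []`.  Otherwise choose `u ∈ U`, `u ∉ C`, and `C' := C ⊔ closure {u}`, `C < C' ≤ U`.  By
`relIndex_mul_relIndex` (`C.relIndex C' * C'.relIndex U = C.relIndex U`) and `C.relIndex C' ≥ 2` (it is not `0`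
and not `1`, `relIndex_eq_one`) we have `2 * C'.relIndex U ≤ C.relIndex U`.  Induction gives `l'` for `C'`;
`l := u :: l'`; `Nat.log 2 (C'.relIndex U) + 1 ≤ Nat.log 2 (C.relIndex U)` (`Nat.log_mul_base`, monotone). -/
theorem exists_list_gen {X : Type} [Group X] [Finite X] {C U : Subgroup X} (h : C ≤ U) :
    ∃ l : List X, (∀ x ∈ l, x ∈ U) ∧ C ⊔ closure {x | x ∈ l} = U ∧
      l.length ≤ Nat.log 2 (C.relIndex U) := by
  induction hn : C.relIndex U using Nat.strong_induction_on generalizing C with
  | _ n ih =>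
    subst hn
    by_cases hUC : U ≤ C
    · have hCU : C = U := le_antisymm h hUC
      subst hCU
      refine ⟨[], by simp, ?_, by simp⟩
      have h1 : {x : X | x ∈ ([] : List X)} = ∅ := by
        ext x
        simp
      rw [h1, Subgroup.closure_empty, sup_bot_eq]
    · obtain ⟨u, hu, huC⟩ := SetLike.not_le_iff_exists.1 hUC
      have h1 : C ≤ C ⊔ closure {u} := le_sup_left
      have hu' : u ∈ C ⊔ closure {u} :=
        (le_sup_right : closure {u} ≤ C ⊔ closure {u}) (subset_closure rfl)
      have h2 : C ⊔ closure {u} ≤ U := sup_le h ((closure_le _).2 (by simpa using hu))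
      have h3 : C.relIndex (C ⊔ closure {u}) * (C ⊔ closure {u}).relIndex U = C.relIndex U :=
        relIndex_mul_relIndex C (C ⊔ closure {u}) U h1 h2
      have h8 : C.relIndex U ≠ 0 := Subgroup.index_ne_zero_of_finite
      have h4 : C.relIndex (C ⊔ closure {u}) ≠ 0 := fun h9 => h8 (by rw [← h3, h9, zero_mul])
      have h6 : (C ⊔ closure {u}).relIndex U ≠ 0 := fun h9 => h8 (by rw [← h3, h9, mul_zero])
      have h5 : C.relIndex (C ⊔ closure {u}) ≠ 1 := fun h9 => huC (relIndex_eq_one.1 h9 hu')
      have h7 : (C ⊔ closure {u}).relIndex U * 2 ≤ C.relIndex U := by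
        rw [← h3, mul_comm]
        exact Nat.mul_le_mul_right _ (by omega)
      obtain ⟨l, hl1, hl2, hl3⟩ := ih ((C ⊔ closure {u}).relIndex U) (by omega) h2 rfl
      refine ⟨u :: l, ?_, ?_, ?_⟩
      · intro x hx
        rcases List.mem_cons.1 hx with rfl | hx
        · exact hu
        · exact hl1 x hx
      · have h9 : {x | x ∈ u :: l} = {u} ∪ {x | x ∈ l} := by
          ext x
          simp
        rw [h9, Subgroup.closure_union, ← sup_assoc]
        exact hl2
      · rw [List.length_cons]
        calc l.length + 1 ≤ Nat.log 2 ((C ⊔ closure {u}).relIndex U) + 1 := by omega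
          _ = Nat.log 2 ((C ⊔ closure {u}).relIndex U * 2) := (Nat.log_mul_base one_lt_two h6).symm
          _ ≤ Nat.log 2 (C.relIndex U) := Nat.log_mono_right h7

end Pool.Agent.Lib.H65G
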