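import Pool.Agent.Lib.H65G.D0
import Pool.Agent.Lib.H65G.G1a

/-! Chunk G1b: groups generated by `m` elements. -/

set_option autoImplicit false

namespace Pool.Agent.Lib.H65G

open Subgroup Pool.Agent.H69 Pool.Agent.Lib.H65F

/-- PROOF. `FreeGroup.lift` composed with the surjection that sends the generator `i < m` to the generator `i` and the others
to `1` (a right inverse of the inclusion). -/
theorem GenBy.mono {m m' : ℕ} (h : m ≤ m') {Q : Type} [Group Q] (hQ : GenBy m Q) :
    GenBy m' Q := by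
  obtain ⟨u, hu⟩ := hQ
  let r : FreeGroup (Fin m') →* FreeGroup (Fin m) :=
    FreeGroup.lift fun i => if hi : i.1 < m then FreeGroup.of ⟨i.1, hi⟩ else 1
  let s : FreeGroup (Fin m) →* FreeGroup (Fin m') :=
    FreeGroup.lift fun i => FreeGroup.of ⟨i.1, i.2.trans_le h⟩
  have hrs : r.comp s = MonoidHom.id _ := by
    refine FreeGroup.ext_hom _ _ fun i => ?_
    simp [r, s]
  refine ⟨u.comp r, fun x => ?_⟩
  obtain ⟨w, hw⟩ := hu x
  refine ⟨s w, ?_⟩
  have h1 : r (s w) = w := DFunLike.congr_fun hrs w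
  rw [MonoidHom.comp_apply, h1, hw]

theorem GenBy.of_surjective {m : ℕ} {Q Q' : Type} [Group Q] [Group Q'] (h : GenBy m Q)
    (f : Q →* Q') (hf : Function.Surjective f) : GenBy m Q' := by
  obtain ⟨u, hu⟩ := h
  exact ⟨f.comp u, hf.comp hu⟩

/-- PROOF. `exists_list_gen` with `C := ⊥`, `U := ⊤` (`relIndex = |Q|`), so `closure {x | x ∈ l} = ⊤`,
`l.length ≤ Nat.log 2 |Q|`.  `f := FreeGroup.lift (fun i : Fin l.length => l.get i)` has range
`closure (Set.range l.get) = ⊤` (`FreeGroup.range_eq_closure`-type lemma / `FreeGroup.lift_range_..`; or prove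
`closure ≤ range` directly).  Then `GenBy.mono`. -/
theorem genBy_of_card {m : ℕ} {Q : Type} [Group Q] [Finite Q] (h : Nat.log 2 (Nat.card Q) ≤ m) :
    GenBy m Q := by
  obtain ⟨l, -, hl2, hl3⟩ := exists_list_gen (X := Q) (C := ⊥) (U := ⊤) bot_le
  rw [bot_sup_eq] at hl2
  rw [Subgroup.relIndex_bot_left, Subgroup.card_top] at hl3
  refine GenBy.mono (hl3.trans h) ⟨FreeGroup.lift fun i : Fin l.length => l.get i, ?_⟩
  rw [← MonoidHom.range_eq_top, eq_top_iff, ← hl2, Subgroup.closure_le]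
  intro x hx
  obtain ⟨i, hi⟩ := List.mem_iff_get.1 hx
  exact ⟨FreeGroup.of i, by rw [FreeGroup.lift_apply_of]; exact hi⟩

end Pool.Agent.Lib.H65G
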