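import Pool.Agent.Lib.H65G.D0
import Pool.Agent.Lib.H65F.C1

/-! Chunk G1c: generators modulo the centre. -/

set_option autoImplicit false

namespace Pool.Agent.Lib.H65G

open Subgroup Pool.Agent.H69 Pool.Agent.Lib.H65F
open scoped commutatorElement

/-- A criterion: `m` elements generate `Q` modulo a central subgroup, `Q` is perfect.
PROOF. Let `R := u.range`.  `R ⊔ Z = ⊤`, `Z` central: every commutator of `Q` is a commutator of two elements of `R`
(`x = r z`, `x' = r' z'`: `⁅x, x'⁆ = ⁅r, r'⁆`, `c1_cc` in H65F.C1), so `⊤ = commutator Q ≤ R`. -/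
theorem genBy_of_mod_center {m : ℕ} {Q : Type} [Group Q] (hQ : _root_.commutator Q = ⊤)
    {Z : Subgroup Q} (hZ : Z ≤ center Q) (u : FreeGroup (Fin m) →* Q) (hu : u.range ⊔ Z = ⊤) :
    Function.Surjective u := by
  rw [← MonoidHom.range_eq_top, eq_top_iff, ← hQ, _root_.commutator_def, commutator_le]
  have hdec : ∀ x : Q, ∃ r ∈ u.range, ∃ c ∈ center Q, x = r * c := by
    intro x
    have hx : x ∈ u.range ⊔ Z := hu ▸ mem_top x
    have hx' : x ∈ u.range ⊔ center Q := sup_le_sup_left hZ _ hx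
    obtain ⟨r, hr, c, hc, h⟩ := Subgroup.mem_sup_of_normal_right.1 hx'
    exact ⟨r, hr, c, hc, h.symm⟩
  intro x _ y _
  obtain ⟨r, hr, c, hc, rfl⟩ := hdec x
  obtain ⟨r', hr', c', hc', rfl⟩ := hdec y
  rw [c1_cc hc hc', commutatorElement_def]
  exact mul_mem (mul_mem (mul_mem hr hr') (inv_mem hr)) (inv_mem hr')

end Pool.Agent.Lib.H65G
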