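import Pool.Agent.Lib.H65G.C3
import Pool.Agent.Lib.H65G.G1

/-!
Definitions for Theorem A.
-/

set_option autoImplicit false

namespace Pool.Agent.Lib.H65G

open Subgroup Pool.Agent.H69 Pool.Agent.Lib.H65F

variable {F : Formation} (S : BSys F)

/-- Letter functions. -/
abbrev LFn : Type := Subgroup S.D' → ℕ

/-- The homomorphism `Fr → D'` of the letter function `g` (nothing is prescribed). -/
noncomputable abbrev hA (g : LFn S) : Fr →* S.D' := hh ⊤ 1 g

/-- The homomorphism `Fr → G'` of the letter function `g`. -/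
noncomputable def bt (g : LFn S) : Fr →* S.G' := S.p'.comp (hA S g)

/-- A lift of `bt g` to `G`. -/
noncomputable def bl (g : LFn S) : Fr →* S.G := lf S.aG S.haG (bt S g)

theorem bl_spec (g : LFn S) (f : Fr) : S.aG (bl S g f) = bt S g f := lf_spec _ _ _ _

/-- The product of the central elements `bl g ρ ^ y g`. -/
noncomputable def kap (y : LFn S →₀ ℤ) (ρ : Fr) : center S.G :=
  y.prod fun g n => (cz (bl S g ρ)) ^ n

/-- Some quotient `T ∈ H` of the commutator subgroup of `Fr` has the property that on its kernel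
all `bt g` (`g` in the support) and `kap y` vanish. -/
def AA (H : Formation) (y : LFn S →₀ ℤ) : Prop :=
  ∃ (T : Type) (_ : Group T) (u : ↥(_root_.commutator Fr) →* T), Function.Surjective u ∧
    H.mem T ∧ ∀ ρ : ↥(_root_.commutator Fr), u ρ = 1 →
      (∀ g ∈ y.support, bt S g ρ = 1) ∧ kap S y ρ = 1

theorem srjA {g : LFn S} (hg : Function.Injective g) : Function.Surjective (hA S g) :=
  sys_surj S dat_one (goodL_one hg)

theorem gqA {R : Subgroup Fr} (hR : GoodQ F R) (s : Finset (LFn S))
    (hs : ∀ g ∈ s, Function.Injective g) :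
    GoodQ F (R ⊓ ⨅ g ∈ s, (hA S g : Fr →* S.D').ker) :=
  goodQ_inf S dat_one hR s fun g hg => goodL_one (hs g hg)

theorem gqA' {R : Subgroup Fr} (hR : GoodQ F R) (s : Finset (LFn S))
    (hs : ∀ g ∈ s, Function.Injective g) :
    GoodQ F (R ⊓ ⨅ g ∈ s, (S.p'.comp (hA S g)).ker) :=
  goodQ_inf' S dat_one hR s fun g hg => goodL_one (hs g hg)

theorem locA (g g' : LFn S) :
    (∀ i, (∀ M : Subgroup S.D', UNode M → (S.π' i).ker ≤ M → g M = g' M) →
      (S.π' i).comp (hA S g) = (S.π' i).comp (hA S g')) ∧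
    ((∀ M : Subgroup S.D', UNode M → S.p'.ker ≤ M → g M = g' M) →
      S.p'.comp (hA S g) = S.p'.comp (hA S g')) := sys_local S ⊤ 1 g g'

end Pool.Agent.Lib.H65G
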