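import Pool.Agent.Lib.H65G.A0
import Pool.Agent.Lib.H65G.A1

/-! Chunk A1b: algebra of `kap` and closure properties of `AA`. -/

set_option autoImplicit false

namespace Pool.Agent.Lib.H65G

open Subgroup Pool.Agent.H69 Pool.Agent.Lib.H65F

variable {F : Formation} (S : BSys F)

variable {H : Formation}

/-- PROOF. `T := range of (u, u') : commutator Fr →* T₁ × T₂`, `H.mem T` by `mem_subdirect` (projections of the range are
surjective, kernels intersect trivially, finite as a subgroup of a finite group); the kernel of the map to the range is the intersection of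
the kernels.  `Finsupp.support_add`, `kap_add`. -/
theorem AA.add {y y' : LFn S →₀ ℤ} (h : AA S H y) (h' : AA S H y') : AA S H (y + y') := by
  classical
  obtain ⟨T₁, i₁, u₁, hu₁, hT₁, hk₁⟩ := h
  obtain ⟨T₂, i₂, u₂, hu₂, hT₂, hk₂⟩ := h'
  have := H.finite T₁ hT₁
  have := H.finite T₂ hT₂
  let w : ↥(_root_.commutator Fr) →* T₁ × T₂ := u₁.prod u₂
  have hw1 : ∀ ρ, (w ρ).1 = u₁ ρ := fun ρ => rfl
  have hw2 : ∀ ρ, (w ρ).2 = u₂ ρ := fun ρ => rfl
  refine ⟨w.range, inferInstance, w.rangeRestrict, w.rangeRestrict_surjective, ?_, ?_⟩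
  · refine H.mem_subdirect ((MonoidHom.fst T₁ T₂).comp w.range.subtype)
      ((MonoidHom.snd T₁ T₂).comp w.range.subtype) ?_ ?_ ?_ hT₁ hT₂
    · intro t
      obtain ⟨ρ, hρ⟩ := hu₁ t
      exact ⟨⟨w ρ, ρ, rfl⟩, hρ⟩
    · intro t
      obtain ⟨ρ, hρ⟩ := hu₂ t
      exact ⟨⟨w ρ, ρ, rfl⟩, hρ⟩
    · rw [eq_bot_iff]
      rintro ⟨⟨a, b⟩, hab⟩ ⟨h1, h2⟩
      have h1' : a = 1 := h1
      have h2' : b = 1 := h2
      subst h1' h2'
      rfl
  · intro ρ hρ
    have h0 : w ρ = 1 := congrArg Subtype.val hρ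
    have h1 : u₁ ρ = 1 := by rw [← hw1, h0]; rfl
    have h2 : u₂ ρ = 1 := by rw [← hw2, h0]; rfl
    obtain ⟨h3, h4⟩ := hk₁ ρ h1
    obtain ⟨h5, h6⟩ := hk₂ ρ h2
    refine ⟨fun g hg => ?_, ?_⟩
    · rcases Finset.mem_union.mp (Finsupp.support_add hg) with hg | hg
      · exact h3 g hg
      · exact h5 g hg
    · rw [kap_add, h4, h6, mul_one]

/-- PROOF. Same `T`; support of `n • y` is contained in the support of `y`; `kap_smul`. -/
theorem AA.smul (n : ℤ) {y : LFn S →₀ ℤ} (h : AA S H y) : AA S H (n • y) := by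
  obtain ⟨T, i, u, hu, hT, hk⟩ := h
  refine ⟨T, i, u, hu, hT, fun ρ hρ => ?_⟩
  obtain ⟨h1, h2⟩ := hk ρ hρ
  refine ⟨fun g hg => h1 g (Finsupp.support_smul hg), ?_⟩
  rw [kap_smul, h2, one_zpow]

/-- PROOF. `T` trivial group (image of a member). -/
theorem AA.zero {X : Type} [Group X] (hX : H.mem X) : AA S H 0 := by
  refine ⟨Unit, inferInstance, 1, fun x => ⟨1, Subsingleton.elim _ _⟩, ?_, fun ρ _ => ?_⟩
  · exact H.mem_of_surjective (1 : X →* Unit) (fun x => ⟨1, Subsingleton.elim _ _⟩) hX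
  · refine ⟨fun g hg => ?_, kap_zero S ρ⟩
    simp at hg

theorem AA.sum {X : Type} [Group X] (hX : H.mem X) {ι : Type} (s : Finset ι)
    (y : ι → (LFn S →₀ ℤ)) (h : ∀ i ∈ s, AA S H (y i)) : AA S H (∑ i ∈ s, y i) := by
  classical
  induction s using Finset.induction_on with
  | empty =>
    rw [Finset.sum_empty]
    exact AA.zero S hX
  | insert a s ha ih =>
    rw [Finset.sum_insert ha]
    exact AA.add S (h a (Finset.mem_insert_self a s))
      (ih fun i hi => h i (Finset.mem_insert_of_mem hi))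

end Pool.Agent.Lib.H65G
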