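import Pool.Agent.Lib.H65G.A0
import Pool.Agent.Lib.H65G.A1
import Pool.Agent.Lib.H65G.A1b

/-! Chunk A1c: algebra of `kap` and closure properties of `AA`. -/

set_option autoImplicit false

namespace Pool.Agent.Lib.H65G

open Subgroup Pool.Agent.H69 Pool.Agent.Lib.H65F

variable {F : Formation} (S : BSys F)

variable {H : Formation}

theorem a1c_bt_surj {g : LFn S} (hg : Function.Injective g) : Function.Surjective (bt S g) :=
  S.hp'.comp (srjA S hg)

theorem a1c_bl_surj {g : LFn S} (hg : Function.Injective g) (x : S.G) :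
    ∃ ρ ∈ _root_.commutator Fr, bl S g ρ = x := by
  refine lift_surj_commutator S.aG S.kG S.pG (bl S g) (fun b => ?_) x
  obtain ⟨f, hf⟩ := a1c_bt_surj S hg b
  exact ⟨f, by rw [bl_spec, hf]⟩

/-- PROOF. Let `T`, `u` be given, `y = single g 1`.  If `u ρ = 1` then `bt S g ρ = 1`, so `bl S g ρ` is central, and `kap = cz (bl S g ρ) = 1`,
so `bl S g ρ = 1`.  So `bl S g` restricted to `commutator Fr` factors through `u` (`QuotientGroup.lift`, or define the map
`T →* G` by choosing preimages), and it is surjective by `lift_surj_commutator` (`bt S g` is surjective by `BSys.surj`, `S.pG`).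
`H.mem_of_surjective`. -/
theorem AA.mem {g : LFn S} (hg : Function.Injective g) (h : AA S H (Finsupp.single g 1)) :
    H.mem S.G := by
  classical
  obtain ⟨T, iT, u, hu, hT, hk⟩ := h
  let v : ↥(_root_.commutator Fr) →* S.G := (bl S g).comp (_root_.commutator Fr).subtype
  have hker : u.ker ≤ v.ker := by
    intro ρ hρ
    obtain ⟨h1, h2⟩ := hk ρ hρ
    have hb : bt S g ρ = 1 := h1 g (by simp)
    rw [kap_single, zpow_one] at h2
    have h3 : (cz (bl S g ρ) : S.G) = bl S g ρ := cz_coe (a1_bl_mem S hb)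
    rw [h2] at h3
    exact h3.symm
  let w : T →* S.G := u.liftOfSurjective hu ⟨v, hker⟩
  have hw : ∀ ρ, w (u ρ) = v ρ := fun ρ =>
    MonoidHom.liftOfRightInverse_comp_apply u _ (Function.rightInverse_surjInv hu) ⟨v, hker⟩ ρ
  refine H.mem_of_surjective w (fun x => ?_) hT
  obtain ⟨ρ, hρ, hx⟩ := a1c_bl_surj S hg x
  exact ⟨u ⟨ρ, hρ⟩, by rw [hw]; exact hx⟩

theorem a1c_bt_surj_comm {g : LFn S} (hg : Function.Injective g) (b : S.G') :
    ∃ ρ : ↥(_root_.commutator Fr), bt S g ρ = b := by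
  obtain ⟨x, rfl⟩ := S.haG b
  obtain ⟨ρ, hρ, hx⟩ := a1c_bl_surj S hg x
  exact ⟨⟨ρ, hρ⟩, by rw [← bl_spec, hx]⟩

/-- PROOF. `T := range of commutator Fr → (y.support → G')`, `ρ ↦ (bt S g ρ)`; it is in `H` since it is a subdirect product of copies of `G'`
(`mem_of_family` with `hX := hG'`; each `bt S g` restricted to the commutator subgroup is onto `G'`: `bt S g` is onto (`BSys.surj`) and `G'` is
perfect as an image of `G`). -/
theorem AA_of_trivial (hG' : H.mem S.G') {y : LFn S →₀ ℤ}
    (hy : ∀ g ∈ y.support, Function.Injective g)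
    (h : ∀ ρ ∈ _root_.commutator Fr, (∀ g ∈ y.support, bt S g ρ = 1) → kap S y ρ = 1) :
    AA S H y := by
  classical
  let w : ↥(_root_.commutator Fr) →* (↥y.support → S.G') :=
    MonoidHom.pi fun g : ↥y.support => (bt S g.1).comp (_root_.commutator Fr).subtype
  have hw : ∀ ρ (g : ↥y.support), w ρ g = bt S g.1 ρ := fun ρ g => rfl
  refine ⟨w.range, inferInstance, w.rangeRestrict, w.rangeRestrict_surjective, ?_, ?_⟩
  · refine H.mem_of_family hG' (ι := ↥y.support) (fun _ => S.G')
      (fun g => (Pi.evalMonoidHom (fun _ : ↥y.support => S.G') g).comp w.range.subtype)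
      (fun g b => ?_) (fun _ => hG') (fun t ht => ?_)
    · obtain ⟨ρ, hρ⟩ := a1c_bt_surj_comm S (hy g.1 g.2) b
      exact ⟨⟨w ρ, ρ, rfl⟩, hρ⟩
    · apply Subtype.ext
      funext g
      exact ht g
  · intro ρ hρ
    have h0 : w ρ = 1 := congrArg Subtype.val hρ
    have h1 : ∀ g ∈ y.support, bt S g ρ = 1 := fun g hg => by
      have := congrFun h0 ⟨g, hg⟩
      rw [hw] at this
      exact this
    exact ⟨h1, h ρ ρ.2 h1⟩

end Pool.Agent.Lib.H65G
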