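import Pool.Agent.Lib.H65G.A0

/-! Chunk A2b: the abstract lemma CL2. -/

set_option autoImplicit false

namespace Pool.Agent.Lib.H65G

open Subgroup Pool.Agent.H69 Pool.Agent.Lib.H65F

/-- The abstract lemma.
PROOF. (Compare `H65F/A2b.lean`.)  `K₀` is normal.  `Q := P ⧸ (N ⊔ K₀)` is perfect (image of `P`), `Z₁` := image of `Z` in
`Q` is central, and `(mk' _).comp u` is onto modulo `Z₁` (image of `u.range ⊔ (Z ⊔ N) = ⊤`; `N` maps to `1`), so by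
`genBy_of_mod_center` it is onto, `GenBy m Q` and `Q ∈ H` by `hH`.  `Z ⊓ (N ⊔ K₀) = K₀` (elementwise: `z = n k`,
`n = z k⁻¹ ∈ N ⊓ Z ≤ K₀`).  So `P ⧸ K₀ = P ⧸ (Z ⊓ (N ⊔ K₀)) ∈ H` by `H.inter` (`QuotientGroup.quotientMulEquivOfEq`). -/
theorem abs_lemma (H : Formation) {P : Type} [Group P] [Finite P]
    (hP : _root_.commutator P = ⊤) {Z N K₀ : Subgroup P} (hZ : Z ≤ center P) (hN : N.Normal)
    (hZn : Z.Normal) (hK₀ : K₀.Normal) (hK : K₀ ≤ Z) (hNZ : N ⊓ Z ≤ K₀) (hPZ : H.mem (P ⧸ Z))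
    {m : ℕ} (u : FreeGroup (Fin m) →* P) (hu : u.range ⊔ (Z ⊔ N) = ⊤)
    (hH : ∀ (Q : Type) [Group Q] [Finite Q] (f : P →* Q), Function.Surjective f →
      GenBy m Q → H.mem Q) : H.mem (P ⧸ K₀) := by
  have hM : (N ⊔ K₀).Normal := Subgroup.sup_normal N K₀
  have hs : Function.Surjective (QuotientGroup.mk' (N ⊔ K₀)) := QuotientGroup.mk'_surjective _
  have hQ : _root_.commutator (P ⧸ (N ⊔ K₀)) = ⊤ := by
    have h1 := Subgroup.map_commutator (⊤ : Subgroup P) ⊤ (QuotientGroup.mk' (N ⊔ K₀))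
    rw [Subgroup.map_top_of_surjective _ hs, ← _root_.commutator_def, ← _root_.commutator_def,
      hP, Subgroup.map_top_of_surjective _ hs] at h1
    exact h1.symm
  have hZ1 : Z.map (QuotientGroup.mk' (N ⊔ K₀)) ≤ center (P ⧸ (N ⊔ K₀)) := by
    rintro _ ⟨z, hz, rfl⟩
    rw [Subgroup.mem_center_iff]
    intro g
    obtain ⟨x, rfl⟩ := hs g
    rw [← map_mul, ← map_mul, Subgroup.mem_center_iff.1 (hZ hz) x]
  have hgen : Function.Surjective ((QuotientGroup.mk' (N ⊔ K₀)).comp u) := by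
    refine genBy_of_mod_center hQ hZ1 _ ?_
    rw [eq_top_iff]
    intro q _
    obtain ⟨x, rfl⟩ := hs q
    have hx : x ∈ u.range ⊔ (Z ⊔ N) := hu ▸ mem_top x
    have hZN : (Z ⊔ N).Normal := Subgroup.sup_normal Z N
    obtain ⟨a, ⟨w, rfl⟩, b, hb, rfl⟩ := Subgroup.mem_sup_of_normal_right.1 hx
    obtain ⟨c, hc, n, hn, rfl⟩ := Subgroup.mem_sup_of_normal_right.1 hb
    have hn1 : QuotientGroup.mk' (N ⊔ K₀) n = 1 :=
      (QuotientGroup.eq_one_iff n).2 (Subgroup.mem_sup_left hn)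
    rw [map_mul, map_mul, hn1, mul_one]
    exact mul_mem_sup ⟨w, rfl⟩ (mem_map_of_mem _ hc)
  have hQm : H.mem (P ⧸ (N ⊔ K₀)) :=
    hH _ (QuotientGroup.mk' (N ⊔ K₀)) hs ⟨_, hgen⟩
  have hint : Z ⊓ (N ⊔ K₀) = K₀ := by
    apply le_antisymm
    · intro z hz
      obtain ⟨hz1, hz2⟩ := Subgroup.mem_inf.1 hz
      obtain ⟨n, hn, k, hk, rfl⟩ := Subgroup.mem_sup_of_normal_right.1 hz2
      have : n ∈ N ⊓ Z := by
        refine ⟨hn, ?_⟩
        have := Z.mul_mem hz1 (Z.inv_mem (hK hk))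
        rwa [mul_inv_cancel_right] at this
      exact K₀.mul_mem (hNZ this) hk
    · exact le_inf hK le_sup_right
  have := H.inter P Z (N ⊔ K₀) hPZ hQm
  exact H.iso _ _ (QuotientGroup.quotientMulEquivOfEq hint) this

end Pool.Agent.Lib.H65G
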