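import Pool.Agent.Lib.H65G.A0
import Pool.Agent.Lib.H65G.A1
import Pool.Agent.Lib.H65G.A1b
import Pool.Agent.Lib.H65G.A1c
import Pool.Agent.Lib.H65G.A2
import Pool.Agent.Lib.H65G.A2b

/-! Chunk A3a: lemma CL of Theorem A. -/

set_option autoImplicit false

namespace Pool.Agent.Lib.H65G

open Subgroup Pool.Agent.H69 Pool.Agent.Lib.H65F

variable {F : Formation} (S : BSys F)

/-- The homomorphism `ρ ↦ (bl g ρ)` for `g` in the finite set `s`. -/
noncomputable def UU (s : Finset (LFn S)) : Fr →* (s → S.G) := MonoidHom.pi fun g => bl S g.1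

/-- The image of the commutator subgroup. -/
noncomputable def PP (s : Finset (LFn S)) : Subgroup (s → S.G) :=
  (_root_.commutator Fr).map (UU S s)

theorem a3a_comm {A : Type} [Group A] {x x' z z' : A} (hz : ∀ a, z * a = a * z)
    (hz' : ∀ a, z' * a = a * z') :
    x * z * (x' * z') * (x * z)⁻¹ * (x' * z')⁻¹ = x * x' * x⁻¹ * x'⁻¹ := by
  rw [mul_inv_rev, mul_inv_rev]
  calc x * z * (x' * z') * (z⁻¹ * x⁻¹) * (z'⁻¹ * x'⁻¹)
      = x * (z * (x' * z')) * z⁻¹ * x⁻¹ * z'⁻¹ * x'⁻¹ := by group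
    _ = x * ((x' * z') * z) * z⁻¹ * x⁻¹ * z'⁻¹ * x'⁻¹ := by rw [hz]
    _ = x * x' * (z' * x⁻¹) * z'⁻¹ * x'⁻¹ := by group
    _ = x * x' * (x⁻¹ * z') * z'⁻¹ * x'⁻¹ := by rw [hz']
    _ = x * x' * x⁻¹ * x'⁻¹ := by group

/-- PROOF. `R₀ := ⊤ ⊓ ⨅ g ∈ s, (bt S g).ker` is `GoodQ` (`BSys.goodQ_inf'`, `GoodQ.top`), so `commutator Fr ⊔ R₀ = ⊤`
(`top_le_commutator_sup`).  `UU` maps `R₀` into the centre of `s → G` (componentwise in `S.aG.ker ≤ center G`).  So every commutator of
`Fr` has the same image as a commutator of two elements of `commutator Fr`, and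
`PP = (commutator Fr).map UU = ⁅PP, PP⁆`; translate to `commutator ↥PP = ⊤` (`commutator_coe_eq_top_iff`, H69 Necessity). -/
theorem PP_perfect (s : Finset (LFn S)) (hs : ∀ g ∈ s, Function.Injective g) :
    _root_.commutator ↥(PP S s) = ⊤ := by
  classical
  rw [commutator_coe_eq_top_iff]
  have hG := gqA' S (GoodQ.top S.mY) s hs
  have htop := top_le_commutator_sup S.h1 S.h2 hG
  obtain ⟨hn, -, -⟩ := id hG
  have hcen : ∀ r ∈ (⊤ ⊓ ⨅ g ∈ s, (S.p'.comp (hA S g)).ker : Subgroup Fr),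
      ∀ a : s → S.G, UU S s r * a = a * UU S s r := by
    intro r hr a
    funext g
    have h := (Subgroup.mem_inf.mp hr).2
    rw [Subgroup.mem_iInf] at h
    have h' := h g.1
    rw [Subgroup.mem_iInf] at h'
    have h1 : bl S g.1 r ∈ center S.G := a1_bl_mem S (h' g.2)
    exact (Subgroup.mem_center_iff.mp h1 (a g)).symm
  apply le_antisymm
  · rw [Subgroup.commutator_le]
    intro a ha b hb
    rw [commutatorElement_def]
    exact mul_mem (mul_mem (mul_mem ha hb) (inv_mem ha)) (inv_mem hb)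
  · have h1 : _root_.commutator Fr ≤ (⁅PP S s, PP S s⁆).comap (UU S s) := by
      rw [_root_.commutator_def, Subgroup.commutator_le]
      intro f hf f' hf'
      rw [← htop, Subgroup.mem_sup_of_normal_right] at hf hf'
      obtain ⟨c, hc, r, hr, rfl⟩ := hf
      obtain ⟨c', hc', r', hr', rfl⟩ := hf'
      rw [Subgroup.mem_comap, map_commutatorElement, map_mul, map_mul, commutatorElement_def,
        a3a_comm (hcen r hr) (hcen r' hr'), ← commutatorElement_def]
      exact Subgroup.commutator_mem_commutator (mem_map_of_mem _ hc) (mem_map_of_mem _ hc')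
    exact Subgroup.map_le_iff_le_comap.mpr h1

/-- PROOF. `lift_surj_commutator` for `bl S g` (`bt S g` surjective, `BSys.surj`, `S.pG`). -/
theorem PP_subdirect (s : Finset (LFn S)) (hs : ∀ g ∈ s, Function.Injective g) (g : s)
    (x : S.G) : ∃ z ∈ PP S s, z g = x := by
  obtain ⟨ρ, hρ, hx⟩ := a1c_bl_surj S (hs g.1 g.2) x
  exact ⟨UU S s ρ, mem_map_of_mem _ hρ, hx⟩

/-- PROOF. `mem_of_family` for the coordinate projections `PP →* G` (`PP_subdirect`); `F' := ` any formation containing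
`S.G` (definition of `InForm`); `PP` is finite. -/
theorem PP_inForm (s : Finset (LFn S)) (hs : ∀ g ∈ s, Function.Injective g) :
    InForm S.G ↥(PP S s) := by
  intro F' hF'
  refine F'.mem_of_family hF' (ι := ↥s) (fun _ => S.G)
    (fun g => (Pi.evalMonoidHom (fun _ : ↥s => S.G) g).comp (PP S s).subtype)
    (fun g x => ?_) (fun _ => hF') (fun t ht => ?_)
  · obtain ⟨z, hz, hx⟩ := PP_subdirect S s hs g x
    exact ⟨⟨z, hz⟩, hx⟩
  · apply Subtype.ext
    funext g
    exact ht g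

end Pool.Agent.Lib.H65G
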