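import Pool.Agent.Lib.H65G.A3n

/-! Chunk A3e: lemma CL of Theorem A. -/

set_option autoImplicit false

namespace Pool.Agent.Lib.H65G

open Subgroup Pool.Agent.H69 Pool.Agent.Lib.H65F

variable {F : Formation} (S : BSys F)

/-- Elements of `R'` in the commutator subgroup.
PROOF. `R₂ := R' ⊓ ⨅ g ∈ s, (S.p'.comp (hA S g)).ker` (`GoodQ`, `gqA'`), `le_commutator_sup` (`R₁ := R'`): `ρ = ρ₁ * ρ₂`,
`ρ₁ ∈ ⁅R', R'⁆`, `ρ₂ ∈ R₂`; `UU ρ₁ ∈ NN`, and `ρ₂ = ρ₁⁻¹ ρ ∈ commutator Fr`, so `UU ρ₂ ∈ ZZ` (`bl_spec`).  (The middle part of the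
proof of `NN_spec` in `H65F/A3c.lean`.) -/
theorem mem_ZZ_sup_NN (s : Finset (LFn S)) (hs : ∀ g ∈ s, Function.Injective g)
    {R' : Subgroup Fr} (hR' : GoodQ F R') {ρ : Fr} (hρ : ρ ∈ _root_.commutator Fr)
    (hρR : ρ ∈ R') :
    (⟨UU S s ρ, mem_map_of_mem _ hρ⟩ : ↥(PP S s)) ∈ ZZ S s ⊔ NN S s R' := by
  obtain ⟨hRn, -, -⟩ := id hR'
  have hR₂ : GoodQ F (R' ⊓ ⨅ g ∈ s, (S.p'.comp (hA S g)).ker) := gqA' S hR' s hs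
  obtain ⟨hR₂n, -, -⟩ := id hR₂
  have h1 : ρ ∈ ⁅R', R'⁆ ⊔ (R' ⊓ ⨅ g ∈ s, (S.p'.comp (hA S g)).ker) :=
    le_commutator_sup S.h1 S.h2 hRn hR₂ hρR
  obtain ⟨ρ₁, hρ₁, ρ₂, hρ₂, hmul⟩ := Subgroup.mem_sup_of_normal_right.mp h1
  have hc1 : ρ₁ ∈ _root_.commutator Fr := by
    rw [_root_.commutator]
    exact Subgroup.commutator_mono le_top le_top hρ₁
  have hc2 : ρ₂ ∈ _root_.commutator Fr := by
    have : ρ₂ = ρ₁⁻¹ * ρ := by rw [← hmul]; group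
    rw [this]
    exact mul_mem (inv_mem hc1) hρ
  have hm1 : (⟨UU S s ρ₁, mem_map_of_mem _ hc1⟩ : ↥(PP S s)) ∈ NN S s R' := by
    rw [NN, Subgroup.mem_subgroupOf]
    exact ⟨ρ₁, hρ₁, rfl⟩
  have hm2 : (⟨UU S s ρ₂, mem_map_of_mem _ hc2⟩ : ↥(PP S s)) ∈ ZZ S s := by
    rw [ZZ, MonoidHom.mem_ker]
    funext g
    change S.aG (bl S g.1 ρ₂) = 1
    rw [bl_spec]
    have h2 : ρ₂ ∈ ⨅ g ∈ s, (S.p'.comp (hA S g)).ker := (Subgroup.mem_inf.mp hρ₂).2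
    rw [Subgroup.mem_iInf] at h2
    have h3 := h2 g.1
    rw [Subgroup.mem_iInf] at h3
    exact h3 g.2
  have he : (⟨UU S s ρ, mem_map_of_mem _ hρ⟩ : ↥(PP S s)) =
      ⟨UU S s ρ₁, mem_map_of_mem _ hc1⟩ * ⟨UU S s ρ₂, mem_map_of_mem _ hc2⟩ := by
    apply Subtype.ext
    change UU S s ρ = UU S s ρ₁ * UU S s ρ₂
    rw [← map_mul, hmul]
  rw [he]
  exact mul_mem (Subgroup.mem_sup_right hm1) (Subgroup.mem_sup_left hm2)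

end Pool.Agent.Lib.H65G
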