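import Pool.Agent.Lib.H65G.A3n
import Pool.Agent.Lib.H65G.A3e

/-! Chunk A3f: lemma CL of Theorem A. -/

set_option autoImplicit false

namespace Pool.Agent.Lib.H65G

open Subgroup Pool.Agent.H69 Pool.Agent.Lib.H65F

variable {F : Formation} (S : BSys F)

/-- Few generators modulo `ZZ ⊔ NN`.
PROOF. `R₂ := R' ⊓ ⨅ g ∈ s, (S.p'.comp (hA S g)).ker` is `GoodQ` (`gqA'`), so `commutator Fr ⊔ R₂ = ⊤` (`top_le_commutator_sup`): for
every `i` there are `ρ i ∈ commutator Fr`, `r i ∈ R₂ ≤ R'` with `of i = ρ i * r i`.  Let `e : W ≃ Fin W.card` (`Finset.equivFin`) and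
`u := FreeGroup.lift (fun k : Fin m => if h : k < W.card then ⟨UU S s (ρ (e.symm ⟨k, h⟩)), _⟩ else 1)`.
Let `T := closure {ρ i | i ∈ W}` (a subgroup of `Fr` contained in `commutator Fr`); `T ⊔ R' = ⊤` since it contains all generators (for
`i ∉ W`: `hW`; `FreeGroup.closure_range_of`).  An element of `PP` is `UU ρ`, `ρ ∈ commutator Fr`; write `ρ = t * r`, `t ∈ T`, `r ∈ R'` (`R'` normal
by `GoodQ`); then `r = t⁻¹ ρ ∈ commutator Fr`, so `UU r ∈ ZZ ⊔ NN` (`mem_ZZ_sup_NN`), and `UU t ∈ u.range` (`UU` restricted to `commutator Fr` maps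
`T` into `u.range`: closure induction). -/
theorem exists_gens_PP (s : Finset (LFn S)) (hs : ∀ g ∈ s, Function.Injective g)
    {R' : Subgroup Fr} (hR' : GoodQ F R') {m : ℕ} (W : Finset ℕ) (hm : W.card ≤ m)
    (hW : ∀ i, i ∉ W → FreeGroup.of i ∈ R') :
    ∃ u : FreeGroup (Fin m) →* ↥(PP S s), u.range ⊔ (ZZ S s ⊔ NN S s R') = ⊤ := by
  classical
  obtain ⟨hRn, -, -⟩ := id hR'
  have hR₂ : GoodQ F (R' ⊓ ⨅ g ∈ s, (S.p'.comp (hA S g)).ker) := gqA' S hR' s hs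
  obtain ⟨hR₂n, -, -⟩ := id hR₂
  have htop := top_le_commutator_sup S.h1 S.h2 hR₂
  have hdec : ∀ i : ℕ, ∃ ρ ∈ _root_.commutator Fr, ∃ r ∈ R', FreeGroup.of i = ρ * r := by
    intro i
    have hx : (FreeGroup.of i : Fr) ∈ _root_.commutator Fr ⊔
        (R' ⊓ ⨅ g ∈ s, (S.p'.comp (hA S g)).ker) := htop ▸ mem_top _
    obtain ⟨ρ, hρ, r, hr, h⟩ := Subgroup.mem_sup_of_normal_right.1 hx
    exact ⟨ρ, hρ, r, (Subgroup.mem_inf.1 hr).1, h.symm⟩
  choose ρ hρ r hr hi using hdec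
  let e : W ≃ Fin W.card := W.equivFin
  let u : FreeGroup (Fin m) →* ↥(PP S s) := FreeGroup.lift fun k : Fin m =>
    if h : k.1 < W.card then ⟨UU S s (ρ (e.symm ⟨k.1, h⟩)), mem_map_of_mem _ (hρ _)⟩ else 1
  have hu : ∀ i, i ∈ W → (⟨UU S s (ρ i), mem_map_of_mem _ (hρ i)⟩ : ↥(PP S s)) ∈ u.range := by
    intro i hiW
    have hk : (e ⟨i, hiW⟩).1 < m := (e ⟨i, hiW⟩).2.trans_le hm
    refine ⟨FreeGroup.of ⟨(e ⟨i, hiW⟩).1, hk⟩, ?_⟩
    change (FreeGroup.lift _) _ = _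
    rw [FreeGroup.lift_apply_of, dif_pos (e ⟨i, hiW⟩).2]
    apply Subtype.ext
    have h1 : e.symm ⟨(e ⟨i, hiW⟩).1, (e ⟨i, hiW⟩).2⟩ = ⟨i, hiW⟩ := e.symm_apply_apply _
    change UU S s (ρ (e.symm ⟨(e ⟨i, hiW⟩).1, (e ⟨i, hiW⟩).2⟩ : W)) = UU S s (ρ i)
    rw [h1]
  let T : Subgroup Fr := closure (ρ '' (W : Set ℕ))
  have hTc : T ≤ _root_.commutator Fr := by
    rw [closure_le]
    rintro _ ⟨i, -, rfl⟩
    exact hρ i
  have hT : T ⊔ R' = ⊤ := by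
    rw [eq_top_iff, ← FreeGroup.closure_range_of ℕ, closure_le]
    rintro _ ⟨i, rfl⟩
    by_cases hiW : i ∈ W
    · rw [SetLike.mem_coe, hi i]
      exact mul_mem_sup (subset_closure ⟨i, hiW, rfl⟩) (hr i)
    · exact Subgroup.mem_sup_right (hW i hiW)
  have hTu : ∀ t (ht : t ∈ T), (⟨UU S s t, mem_map_of_mem _ (hTc ht)⟩ : ↥(PP S s)) ∈ u.range := by
    intro t ht
    induction ht using closure_induction with
    | mem x hx =>
      obtain ⟨i, hiW, rfl⟩ := hx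
      exact hu i hiW
    | one =>
      have h1 : (⟨UU S s 1, mem_map_of_mem _ (hTc (one_mem T))⟩ : ↥(PP S s)) = 1 := by
        apply Subtype.ext
        change UU S s 1 = 1
        rw [map_one]
      rw [h1]
      exact one_mem _
    | mul x y hx hy ihx ihy =>
      have h1 : (⟨UU S s (x * y), mem_map_of_mem _ (hTc (mul_mem hx hy))⟩ : ↥(PP S s)) =
          ⟨UU S s x, mem_map_of_mem _ (hTc hx)⟩ * ⟨UU S s y, mem_map_of_mem _ (hTc hy)⟩ := by
        apply Subtype.ext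
        change UU S s (x * y) = UU S s x * UU S s y
        rw [map_mul]
      rw [h1]
      exact mul_mem ihx ihy
    | inv x hx ihx =>
      have h1 : (⟨UU S s x⁻¹, mem_map_of_mem _ (hTc (inv_mem hx))⟩ : ↥(PP S s)) =
          (⟨UU S s x, mem_map_of_mem _ (hTc hx)⟩ : ↥(PP S s))⁻¹ := by
        apply Subtype.ext
        change UU S s x⁻¹ = (UU S s x)⁻¹
        rw [map_inv]
      rw [h1]
      exact inv_mem ihx
  refine ⟨u, ?_⟩
  rw [eq_top_iff]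
  rintro ⟨_, σ, hσ, rfl⟩ -
  have hσT : σ ∈ T ⊔ R' := hT ▸ mem_top σ
  obtain ⟨t, ht, q, hq, hmul⟩ := Subgroup.mem_sup_of_normal_right.1 hσT
  have hqc : q ∈ _root_.commutator Fr := by
    have : q = t⁻¹ * σ := by rw [← hmul]; group
    rw [this]
    exact mul_mem (inv_mem (hTc ht)) hσ
  have h2 := mem_ZZ_sup_NN S s hs hR' hqc hq
  have h3 : (⟨UU S s σ, mem_map_of_mem _ hσ⟩ : ↥(PP S s)) =
      ⟨UU S s t, mem_map_of_mem _ (hTc ht)⟩ * ⟨UU S s q, mem_map_of_mem _ hqc⟩ := by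
    apply Subtype.ext
    change UU S s σ = UU S s t * UU S s q
    rw [← map_mul, hmul]
  have h4 : (⟨UU S s σ, mem_map_of_mem _ hσ⟩ : ↥(PP S s)) ∈
      u.range ⊔ (ZZ S s ⊔ NN S s R') := by
    rw [h3]
    exact mul_mem_sup (hTu t ht) h2
  exact h4

end Pool.Agent.Lib.H65G
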