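import Pool.Agent.Lib.H65G.A0
import Pool.Agent.Lib.H65G.A1
import Pool.Agent.Lib.H65G.A1b
import Pool.Agent.Lib.H65G.A1c
import Pool.Agent.Lib.H65G.A2
import Pool.Agent.Lib.H65G.A2b
import Pool.Agent.Lib.H65G.A3a
import Pool.Agent.Lib.H65G.A3b
import Pool.Agent.Lib.H65G.A3c
import Pool.Agent.Lib.H65G.A3d

/-! Chunk A3: lemma CL of Theorem A. -/

set_option autoImplicit false

namespace Pool.Agent.Lib.H65G

open Subgroup Pool.Agent.H69 Pool.Agent.Lib.H65F

variable {F : Formation} (S : BSys F)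

/-- Lemma CL.  `R'` contains all generators outside the finite set `W` with at most `m` elements. -/
theorem lemmaCL {H : Formation} (hG' : H.mem S.G') {y : LFn S →₀ ℤ}
    (hy : ∀ g ∈ y.support, Function.Injective g) {R' : Subgroup Fr} (hR' : GoodQ F R')
    {m : ℕ} (W : Finset ℕ) (hm : W.card ≤ m) (hW : ∀ i, i ∉ W → FreeGroup.of i ∈ R')
    (hH : ∀ (Q : Type) [Group Q] [Finite Q], InForm S.G Q → _root_.commutator Q = ⊤ →
      GenBy m Q → H.mem Q)
    (hco : ∀ (i : S.I) (β : Fr →* S.Y),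
      coef y (fun g => (S.π' i).comp (hA S g)) β ≠ 0 → R' ≤ β.ker) : AA S H y := by
  classical
  obtain ⟨K₀, hK₀n, hK₀Z, hK₀⟩ := exists_K0 S (y := y)
  obtain ⟨hZc, hZn, hPZ⟩ := ZZ_spec S H hG' y.support hy
  have hNn := NN_normal S y.support hR'
  obtain ⟨u, hu⟩ := exists_gens_PP S y.support hy hR' W hm hW
  have hNZ : NN S y.support R' ⊓ ZZ S y.support ≤ K₀ := by
    rintro ⟨x, hx⟩ ⟨h1, h2⟩
    have h1' : x ∈ ⁅R', R'⁆.map (UU S y.support) := h1
    obtain ⟨ρ, hρ, rfl⟩ := h1'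
    have hρc : ρ ∈ _root_.commutator Fr := by
      rw [_root_.commutator_def]
      exact Subgroup.commutator_mono le_top le_top hρ
    have hbt : ∀ g ∈ y.support, bt S g ρ = 1 := by
      intro g hg
      rw [← bl_spec]
      exact congrFun h2 ⟨g, hg⟩
    exact (hK₀ ρ hρc).mpr ⟨hbt, kap_eq_one S hy hR' hco hρ hbt⟩
  have hmem : H.mem (↥(PP S y.support) ⧸ K₀) :=
    abs_lemma H (PP_perfect S y.support hy) hZc hNn hZn hK₀n hK₀Z hNZ hPZ u hu
      (fun Q _ _ f hf hQ => by
        refine hH Q ((PP_inForm S y.support hy).of_surjective f hf) ?_ hQ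
        have h1 := PP_perfect S y.support hy
        have h2 : (_root_.commutator ↥(PP S y.support)).map f ≤ _root_.commutator Q := by
          rw [_root_.commutator_def, _root_.commutator_def, Subgroup.map_commutator]
          exact Subgroup.commutator_mono le_top le_top
        rw [eq_top_iff]
        intro q _
        obtain ⟨x, rfl⟩ := hf q
        exact h2 (mem_map_of_mem _ (by rw [h1]; trivial)))
  let v : ↥(_root_.commutator Fr) →* ↥(PP S y.support) :=
    ((UU S y.support).comp (_root_.commutator Fr).subtype).codRestrict (PP S y.support)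
      (fun ρ => mem_map_of_mem _ ρ.2)
  refine ⟨↥(PP S y.support) ⧸ K₀, inferInstance, (QuotientGroup.mk' K₀).comp v, ?_, hmem, ?_⟩
  · intro q
    obtain ⟨⟨z, hz⟩, rfl⟩ := QuotientGroup.mk_surjective q
    obtain ⟨ρ, hρ, rfl⟩ := hz
    exact ⟨⟨ρ, hρ⟩, rfl⟩
  · intro ρ hρ
    have h1 : v ρ ∈ K₀ := (QuotientGroup.eq_one_iff (v ρ)).mp hρ
    exact (hK₀ ρ.1 ρ.2).mp h1

end Pool.Agent.Lib.H65G
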