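import Pool.Agent.Lib.H65G.A0
import Pool.Agent.Lib.H65G.A1
import Pool.Agent.Lib.H65G.A1b
import Pool.Agent.Lib.H65G.A1c
import Pool.Agent.Lib.H65G.A3a
import Pool.Agent.Lib.H65G.A3b

/-! Chunk A3n: the image of the commutator subgroup of R. -/

set_option autoImplicit false

namespace Pool.Agent.Lib.H65G

open Subgroup Pool.Agent.H69 Pool.Agent.Lib.H65F

variable {F : Formation} (S : BSys F)

/-- The image of `⁅R', R'⁆` in `PP`. -/
noncomputable def NN (s : Finset (LFn S)) (R' : Subgroup Fr) : Subgroup ↥(PP S s) :=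
  (⁅R', R'⁆.map (UU S s)).subgroupOf (PP S s)

theorem NN_normal (s : Finset (LFn S)) {R' : Subgroup Fr} (hR' : GoodQ F R') :
    (NN S s R').Normal := by
  obtain ⟨hRn, -, -⟩ := id hR'
  have hcn : (⁅R', R'⁆ : Subgroup Fr).Normal := inferInstance
  refine ⟨fun n hn x => ?_⟩
  obtain ⟨y, hy, hyx⟩ := x.2
  obtain ⟨r, hr, hrn⟩ := (Subgroup.mem_subgroupOf.mp hn : ((n : ↥(PP S s)) : s → S.G) ∈ _)
  rw [NN, Subgroup.mem_subgroupOf]
  refine ⟨y * r * y⁻¹, hcn.conj_mem r hr y, ?_⟩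
  rw [map_mul, map_mul, map_inv, hyx, hrn]
  rfl

end Pool.Agent.Lib.H65G
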