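import Pool.Agent.Lib.H65G.A0
import Pool.Agent.Lib.H65G.A1
import Pool.Agent.Lib.H65G.A1b
import Pool.Agent.Lib.H65G.A1c
import Pool.Agent.Lib.H65F.A4
import Pool.Agent.Lib.H65F.A4b
import Pool.Agent.Lib.H65F.A4c
import Pool.Agent.Lib.H65F.A4d

/-! Chunk A5: moving letters.  `A ⊆ sigP S` is the set of doubled nodes. -/

set_option autoImplicit false

namespace Pool.Agent.Lib.H65G

open Subgroup Pool.Agent.H69 Pool.Agent.Lib.H65F

variable {F : Formation} (S : BSys F) {H : Formation}

/-- The induction hypothesis: all sets with `k` elements. -/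
def IHk (H : Formation) (k : ℕ) : Prop :=
  ∀ A : Finset (Subgroup S.D'), A ⊆ sigP S → A.card = k → ∀ g z' : LFn S, Adm A g z' →
    AA S H (dl A g z')

theorem a5_kap_sum {ι : Type} (s : Finset ι) (y : ι → (LFn S →₀ ℤ)) (ρ : Fr) :
    kap S (∑ i ∈ s, y i) ρ = ∏ i ∈ s, kap S (y i) ρ := by
  classical
  induction s using Finset.induction_on with
  | empty => rw [Finset.sum_empty, Finset.prod_empty, kap_zero]
  | insert a s ha ih => rw [Finset.sum_insert ha, Finset.prod_insert ha, kap_add, ih]

theorem a5_kap_sub (y y' : LFn S →₀ ℤ) (ρ : Fr) :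
    kap S (y - y') ρ = kap S y ρ * (kap S y' ρ)⁻¹ := by
  rw [sub_eq_add_neg, ← neg_one_zsmul y', kap_add, kap_smul, zpow_neg_one]

theorem a5_bl {g g' : LFn S} (h : bt S g = bt S g') : bl S g = bl S g' := by
  rw [bl, bl, h]

theorem a5_kap_dl (A : Finset (Subgroup S.D')) (g z' : LFn S) (ρ : Fr) :
    kap S (dl A g z') ρ =
      ∏ T ∈ A.powerset, (cz (bl S (cmb T z' g) ρ)) ^ ((-1 : ℤ) ^ T.card) := by
  rw [dl, a5_kap_sum]
  apply Finset.prod_congr rfl
  intro T _
  rw [kap_smul, kap_single, zpow_one]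

open Classical in
/-- One letter outside `sigP` is changed.
PROOF. `v ∉ sigP S`.  By `dl` (linear) the measure `y := dl A g z' - dl A (update g v w) z'` is
`∑ T ∈ A.powerset, (-1) ^ |T| • (single (cmb T z' g) 1 - single (cmb T z' (update g v w)) 1)`.  The two functions differ only at `v`, so
`bt S` (`BSys.local`, second part) and hence `bl S` agree on them; so `kap S y ρ = 1` for all `ρ` (`kap_add`, `kap_smul`, `kap_single`; a
sum version: `kap` of a finite sum is the product).  The support consists of functions `cmb T z' g`, `cmb T z' (update g v w)`, all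
injective (`Adm.cmb_inj`, `Adm.insert`).  `AA_of_trivial`. -/
theorem AA_move_out (hG' : H.mem S.G') {A : Finset (Subgroup S.D')}
    {g z' : LFn S} (h : Adm A g z') {v : Subgroup S.D'} (hv : v ∉ sigP S) (hvA : v ∉ A) {w : ℕ}
    (hw : ∀ u, g u ≠ w) (hw' : ∀ u ∈ A, z' u ≠ w) :
    AA S H (dl A g z' - dl A (Function.update g v w) z') := by
  have hins := Adm.insert h hvA hw hw'
  apply AA_of_trivial S hG'
  · intro g₁ hg₁
    have h1 := Finsupp.support_sub hg₁
    rw [Finset.mem_union] at h1
    rcases h1 with h1 | h1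
    · obtain ⟨T, hT, rfl⟩ := dl_support h1
      exact h.cmb_inj hT
    · obtain ⟨T, hT, rfl⟩ := dl_support h1
      exact hins.2.cmb_inj hT
  · intro ρ _ _
    rw [a5_kap_sub, a5_kap_dl, a5_kap_dl]
    have hbt : ∀ T : Finset (Subgroup S.D'),
        bt S (cmb T z' g) = bt S (cmb T z' (Function.update g v w)) := by
      intro T
      refine (locA S _ _).2 ?_
      intro M hM hle
      have hMv : M ≠ v := by
        rintro rfl
        exact hv ((mem_sigP S M).mpr ⟨hM, hle⟩)
      by_cases hMT : M ∈ T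
      · rw [cmb_of_mem _ _ hMT, cmb_of_mem _ _ hMT]
      · rw [cmb_of_notMem _ _ hMT, cmb_of_notMem _ _ hMT, Function.update_of_ne hMv]
    have he : ∏ T ∈ A.powerset, (cz (bl S (cmb T z' g) ρ)) ^ ((-1 : ℤ) ^ T.card) =
        ∏ T ∈ A.powerset,
          (cz (bl S (cmb T z' (Function.update g v w)) ρ)) ^ ((-1 : ℤ) ^ T.card) := by
      apply Finset.prod_congr rfl
      intro T _
      rw [a5_bl S (hbt T)]
    rw [he, mul_inv_cancel]

end Pool.Agent.Lib.H65G
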