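import Pool.Agent.Lib.H65G.A0
import Pool.Agent.Lib.H65G.A1
import Pool.Agent.Lib.H65G.A1b
import Pool.Agent.Lib.H65G.A1c
import Pool.Agent.Lib.H65F.A4
import Pool.Agent.Lib.H65F.A4b
import Pool.Agent.Lib.H65F.A4c
import Pool.Agent.Lib.H65F.A4d
import Pool.Agent.Lib.H65G.A5

/-! Chunk A5b: moving letters.  `A ⊆ sigP S` is the set of doubled nodes. -/

set_option autoImplicit false

namespace Pool.Agent.Lib.H65G

open Subgroup Pool.Agent.H69 Pool.Agent.Lib.H65F

variable {F : Formation} (S : BSys F) {H : Formation}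

open Classical in
/-- One letter is changed.
PROOF. `v ∈ sigP S`: `dl_step`, `Adm.insert` and the hypothesis for `insert v A` (`k + 1` elements, contained in `sigP S`).
`v ∉ sigP S`: `AA_move_out`. -/
theorem AA_move {k : ℕ} (hG' : H.mem S.G') (ih : IHk S H (k + 1))
    {A : Finset (Subgroup S.D')} (hA : A ⊆ sigP S) (hk : A.card = k) {g z' : LFn S}
    (h : Adm A g z') {v : Subgroup S.D'} (hvA : v ∉ A) {w : ℕ} (hw : ∀ u, g u ≠ w)
    (hw' : ∀ u ∈ A, z' u ≠ w) :
    AA S H (dl A g z' - dl A (Function.update g v w) z') := by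
  by_cases hv : v ∈ sigP S
  · have hs := dl_step hvA g z' w
    have h1 := (Adm.insert h hvA hw hw').1
    have h2 := ih (insert v A) (Finset.insert_subset hv hA)
      (by rw [Finset.card_insert_of_notMem hvA, hk]) g (Function.update z' v w) h1
    rw [hs]
    exact h2
  · exact AA_move_out S hG' h hv hvA hw hw'

end Pool.Agent.Lib.H65G
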