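import Pool.Agent.Lib.H65G.A0
import Pool.Agent.Lib.H65G.A1
import Pool.Agent.Lib.H65G.A1b
import Pool.Agent.Lib.H65G.A1c
import Pool.Agent.Lib.H65F.A4
import Pool.Agent.Lib.H65F.A4b
import Pool.Agent.Lib.H65F.A4c
import Pool.Agent.Lib.H65F.A4d
import Pool.Agent.Lib.H65G.A5
import Pool.Agent.Lib.H65G.A5b
import Pool.Agent.Lib.H65G.A5c

/-! Chunk A5d: moving letters.  `A ⊆ sigP S` is the set of doubled nodes. -/

set_option autoImplicit false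

namespace Pool.Agent.Lib.H65G

open Subgroup Pool.Agent.H69 Pool.Agent.Lib.H65F

variable {F : Formation} (S : BSys F) {H : Formation}

/-- PROOF. Choose `g₃` injective with all values larger than all values of `g₁`, `g₂`, `z'` (finite type).  `cmb A g₁ g₃ = cmb A g₂ g₃`.
`AA_fresh` twice, `AA.smul (-1)`, `AA.add`. -/
theorem AA_same {k : ℕ} (hG' : H.mem S.G') (ih : IHk S H (k + 1))
    {A : Finset (Subgroup S.D')} (hA : A ⊆ sigP S) (hk : A.card = k) {g₁ g₂ z' : LFn S}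
    (h1 : Adm A g₁ z') (h2 : Adm A g₂ z') (h12 : ∀ v ∈ A, g₁ v = g₂ v) :
    AA S H (dl A g₁ z' - dl A g₂ z') := by
  obtain ⟨b₁, hb₁⟩ := (Set.finite_range g₁).bddAbove
  obtain ⟨b₂, hb₂⟩ := (Set.finite_range g₂).bddAbove
  obtain ⟨b₃, hb₃⟩ := (Set.finite_range z').bddAbove
  obtain ⟨n, ⟨e⟩⟩ := Finite.exists_equiv_fin (Subgroup S.D')
  have k1 : ∀ u, g₁ u ≤ b₁ := fun u => hb₁ ⟨u, rfl⟩
  have k2 : ∀ u, g₂ u ≤ b₂ := fun u => hb₂ ⟨u, rfl⟩
  have k3 : ∀ u, z' u ≤ b₃ := fun u => hb₃ ⟨u, rfl⟩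
  obtain ⟨g₃, hg₃⟩ : ∃ g₃ : LFn S, ∀ u, g₃ u = b₁ + b₂ + b₃ + 1 + (e u : ℕ) := ⟨_, fun _ => rfl⟩
  have i3 : Function.Injective g₃ := by
    intro u u' h
    rw [hg₃, hg₃] at h
    exact e.injective (Fin.ext (Nat.add_left_cancel h))
  have f1 := AA_fresh S hG' ih hA hk (g₃ := g₃) h1 i3
    (fun u u' h => by have := k1 u'; rw [hg₃] at h; omega)
    (fun u u' _ h => by have := k3 u'; rw [hg₃] at h; omega)
  have f2 := AA_fresh S hG' ih hA hk (g₃ := g₃) h2 i3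
    (fun u u' h => by have := k2 u'; rw [hg₃] at h; omega)
    (fun u u' _ h => by have := k3 u'; rw [hg₃] at h; omega)
  have hc : cmb A g₁ g₃ = cmb A g₂ g₃ := by
    funext v
    by_cases hv : v ∈ A
    · rw [cmb_of_mem _ _ hv, cmb_of_mem _ _ hv, h12 v hv]
    · rw [cmb_of_notMem _ _ hv, cmb_of_notMem _ _ hv]
  rw [hc] at f1
  have f3 := AA.add S f1 (AA.smul S (-1) f2)
  have f4 : dl A g₁ z' - dl A (cmb A g₂ g₃) z' + (-1 : ℤ) • (dl A g₂ z' - dl A (cmb A g₂ g₃) z') =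
      dl A g₁ z' - dl A g₂ z' := by
    rw [neg_one_smul]
    abel
  rw [f4] at f3
  exact f3

end Pool.Agent.Lib.H65G
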