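import Pool.Agent.Lib.H65G.A0
import Pool.Agent.Lib.H65G.A3a
import Pool.Agent.Lib.H65G.A3b
import Pool.Agent.Lib.H65G.A3c
import Pool.Agent.Lib.H65G.A3d
import Pool.Agent.Lib.H65G.A3
import Pool.Agent.Lib.H65G.A5
import Pool.Agent.Lib.H65G.A5b
import Pool.Agent.Lib.H65G.A5c
import Pool.Agent.Lib.H65G.A5d
import Pool.Agent.Lib.H65F.B1b

/-! Chunk A6: the induction in Theorem A. -/

set_option autoImplicit false

namespace Pool.Agent.Lib.H65G

open Subgroup Pool.Agent.H69 Pool.Agent.Lib.H65F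

variable {F : Formation} (S : BSys F) {H : Formation}

/-- Large sets.  `lemmaCL` with `R' := ⊤`, `W := ∅`. -/
theorem AA_large {m : ℕ} (hG' : H.mem S.G')
    (hH' : ∀ (Q : Type) [Group Q] [Finite Q], InForm S.G Q → _root_.commutator Q = ⊤ →
      GenBy m Q → H.mem Q) {A : Finset (Subgroup S.D')}
    (hA' : Nat.log 2 (Nat.card S.Y) < A.card) {g z' : LFn S} (h : Adm A g z') :
    AA S H (dl A g z') := by
  refine lemmaCL S hG' (R' := ⊤) (m := m) ?_ (GoodQ.top S.mY) ∅ (Nat.zero_le _) ?_ hH' ?_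
  · intro g' hg'
    obtain ⟨T, hT, rfl⟩ := dl_support hg'
    exact h.cmb_inj hT
  · intro i _
    exact mem_top _
  · intro i β hne
    exfalso
    apply hne
    have hex : ∃ v ∈ A, v ∉ sigI S i := by
      by_contra hcon
      push Not at hcon
      have h5 := Finset.card_le_card (show A ⊆ sigI S i from hcon)
      have h6 := sigI_card S i
      omega
    obtain ⟨v, hvA, hv⟩ := hex
    refine coef_dl_eq_zero hvA g z' _ (fun g₁ g₂ h12 => ?_) β
    refine depOn_comp S ⊤ 1 i g₁ g₂ fun u hu => h12 u ?_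
    rintro rfl
    exact hv hu

end Pool.Agent.Lib.H65G
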