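import Pool.Agent.Lib.H65G.A0
import Pool.Agent.Lib.H65G.A3a
import Pool.Agent.Lib.H65G.A3b
import Pool.Agent.Lib.H65G.A3c
import Pool.Agent.Lib.H65G.A3d
import Pool.Agent.Lib.H65G.A3
import Pool.Agent.Lib.H65G.A5
import Pool.Agent.Lib.H65G.A5b
import Pool.Agent.Lib.H65G.A5c
import Pool.Agent.Lib.H65G.A5d
import Pool.Agent.Lib.H65F.B1b
import Pool.Agent.Lib.H65G.A6

/-! Chunk A6b: the induction in Theorem A. -/

set_option autoImplicit false

namespace Pool.Agent.Lib.H65G

open Subgroup Pool.Agent.H69 Pool.Agent.Lib.H65F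

variable {F : Formation} (S : BSys F) {H : Formation}

open Classical in
theorem a6b_adm {A : Finset (Subgroup S.D')} {g z' ω : LFn S} (h : Adm A g z')
    (h1 : Function.Injective ω) (h2 : ∀ v, ω v ∉ A.image g ∪ A.image z') :
    Adm A (cmb A g ω) z' := by
  refine ⟨?_, h.inj', ?_⟩
  · exact cmb_inj h.inj h1 (fun v hv => Finset.mem_union_left _ (Finset.mem_image_of_mem g hv)) h2
  · intro v hv u
    by_cases hu : u ∈ A
    · rw [cmb_of_mem _ _ hu]
      exact h.out v hv u
    · rw [cmb_of_notMem _ _ hu]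
      intro he
      apply h2 u
      rw [← he]
      exact Finset.mem_union_right _ (Finset.mem_image_of_mem z' hv)

/-- The number of generators in Theorem A, `y = |Y|`. -/
def mB (y : ℕ) : ℕ := ((Nat.log 2 y + 1) ^ 2 + 2 * Nat.log 2 y) * Nat.log 2 y

open Classical in
/-- The averaged measure.  `lemmaCL` with `R' := RB S.Y 0 (Λ ∪ Z)` and the window. -/
theorem AA_avg (hG' : H.mem S.G')
    (hH' : ∀ (Q : Type) [Group Q] [Finite Q], InForm S.G Q → _root_.commutator Q = ⊤ →
      GenBy (mB (Nat.card S.Y)) Q → H.mem Q)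
    {A : Finset (Subgroup S.D')} {g z' : LFn S} (h : Adm A g z')
    (hA' : A.card ≤ Nat.log 2 (Nat.card S.Y)) {Λ : Finset ℕ}
    (hΛ : Λ.card ≤ (Nat.log 2 (Nat.card S.Y) + 1) ^ 2)
    {c : (Subgroup S.D' → ℕ) →₀ ℤ}
    (hc : Meas (Subgroup S.D') (Nat.log 2 (Nat.card S.Y)) (A.image g ∪ A.image z') Λ c) :
    AA S H (∑ ω ∈ c.support, c ω • dl A (cmb A g ω) z') := by
  obtain ⟨W, hW, hWc⟩ := exists_window 0 (Λ ∪ (A.image g ∪ A.image z')) (Nat.card S.Y)
  refine lemmaCL S hG' (R' := RB S.Y 0 (Λ ∪ (A.image g ∪ A.image z')))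
    (m := mB (Nat.card S.Y)) ?_
    (RB_goodQ S.mY _ _) W ?_ (fun i hi => RB_win fun h' => hi (hW i h')) hH' ?_
  · intro g' hg'
    have h2 := Finsupp.support_finsetSum hg'
    rw [Finset.mem_biUnion] at h2
    obtain ⟨ω, hω, h3⟩ := h2
    obtain ⟨T, hT, rfl⟩ := dl_support (Finsupp.support_smul h3)
    obtain ⟨h4, h5⟩ := hc.supp ω hω
    exact (a6b_adm S h h4 h5).cmb_inj hT
  · refine hWc.trans ?_
    rw [zero_add]
    refine Nat.mul_le_mul_right _ ?_
    refine (Finset.card_union_le _ _).trans (Nat.add_le_add hΛ ?_)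
    refine (Finset.card_union_le _ _).trans ?_
    have h6 : (A.image g).card ≤ A.card := Finset.card_image_le
    have h7 : (A.image z').card ≤ A.card := Finset.card_image_le
    omega
  · intro i β hne
    obtain ⟨U, hU, ω, h1, h2, h3, h4⟩ := coef_avg hc A (sigI S i) (sigI_card S i) g z'
      (fun g : LFn S => (S.π' i).comp (hA S g)) (depOn_comp S ⊤ 1 i) hne
    rw [← h4]
    have hinj : Function.Injective (cmb U z' (cmb A g ω)) := (a6b_adm S h h1 h2).cmb_inj hU
    refine sys_RB_le S dat_one (kill_one 0) i _ (goodL_one hinj) fun M hM hle => ?_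
    by_cases hMU : M ∈ U
    · rw [cmb_of_mem _ _ hMU]
      exact Finset.mem_union_right _ (Finset.mem_union_right _
        (Finset.mem_image_of_mem z' (hU hMU)))
    · rw [cmb_of_notMem _ _ hMU]
      by_cases hMA : M ∈ A
      · rw [cmb_of_mem _ _ hMA]
        exact Finset.mem_union_right _ (Finset.mem_union_left _ (Finset.mem_image_of_mem g hMA))
      · rw [cmb_of_notMem _ _ hMA]
        exact Finset.mem_union_left _ (h3 M ((mem_sigI S i M).mpr ⟨hM, hle⟩))

end Pool.Agent.Lib.H65G
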