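import Pool.Agent.Lib.H65G.A0
import Pool.Agent.Lib.H65G.A3a
import Pool.Agent.Lib.H65G.A3b
import Pool.Agent.Lib.H65G.A3c
import Pool.Agent.Lib.H65G.A3d
import Pool.Agent.Lib.H65G.A3
import Pool.Agent.Lib.H65G.A5
import Pool.Agent.Lib.H65G.A5b
import Pool.Agent.Lib.H65G.A5c
import Pool.Agent.Lib.H65G.A5d
import Pool.Agent.Lib.H65F.B1b
import Pool.Agent.Lib.H65G.A6
import Pool.Agent.Lib.H65G.A6b

/-! Chunk A6c: the induction in Theorem A. -/

set_option autoImplicit false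

namespace Pool.Agent.Lib.H65G

open Subgroup Pool.Agent.H69 Pool.Agent.Lib.H65F

variable {F : Formation} (S : BSys F) {H : Formation}

theorem a6c_adm {A : Finset (Subgroup S.D')} {g z' ω : LFn S} (h : Adm A g z')
    {Z : Finset ℕ} (hZg : ∀ v ∈ A, g v ∈ Z) (hZz : ∀ v ∈ A, z' v ∈ Z)
    (hω : Function.Injective ω) (hωZ : ∀ v, ω v ∉ Z) : Adm A (cmb A g ω) z' := by
  refine ⟨cmb_inj h.inj hω hZg hωZ, h.inj', fun v hv u => ?_⟩
  by_cases hu : u ∈ A
  · rw [cmb_of_mem _ _ hu]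
    exact h.out v hv u
  · rw [cmb_of_notMem _ _ hu]
    intro h1
    exact hωZ u (h1 ▸ hZz v hv)

/-- The step. -/
theorem AA_step {k : ℕ} (hk : k ≤ Nat.log 2 (Nat.card S.Y)) (hG' : H.mem S.G')
    (hH' : ∀ (Q : Type) [Group Q] [Finite Q], InForm S.G Q → _root_.commutator Q = ⊤ →
      GenBy (mB (Nat.card S.Y)) Q → H.mem Q) (ih : IHk S H (k + 1)) : IHk S H k := by
  intro A hA hAk g z' h
  obtain ⟨Λ, c, hΛ, hc⟩ := exists_measure (Subgroup S.D') (Nat.log 2 (Nat.card S.Y))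
    (A.image g ∪ A.image z')
  have hZg : ∀ v ∈ A, g v ∈ A.image g ∪ A.image z' := fun v hv =>
    Finset.mem_union_left _ (Finset.mem_image_of_mem g hv)
  have hZz : ∀ v ∈ A, z' v ∈ A.image g ∪ A.image z' := fun v hv =>
    Finset.mem_union_right _ (Finset.mem_image_of_mem z' hv)
  have h1 : AA S H (∑ ω ∈ c.support, c ω • (dl A g z' - dl A (cmb A g ω) z')) := by
    refine AA.sum S hG' c.support _ fun ω hω => ?_
    obtain ⟨hω1, hω2⟩ := hc.supp ω hω
    refine AA.smul S _ ?_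
    refine AA_same S hG' ih hA hAk h (a6c_adm S h hZg hZz hω1 hω2) fun v hv => ?_
    rw [cmb_of_mem _ _ hv]
  have h2 : AA S H (∑ ω ∈ c.support, c ω • dl A (cmb A g ω) z') :=
    AA_avg S hG' hH' h (hAk.trans_le hk) hΛ hc
  have h3 : dl A g z' = (∑ ω ∈ c.support, c ω • (dl A g z' - dl A (cmb A g ω) z')) +
      ∑ ω ∈ c.support, c ω • dl A (cmb A g ω) z' := by
    rw [← Finset.sum_add_distrib]
    have h4 : ∀ ω ∈ c.support, c ω • (dl A g z' - dl A (cmb A g ω) z') +
        c ω • dl A (cmb A g ω) z' = c ω • dl A g z' := fun ω _ => by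
      rw [← smul_add, sub_add_cancel]
    rw [Finset.sum_congr rfl h4, ← Finset.sum_smul, hc.mass, one_smul]
  rw [h3]
  exact AA.add S h1 h2

theorem thmA_sys' (hG' : H.mem S.G')
    (hH' : ∀ (Q : Type) [Group Q] [Finite Q], InForm S.G Q → _root_.commutator Q = ⊤ →
      GenBy (mB (Nat.card S.Y)) Q → H.mem Q) : H.mem S.G := by
  have h0 : IHk S H (Nat.log 2 (Nat.card S.Y) + 1) := by
    intro A _ hAk g z' h
    exact AA_large S (m := mB (Nat.card S.Y)) hG' hH' (by omega) h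
  have h1 : ∀ j, j ≤ Nat.log 2 (Nat.card S.Y) + 1 →
      IHk S H (Nat.log 2 (Nat.card S.Y) + 1 - j) := by
    intro j
    induction j with
    | zero => exact fun _ => h0
    | succ j ihj =>
      intro hj
      have h2 := ihj (by omega)
      refine AA_step S (by omega) hG' hH' ?_
      have h3 : Nat.log 2 (Nat.card S.Y) + 1 - (j + 1) + 1 =
          Nat.log 2 (Nat.card S.Y) + 1 - j := by omega
      rw [h3]
      exact h2
  have h4 : IHk S H 0 := by
    have := h1 (Nat.log 2 (Nat.card S.Y) + 1) le_rfl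
    rwa [Nat.sub_self] at this
  obtain ⟨g, hg⟩ := exists_injective_nat (Subgroup S.D')
  have h5 := h4 ∅ (Finset.empty_subset _) Finset.card_empty g g
    ⟨hg, fun a ha => absurd ha (by simp), fun v hv => absurd hv (Finset.notMem_empty v)⟩
  rw [dl_empty] at h5
  exact AA.mem S hg h5

end Pool.Agent.Lib.H65G
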