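import Pool.Agent.Lib.H65G.A0
import Pool.Agent.Lib.H65G.A3a
import Pool.Agent.Lib.H65G.A3b
import Pool.Agent.Lib.H65G.A3c
import Pool.Agent.Lib.H65G.A3d
import Pool.Agent.Lib.H65G.A3
import Pool.Agent.Lib.H65G.A5
import Pool.Agent.Lib.H65G.A5b
import Pool.Agent.Lib.H65G.A5c
import Pool.Agent.Lib.H65G.A5d
import Pool.Agent.Lib.H65F.B1b
import Pool.Agent.Lib.H65G.A6
import Pool.Agent.Lib.H65G.A6b
import Pool.Agent.Lib.H65G.A6c

/-! Chunk A6d: the induction in Theorem A. -/

set_option autoImplicit false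

namespace Pool.Agent.Lib.H65G

open Subgroup Pool.Agent.H69 Pool.Agent.Lib.H65F

variable {F : Formation} (S : BSys F) {H : Formation}

theorem a6d_perfect {A B : Type} [Group A] [Group B] (f : A →* B) (hf : Function.Surjective f)
    (hA : _root_.commutator A = ⊤) : _root_.commutator B = ⊤ := by
  have h := Subgroup.map_commutator (⊤ : Subgroup A) (⊤ : Subgroup A) f
  rw [← _root_.commutator_def, hA, Subgroup.map_top_of_surjective f hf] at h
  rw [_root_.commutator_def]
  exact h.symm

theorem a6d_card_Y : Nat.card S.Y ≤ Nat.card S.G₀ :=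
  Nat.card_le_card_of_surjective S.a₀ S.ha₀

theorem log_le_mB (y : ℕ) : Nat.log 2 y ≤ mB y := by
  unfold mB
  have h : 1 ≤ (Nat.log 2 y + 1) ^ 2 + 2 * Nat.log 2 y := by
    have := Nat.one_le_pow 2 (Nat.log 2 y + 1) (Nat.succ_pos _)
    omega
  calc Nat.log 2 y = 1 * Nat.log 2 y := (one_mul _).symm
    _ ≤ _ := Nat.mul_le_mul_right _ h

/-- `G'` is a subdirect product of groups of order at most `|Y|`. -/
theorem G'_mem
    (hH : ∀ (Q : Type) [Group Q] [Finite Q], InForm S.G Q → _root_.commutator Q = ⊤ →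
      GenBy (mB (Nat.card S.Y)) Q → H.mem Q) : H.mem S.G' := by
  have h1 : H.mem Unit := by
    refine hH Unit ((InForm.refl S.G).of_surjective (1 : S.G →* Unit) (fun x => ⟨1, rfl⟩))
      (Subsingleton.elim _ _) ⟨1, fun x => ⟨1, rfl⟩⟩
  have hn : ∀ N : {N : Subgroup S.G' // UNode N}, N.1.Normal := fun N => N.2.normal
  refine H.mem_of_family h1 (ι := {N : Subgroup S.G' // UNode N}) (fun N => S.G' ⧸ N.1)
    (fun N => QuotientGroup.mk' N.1) (fun N => QuotientGroup.mk'_surjective N.1) (fun N => ?_)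
    (fun g hg => ?_)
  · obtain ⟨N, hN⟩ := N
    have hNn := hN.normal
    have hsur : Function.Surjective ((QuotientGroup.mk' N).comp S.aG) :=
      (QuotientGroup.mk'_surjective N).comp S.haG
    refine hH (S.G' ⧸ N) ((InForm.refl S.G).of_surjective _ hsur) (a6d_perfect _ hsur S.pG)
      (genBy_of_card ?_)
    have hr : S.p'.range ⊔ N = ⊤ := by
      rw [MonoidHom.range_eq_top.2 S.hp', top_sup_eq]
    have hC : UNode (N.comap S.p') := (unode_comap_iff hNn S.p' hr).2 hN
    obtain ⟨N₁, -, T, iT, u, v, hu, hv, hku, -⟩ := S.lab _ hC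
    have e1 : Nat.card (S.G' ⧸ N) = Nat.card T := by
      have e2 : N.index = (N.comap S.p').index := (Subgroup.index_comap_of_surjective N S.hp').symm
      have e3 : u.ker.index = Nat.card T := by
        rw [Subgroup.index_ker, MonoidHom.range_eq_top.2 hu]
        exact Nat.card_congr Subgroup.topEquiv.toEquiv
      rw [← Subgroup.index_eq_card, e2, ← hku, e3]
    rw [e1]
    exact (Nat.log_mono_right (Nat.card_le_card_of_surjective v hv)).trans (log_le_mB _)
  · refine S.sepG g fun C hC => ?_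
    have hCn := hC.normal
    have h2 := hg ⟨C, hC⟩
    exact (QuotientGroup.eq_one_iff g).1 h2

/-- Theorem A for a `BSys`. -/
theorem thmA_sys
    (hH : ∀ (Q : Type) [Group Q] [Finite Q], InForm S.G Q → _root_.commutator Q = ⊤ →
      GenBy (mB (Nat.card S.Y)) Q → H.mem Q) : H.mem S.G :=
  thmA_sys' S (G'_mem S hH) hH

end Pool.Agent.Lib.H65G
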