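import Pool.Agent.Lib.H65G.C3
import Pool.Agent.Lib.H65F.S2
import Pool.Agent.Lib.H65F.S3
import Pool.Agent.Lib.H65F.S3b

/-! Chunk B1: the tests, Theorem B. -/

set_option autoImplicit false

namespace Pool.Agent.Lib.H65G

open Subgroup Pool.Agent.H69 Pool.Agent.Lib.H65F

variable {F : Formation} (S : BSys F)

/-- The tests. -/
def tests (m₀ : ℕ) (Λ : Finset ℕ) : Set (Fr →* S.Y) :=
  {β | Function.Surjective β ∧ RB S.Y m₀ Λ ≤ β.ker}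

/-- The intersection of the kernels of the tests. -/
def tker (m₀ : ℕ) (Λ : Finset ℕ) : Subgroup Fr := sInf {K | ∃ β ∈ tests S m₀ Λ, K = β.ker}

theorem tests_finite (m₀ : ℕ) (Λ : Finset ℕ) : (tests S m₀ Λ).Finite := by
  classical
  obtain ⟨hn, hmem, -⟩ := RB_goodQ S.mY m₀ Λ
  have hfin : Finite (Fr ⧸ RB S.Y m₀ Λ) := F.finite _ hmem
  let Φ : ↥(tests S m₀ Λ) → ((Fr ⧸ RB S.Y m₀ Λ) → S.Y) := fun β =>
    QuotientGroup.lift (RB S.Y m₀ Λ) β.1 (fun x hx => β.2.2 hx)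
  have hΦ : Function.Injective Φ := by
    intro β β' h
    apply Subtype.ext
    apply MonoidHom.ext
    intro f
    exact congrFun h (QuotientGroup.mk f)
  have hf : Finite ↥(tests S m₀ Λ) := Finite.of_injective Φ hΦ
  exact Set.toFinite _

theorem tker_goodQ (m₀ : ℕ) (Λ : Finset ℕ) : GoodQ F (tker S m₀ Λ) := by
  unfold tker
  refine GoodQ.sInf S.mY ?_ ?_
  · refine ((tests_finite S m₀ Λ).image fun β => β.ker).subset ?_
    rintro K ⟨β, hβ, rfl⟩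
    exact ⟨β, hβ, rfl⟩
  · rintro K ⟨β, hβ, rfl⟩
    exact goodQ_ker S.mY S.zY β hβ.1

/-- `RB ≤ tker`. -/
theorem RB_le_tker (m₀ : ℕ) (Λ : Finset ℕ) : RB S.Y m₀ Λ ≤ tker S m₀ Λ := by
  unfold tker
  refine le_sInf ?_
  rintro K ⟨β, hβ, rfl⟩
  exact hβ.2

/-- The data of Theorem B: `h₀` is onto modulo the kernel of `p'` and uses `m₀` generators. -/
structure BDat (m₀ : ℕ) (h₀ : Fr →* S.D') : Prop where
  surj : Function.Surjective (S.p'.comp h₀)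
  kill : Kill h₀ m₀

variable {S} in
theorem BDat.dat {m₀ : ℕ} {h₀ : Fr →* S.D'} (hb : BDat S m₀ h₀) : Dat S.p'.ker h₀ := by
  refine ⟨inferInstance, ?_⟩
  rw [eq_top_iff]
  intro x _
  obtain ⟨f, hf⟩ := hb.surj (S.p' x)
  refine Subgroup.mem_sup_of_normal_right.2 ⟨h₀ f, ⟨f, rfl⟩, (h₀ f)⁻¹ * x, ?_, by group⟩
  have h1 : S.p' (h₀ f) = S.p' x := hf
  rw [MonoidHom.mem_ker, map_mul, map_inv, h1, inv_mul_cancel]

variable {S} in
theorem BDat.good {m₀ : ℕ} {h₀ : Fr →* S.D'} (hb : BDat S m₀ h₀) {ω : Subgroup S.D' → ℕ}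
    (h1 : Function.Injective ω) (h2 : ∀ v, ω v ∉ ({0} : Finset ℕ)) : GoodL h₀ ω := by
  refine ⟨h1, fun C j => hb.kill _ ?_⟩
  rw [Nat.unpair_pair]
  rintro ⟨h, -⟩
  exact h2 C (Finset.mem_singleton.mpr h)

variable {S} in
theorem BDat.base {m₀ : ℕ} {h₀ : Fr →* S.D'} (_hb : BDat S m₀ h₀) (g : Subgroup S.D' → ℕ) :
    S.p'.comp (hh S.p'.ker h₀ g) = S.p'.comp h₀ :=
  MonoidHom.ext fun x => comp_hh_base S.sepD S.sepG h₀ S.p' S.hp' le_rfl g x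

variable {S} in
theorem BDat.mem_tests {m₀ : ℕ} {h₀ : Fr →* S.D'} (hb : BDat S m₀ h₀) (i : S.I) {Λ : Finset ℕ}
    {ω : Subgroup S.D' → ℕ} (h1 : Function.Injective ω) (h2 : ∀ v, ω v ∉ ({0} : Finset ℕ))
    (h3 : ∀ v ∈ sigI S i, ω v ∈ Λ) :
    (S.π' i).comp (hh S.p'.ker h₀ ω) ∈ tests S m₀ Λ :=
  ⟨(S.hπ' i).comp (sys_surj S hb.dat (hb.good h1 h2)),
    sys_RB_le S hb.dat hb.kill i Λ (hb.good h1 h2) fun M hM hle =>
      h3 M ((mem_sigI S i M).mpr ⟨hM, hle⟩)⟩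

variable {S} in
theorem BDat.tker_le {m₀ : ℕ} {h₀ : Fr →* S.D'} (hb : BDat S m₀ h₀) {Λ : Finset ℕ}
    (hex : ∀ B : Finset (Subgroup S.D'), B.card ≤ Nat.log 2 (Nat.card S.Y) →
      ∃ ω : Subgroup S.D' → ℕ,
      Function.Injective ω ∧ (∀ v, ω v ∉ ({0} : Finset ℕ)) ∧ ∀ v ∈ B, ω v ∈ Λ) :
    tker S m₀ Λ ≤ (S.p'.comp h₀).ker := by
  refine ker_comp S.sepG S.p' h₀ fun N hN => ?_
  obtain ⟨hC, -, -⟩ := comap_comp_hh S.sepD S.p'.ker h₀ S.p' S.hp' (fun _ => 0) hN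
  obtain ⟨i, hi⟩ := S.exists_ker_le hC
  obtain ⟨ω, hω1, hω2, hω3⟩ := hex (sigI S i) (sigI_card S i)
  have hβ := hb.mem_tests i hω1 hω2 hω3
  intro x hx
  have hx1 : x ∈ ((S.π' i).comp (hh S.p'.ker h₀ ω)).ker := by
    have h3 : tker S m₀ Λ ≤ ((S.π' i).comp (hh S.p'.ker h₀ ω)).ker := sInf_le ⟨_, hβ, rfl⟩
    exact h3 hx
  have hx2 : hh S.p'.ker h₀ ω x ∈ (S.π' i).ker := by
    rw [MonoidHom.mem_ker] at hx1 ⊢
    exact hx1
  have hx3 : hh S.p'.ker h₀ ω x ∈ N.comap S.p' := hi hx2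
  rw [Subgroup.mem_comap] at hx3 ⊢
  rw [← hb.base ω]
  exact hx3

theorem b1_prod_zpow {A W : Type} [CommGroup A] (s : Finset W) (a : A) (f : W → ℤ) :
    ∏ w ∈ s, a ^ f w = a ^ ∑ w ∈ s, f w := by
  classical
  induction s using Finset.induction_on with
  | empty => simp
  | insert w s hw ih => rw [Finset.prod_insert hw, Finset.sum_insert hw, zpow_add, ih]

variable {S} in
/-- The claim in the proof of Theorem B. -/
theorem claimB {m₀ : ℕ} {h₀ : Fr →* S.D'} (hb : BDat S m₀ h₀) {Λ : Finset ℕ}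
    {c : (Subgroup S.D' → ℕ) →₀ ℤ}
    (hc : Meas (Subgroup S.D') (Nat.log 2 (Nat.card S.Y)) {0} Λ c) {ρ : Fr}
    (hρ : ρ ∈ _root_.commutator Fr)
    (hρ1 : ∀ β ∈ tests S m₀ Λ, lf S.a₀ S.ha₀ β ρ = 1)
    (v : Fr →* S.G) (hv : ∀ f, S.aG (v f) = S.p' (h₀ f)) : v ρ = 1 := by
  classical
  have hgood' : GoodQ F (tker S m₀ Λ) := tker_goodQ S m₀ Λ
  have hR'n : (tker S m₀ Λ).Normal := hgood'.1
  have hρR' : ρ ∈ tker S m₀ Λ := by
    rw [tker, mem_sInf]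
    rintro K ⟨β, hβ, rfl⟩
    rw [MonoidHom.mem_ker, ← lf_spec S.a₀ S.ha₀ β ρ, hρ1 β hβ, map_one]
  have htest : ∀ β ∈ tests S m₀ Λ, ∀ r ∈ tker S m₀ Λ, β r = 1 := by
    intro β hβ r hr
    rw [tker, mem_sInf] at hr
    exact hr β.ker ⟨β, hβ, rfl⟩
  have hgood := goodQ_inf S hb.dat hgood' c.support (fun ω hω =>
    hb.good (hc.supp ω hω).1 (hc.supp ω hω).2)
  obtain ⟨R, hR⟩ : ∃ R, R = tker S m₀ Λ ⊓ ⨅ g ∈ c.support,
    (hh S.p'.ker h₀ g : Fr →* S.D').ker := ⟨_, rfl⟩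
  rw [← hR] at hgood
  have hle := le_commutator_sup S.h1 S.h2 hR'n hgood
  have hρ' := hle hρR'
  have hRn : R.Normal := hgood.1
  rw [Subgroup.mem_sup_of_normal_right] at hρ'
  obtain ⟨ρ₁, hρ₁, ρ₂, hρ₂, hmul⟩ := hρ'
  rw [hR, mem_inf] at hρ₂
  obtain ⟨hρ₂a, hρ₂b⟩ := hρ₂
  have hker := hb.tker_le hc.ex
  have hbt : ∀ r ∈ tker S m₀ Λ, S.aG (v r) = 1 := by
    intro r hr
    rw [hv]
    exact hker hr
  have hvρ₁ : v ρ₁ = 1 := lift_comm_eq_one S.aG S.kG v hbt hρ₁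
  have hβρ₂ : ∀ β ∈ tests S m₀ Λ, lf S.a₀ S.ha₀ β ρ₂ = 1 := by
    intro β hβ
    have h2 : lf S.a₀ S.ha₀ β ρ₁ = 1 := lift_comm_eq_one S.a₀ S.k₀ _ (fun r hr => by
      rw [lf_spec]; exact htest β hβ r hr) hρ₁
    have h3 := hρ1 β hβ
    rw [← hmul, map_mul, h2, one_mul] at h3
    exact h3
  have hcomm1 : ρ₁ ∈ _root_.commutator Fr := by
    rw [commutator_def]
    exact Subgroup.commutator_mono le_top le_top hρ₁
  have hcomm2 : ρ₂ ∈ _root_.commutator Fr := by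
    have h2 : ρ₂ = ρ₁⁻¹ * ρ := by rw [← hmul]; group
    rw [h2]
    exact mul_mem (inv_mem hcomm1) hρ
  have hprod := central_product' S (W := Subgroup S.D' → ℕ) c.support c
    (fun ω => hh S.p'.ker h₀ ω) (fun _ => v) (by
      intro w _ f
      rw [hv]
      exact (DFunLike.congr_fun (hb.base w) f).symm) hcomm2 (by
      intro w hw
      rw [mem_iInf] at hρ₂b
      have h2 := hρ₂b w
      rw [mem_iInf] at h2
      exact h2 hw) (by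
      intro i β hne
      by_contra hcon
      apply hne
      refine hc.marg (sigI S i) (sigI_card S i) (Fr →* S.Y)
        (fun ω => (S.π' i).comp (hh S.p'.ker h₀ ω)) (depOn_comp S _ _ i) β ?_
      intro ω i1 i2 i3 heq
      apply hcon
      rw [← heq]
      exact hβρ₂ _ (hb.mem_tests i i1 i2 i3))
  rw [b1_prod_zpow, hc.mass, zpow_one] at hprod
  have hcen : v ρ₂ ∈ center S.G := S.kG (MonoidHom.mem_ker.mpr (hbt ρ₂ hρ₂a))
  have hvρ₂ : v ρ₂ = 1 := by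
    rw [← cz_coe hcen, hprod]
    rfl
  rw [← hmul, map_mul, hvρ₁, hvρ₂, mul_one]

end Pool.Agent.Lib.H65G
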