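import Pool.Agent.Lib.H65G.B1

/-! Chunk B2b: generators of the image of the commutator subgroup. -/

set_option autoImplicit false

namespace Pool.Agent.Lib.H65G

open Subgroup Pool.Agent.H69 Pool.Agent.Lib.H65F
open scoped commutatorElement

variable {F : Formation} (S : BSys F)

/-- Generators of the image of the commutator subgroup in `G₀ ^ tests`.
PROOF. `top_le_commutator_sup` with `tker_goodQ`: `commutator Fr ⊔ tker = ⊤`, so for every `i` there are `ρ i ∈ commutator Fr`,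
`r i ∈ tker` with `of i = ρ i * r i` (`mem_sup_of_normal_right`, `tker` normal by `GoodQ`).  Let `e : W ≃ Fin W.card`
(`Finset.equivFin`); `u := FreeGroup.lift (fun k : Fin n => if h : k < W.card then ρ (e.symm ⟨k, h⟩) else 1)`.
`u x ∈ commutator Fr` for all `x` (`u.range ≤ commutator Fr`: on generators; e.g. `FreeGroup.induction_on`, or `(commutator Fr).comap u = ⊤`
by `FreeGroup.closure_range_of`).  `u.range ⊔ tker = ⊤`: it contains all generators: for `i ∈ W`, `ρ i ∈ u.range`; for `i ∉ W`,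
`of i ∈ tker` by `hW` (closure of the generators of `Fr` is `⊤`: `FreeGroup.closure_range_of`).
Let `Ψ : Fr →* (tests → G₀) := MonoidHom.pi (fun β => lf S.a₀ S.ha₀ β.1)`.  For `r ∈ tker` the element `Ψ r` is central:
`S.a₀ (lf β r) = β r = 1` (`lf_spec`, `sInf_le`), `S.k₀`.  `commutator Fr ≤ (u.range.map Ψ).comap Ψ`
(`Subgroup.commutator_le`): for `f = a * r`, `f' = a' * r'` with `a, a' ∈ u.range`, `r, r' ∈ tker` we have
`Ψ ⁅f, f'⁆ = ⁅Ψ a * Ψ r, Ψ a' * Ψ r'⁆ = ⁅Ψ a, Ψ a'⁆ = Ψ ⁅a, a'⁆` (`c1_cc`, H65F.C1).  Evaluate at `β`. -/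
theorem exists_gens {m₀ n : ℕ} {Λ : Finset ℕ} (W : Finset ℕ) (hn : W.card ≤ n)
    (hW : ∀ i, i ∉ W → FreeGroup.of i ∈ tker S m₀ Λ) :
    ∃ u : FreeGroup (Fin n) →* Fr, (∀ x, u x ∈ _root_.commutator Fr) ∧
      ∀ ρ ∈ _root_.commutator Fr, ∃ x, ∀ β ∈ tests S m₀ Λ,
        lf S.a₀ S.ha₀ β (u x) = lf S.a₀ S.ha₀ β ρ := by
  classical
  have hgood : GoodQ F (tker S m₀ Λ) := tker_goodQ S m₀ Λ
  have hT : (tker S m₀ Λ).Normal := hgood.1
  have htop : _root_.commutator Fr ⊔ tker S m₀ Λ = ⊤ := top_le_commutator_sup S.h1 S.h2 hgood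
  have hdec : ∀ i : ℕ, ∃ a ∈ _root_.commutator Fr, ∃ r ∈ tker S m₀ Λ, a * r = FreeGroup.of i := by
    intro i
    have h1 : FreeGroup.of i ∈ _root_.commutator Fr ⊔ tker S m₀ Λ := by
      rw [htop]
      exact mem_top _
    exact Subgroup.mem_sup_of_normal_right.1 h1
  choose ρ hρ r hr hρr using hdec
  let e : W ≃ Fin W.card := W.equivFin
  let gen : Fin n → Fr := fun k => if h : k.1 < W.card then ρ (e.symm ⟨k.1, h⟩).1 else 1
  let u : FreeGroup (Fin n) →* Fr := FreeGroup.lift gen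
  have hu1 : ∀ x, u x ∈ _root_.commutator Fr := by
    intro x
    induction x using FreeGroup.induction_on with
    | C1 => rw [map_one]; exact one_mem _
    | of k =>
      have h1 : u (FreeGroup.of k) = gen k := FreeGroup.lift_apply_of
      change u (FreeGroup.of k) ∈ _
      rw [h1]
      simp only [gen]
      split_ifs with h
      · exact hρ _
      · exact one_mem _
    | inv_of k h => rw [map_inv]; exact inv_mem h
    | mul x y hx hy => rw [map_mul]; exact mul_mem hx hy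
  have hsup : u.range ⊔ tker S m₀ Λ = ⊤ := by
    rw [eq_top_iff, ← FreeGroup.closure_range_of, closure_le]
    rintro _ ⟨i, rfl⟩
    by_cases hi : i ∈ W
    · have h1 : ρ i ∈ u.range := by
        have hlt : (e ⟨i, hi⟩).1 < n := lt_of_lt_of_le (e ⟨i, hi⟩).2 hn
        refine ⟨FreeGroup.of ⟨(e ⟨i, hi⟩).1, hlt⟩, ?_⟩
        have h2 : u (FreeGroup.of ⟨(e ⟨i, hi⟩).1, hlt⟩) = gen ⟨(e ⟨i, hi⟩).1, hlt⟩ :=
          FreeGroup.lift_apply_of
        rw [h2]
        simp only [gen]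
        rw [dif_pos (e ⟨i, hi⟩).2]
        have h3 : e.symm ⟨(e ⟨i, hi⟩).1, (e ⟨i, hi⟩).2⟩ = ⟨i, hi⟩ := by
          simp
        rw [h3]
      rw [SetLike.mem_coe, ← hρr i]
      exact mul_mem_sup h1 (hr i)
    · exact mem_sup_right (hW i hi)
  let Ψ : Fr →* (tests S m₀ Λ → S.G₀) := MonoidHom.pi fun β => lf S.a₀ S.ha₀ β.1
  have hΨ : ∀ (f : Fr) (β : tests S m₀ Λ), Ψ f β = lf S.a₀ S.ha₀ β.1 f := fun _ _ => rfl
  have hcen : ∀ r ∈ tker S m₀ Λ, Ψ r ∈ center (tests S m₀ Λ → S.G₀) := by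
    intro r hr
    rw [mem_center_iff]
    intro g
    funext β
    have h1 : lf S.a₀ S.ha₀ β.1 r ∈ S.a₀.ker := by
      rw [MonoidHom.mem_ker, lf_spec]
      rw [tker, mem_sInf] at hr
      exact hr β.1.ker ⟨β.1, β.2, rfl⟩
    have h2 := S.k₀ h1
    rw [mem_center_iff] at h2
    exact h2 (g β)
  have hle : _root_.commutator Fr ≤ (u.range.map Ψ).comap Ψ := by
    rw [_root_.commutator_def, Subgroup.commutator_le]
    intro f _ f' _
    have h1 : f ∈ u.range ⊔ tker S m₀ Λ := by rw [hsup]; exact mem_top _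
    have h2 : f' ∈ u.range ⊔ tker S m₀ Λ := by rw [hsup]; exact mem_top _
    obtain ⟨a, ha, r, hr, rfl⟩ := Subgroup.mem_sup_of_normal_right.1 h1
    obtain ⟨a', ha', r', hr', rfl⟩ := Subgroup.mem_sup_of_normal_right.1 h2
    rw [mem_comap]
    refine ⟨⁅a, a'⁆, ?_, ?_⟩
    · rw [SetLike.mem_coe, commutatorElement_def]
      exact mul_mem (mul_mem (mul_mem ha ha') (inv_mem ha)) (inv_mem ha')
    · rw [map_commutatorElement, map_commutatorElement, map_mul, map_mul,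
        c1_cc (hcen r hr) (hcen r' hr')]
  refine ⟨u, hu1, fun σ hσ => ?_⟩
  obtain ⟨_, ⟨x, rfl⟩, hx⟩ := hle hσ
  refine ⟨x, fun β hβ => ?_⟩
  exact congrFun hx ⟨β, hβ⟩

end Pool.Agent.Lib.H65G
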