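import Pool.Agent.Lib.H65G.B1

/-! Chunk B2a: the data of Theorem B. -/

set_option autoImplicit false

namespace Pool.Agent.Lib.H65G

open Subgroup Pool.Agent.H69 Pool.Agent.Lib.H65F

variable {F : Formation} (S : BSys F)

/-- PROOF. Let `u : FreeGroup (Fin m₀) →* G` be onto.  For `k : Fin m₀` choose `d k` with `S.p' (d k) = S.aG (u (of k))`
(`S.hp'`).  `h₀ := FreeGroup.lift (fun i => if h : i.unpair.1 = 0 ∧ i.unpair.2 < m₀ then d ⟨i.unpair.2, h.2⟩ else 1)`.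
`kill` is clear (`dif_neg`).  `surj`: let `s : FreeGroup (Fin m₀) →* Fr := FreeGroup.lift (fun k => gx 0 k)`.  Then
`S.p' (h₀ (s w)) = S.aG (u w)` for all `w` (`FreeGroup.ext_hom`, `Nat.unpair_pair`), and `S.aG ∘ u` is onto. -/
theorem exists_bdat {m₀ : ℕ} (h : GenBy m₀ S.G) : ∃ h₀ : Fr →* S.D', BDat S m₀ h₀ := by
  obtain ⟨u, hu⟩ := h
  have hd : ∀ k : Fin m₀, ∃ d : S.D', S.p' d = S.aG (u (FreeGroup.of k)) :=
    fun k => S.hp' _
  choose d hd using hd
  let h₀ : Fr →* S.D' := FreeGroup.lift (fun i : ℕ =>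
    if h : i.unpair.1 = 0 ∧ i.unpair.2 < m₀ then d ⟨i.unpair.2, h.2⟩ else 1)
  refine ⟨h₀, ?_, ?_⟩
  · let s : FreeGroup (Fin m₀) →* Fr := FreeGroup.lift (fun k : Fin m₀ => gx 0 k)
    have h1 : (S.p'.comp h₀).comp s = S.aG.comp u := by
      apply FreeGroup.ext_hom
      intro k
      show S.p' (h₀ (s (FreeGroup.of k))) = S.aG (u (FreeGroup.of k))
      rw [← hd k]
      congr 1
      show FreeGroup.lift _ (FreeGroup.lift _ (FreeGroup.of k)) = d k
      rw [FreeGroup.lift_apply_of, gx, FreeGroup.lift_apply_of]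
      have h2 : (Nat.pair 0 (k : ℕ)).unpair.1 = 0 ∧ (Nat.pair 0 (k : ℕ)).unpair.2 < m₀ := by
        rw [Nat.unpair_pair]
        exact ⟨rfl, k.2⟩
      rw [dif_pos h2]
      congr 1
      apply Fin.ext
      show (Nat.pair 0 (k : ℕ)).unpair.2 = k
      rw [Nat.unpair_pair]
    intro y
    obtain ⟨g, hg⟩ := S.haG y
    obtain ⟨w, hw⟩ := hu g
    refine ⟨s w, ?_⟩
    have h3 := DFunLike.congr_fun h1 w
    have h4 : (S.p'.comp h₀) (s w) = S.aG (u w) := h3
    rw [h4, hw, hg]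
  · intro i hi
    show FreeGroup.lift _ (FreeGroup.of i) = 1
    rw [FreeGroup.lift_apply_of, dif_neg hi]

end Pool.Agent.Lib.H65G
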