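import Pool.Agent.Lib.H65G.B1
import Pool.Agent.Lib.H65G.B2a
import Pool.Agent.Lib.H65G.B2b

/-! Chunk B2c: Theorem B. -/

set_option autoImplicit false

namespace Pool.Agent.Lib.H65G

open Subgroup Pool.Agent.H69 Pool.Agent.Lib.H65F

variable {F : Formation} (S : BSys F)

/-- Theorem B for a `BSys`.
PROOF. `h₀` from `exists_bdat`, `Λ`, `c` from `exists_measure (Subgroup S.D') d {0}` with `d := Nat.log 2 (Nat.card S.Y)`,
`Λ.card ≤ (d + 1) ^ 2`; `W` from `exists_window m₀ Λ (Nat.card S.Y)`, `W.card ≤ m₀ + Λ.card * d ≤ n`.  For `i ∉ W`: `of i ∈ RB ≤ tker`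
(`RB_win`, `RB_le_tker`).  `u` from `exists_gens`.  `v := lf S.aG S.haG (S.p'.comp h₀)`.
* For `β ∈ tests` the homomorphism `(lf S.a₀ S.ha₀ β).comp u` is onto `G₀`: for `x : G₀` there is `ρ ∈ commutator Fr` with
  `lf β ρ = x` (`lift_surj_commutator S.a₀ S.k₀ S.pG₀`, `β` onto), and `ρ` can be replaced by some `u x'`.  So
  `relKer n G₀ ≤ ker` (`iInf_le`).
* If `x ∈ relKer n G₀` then `lf β (u x) = 1` for all tests, `u x ∈ commutator Fr`, so `v (u x) = 1` by `claimB`.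
* `v.comp u` is onto `G`: for `y : G` there is `ρ ∈ commutator Fr` with `v ρ = y` (`lift_surj_commutator S.aG S.kG S.pG`,
  `hb.surj`), choose `x` with `lf β (u x) = lf β ρ` for all tests; `claimB` for `(u x)⁻¹ * ρ` gives `v (u x) = v ρ`.
* `QuotientGroup.lift (relKer n G₀) (v.comp u)`. -/
theorem thmB_sys {m₀ n : ℕ} (h : GenBy m₀ S.G)
    (hn : m₀ + (Nat.log 2 (Nat.card S.Y) + 1) ^ 2 * Nat.log 2 (Nat.card S.Y) ≤ n) :
    ∃ f : RelFree n S.G₀ →* S.G, Function.Surjective f := by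
  obtain ⟨h₀, hb⟩ := exists_bdat S h
  obtain ⟨Λ, c, hΛ, hc⟩ := exists_measure (Subgroup S.D') (Nat.log 2 (Nat.card S.Y)) {0}
  obtain ⟨W, hW1, hW2⟩ := exists_window m₀ Λ (Nat.card S.Y)
  have hWn : W.card ≤ n := by
    refine hW2.trans (le_trans ?_ hn)
    exact Nat.add_le_add_left (Nat.mul_le_mul_right _ hΛ) _
  have hWt : ∀ i, i ∉ W → FreeGroup.of i ∈ tker S m₀ Λ := by
    intro i hi
    exact RB_le_tker S m₀ Λ (RB_win fun hw => hi (hW1 i hw))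
  obtain ⟨u, hu1, hu2⟩ := exists_gens S W hWn hWt
  let v : Fr →* S.G := lf S.aG S.haG (S.p'.comp h₀)
  have hv : ∀ f, S.aG (v f) = S.p' (h₀ f) := fun f => lf_spec S.aG S.haG (S.p'.comp h₀) f
  have hkill : ∀ x ∈ relKer n S.G₀, (v.comp u) x = 1 := by
    intro x hx
    refine claimB hb hc (hu1 x) (fun β hβ => ?_) v hv
    have hsurj : Function.Surjective ((lf S.a₀ S.ha₀ β).comp u) := by
      intro y
      obtain ⟨ρ, hρ, hρy⟩ := lift_surj_commutator S.a₀ S.k₀ S.pG₀ (lf S.a₀ S.ha₀ β) (fun b => by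
        obtain ⟨f, hf⟩ := hβ.1 b
        exact ⟨f, by rw [lf_spec, hf]⟩) y
      obtain ⟨x', hx'⟩ := hu2 ρ hρ
      exact ⟨x', by rw [MonoidHom.comp_apply, hx' β hβ, hρy]⟩
    have hle : relKer n S.G₀ ≤ ((lf S.a₀ S.ha₀ β).comp u).ker :=
      iInf_le (fun φ : {φ : FreeGroup (Fin n) →* S.G₀ // Function.Surjective φ} => φ.1.ker)
        ⟨(lf S.a₀ S.ha₀ β).comp u, hsurj⟩
    exact hle hx
  have hsurj : Function.Surjective (v.comp u) := by
    intro y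
    obtain ⟨ρ, hρ, hρy⟩ := lift_surj_commutator S.aG S.kG S.pG v (fun b => by
      obtain ⟨f, hf⟩ := hb.surj b
      exact ⟨f, by rw [hv]; exact hf⟩) y
    obtain ⟨x, hx⟩ := hu2 ρ hρ
    refine ⟨x, ?_⟩
    have h1 : v ((u x)⁻¹ * ρ) = 1 := by
      refine claimB hb hc (mul_mem (inv_mem (hu1 x)) hρ) (fun β hβ => ?_) v hv
      rw [map_mul, map_inv, hx β hβ, inv_mul_cancel]
    rw [map_mul, map_inv, inv_mul_eq_one] at h1
    rw [MonoidHom.comp_apply, h1, hρy]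
  refine ⟨QuotientGroup.lift (relKer n S.G₀) (v.comp u) hkill, ?_⟩
  intro y
  obtain ⟨x, hx⟩ := hsurj y
  exact ⟨QuotientGroup.mk x, hx⟩

end Pool.Agent.Lib.H65G
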