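import Pool.Agent.Lib.H65G.D0

/-! Chunk G2: the number of nodes. -/

set_option autoImplicit false

namespace Pool.Agent.Lib.H65G

open Subgroup Pool.Agent.H69 Pool.Agent.Lib.H65F

/-- PROOF. Induction on `V.card` (strong, or `Finset.strongInduction`).  `V = ∅`: the infimum is `⊤`, index `1`.  Otherwise
let `N₀` be a minimal element of `V` (`Finset.exists_minimal`), `V' := V.erase N₀`, `K' := ⨅ N ∈ V', N`,
`K := ⨅ N ∈ V, N = N₀ ⊓ K'` (`Finset.insert_erase`, `Finset.iInf_insert`).  If `K' ≤ N₀` then by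
`IsNode.prime_finset` some `N ∈ V'` has `N ≤ N₀`; minimality gives `N = N₀`, contradiction to `N ∈ V.erase N₀`.
So `K < K'` and `K.index = K.relIndex K' * K'.index ≥ 2 * K'.index` (`relIndex_mul_index`; `relIndex` is not `0`
because `K.index ≠ 0` (finite index: `Finite Γ`), not `1` because `¬ K' ≤ K`). -/
theorem two_pow_card_le {Γ : Type} [Group Γ] [Finite Γ] (V : Finset (Subgroup Γ))
    (hV : ∀ N ∈ V, IsNode N) : 2 ^ V.card ≤ (⨅ N ∈ V, N : Subgroup Γ).index := by
  classical
  obtain ⟨n, hn⟩ : ∃ n, V.card = n := ⟨_, rfl⟩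
  induction n generalizing V with
  | zero =>
    rw [Finset.card_eq_zero] at hn
    subst hn
    simp
  | succ n ih =>
    have hne : V.Nonempty := Finset.card_pos.1 (by omega)
    obtain ⟨N₀, hN₀⟩ := V.exists_minimal hne
    have hmem : N₀ ∈ V := hN₀.1
    have hcard : (V.erase N₀).card = n := by
      rw [Finset.card_erase_of_mem hmem, hn]
      rfl
    have ih' := ih (V.erase N₀) (fun N hN => hV N (Finset.mem_of_mem_erase hN)) hcard
    have hK : (⨅ N ∈ V, N : Subgroup Γ) = N₀ ⊓ ⨅ N ∈ V.erase N₀, N := by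
      conv_lhs => rw [← Finset.insert_erase hmem]
      rw [Finset.iInf_insert]
    set K' : Subgroup Γ := ⨅ N ∈ V.erase N₀, N with hK'
    have hnot : ¬ K' ≤ N₀ := by
      intro hle
      obtain ⟨N, hN, hN2⟩ := (hV N₀ hmem).prime_finset (V.erase N₀) (fun N => N)
        (fun N hN => (hV N (Finset.mem_of_mem_erase hN)).normal) hle
      have h1 : N₀ ≤ N := hN₀.2 (Finset.mem_of_mem_erase hN) hN2
      exact (Finset.ne_of_mem_erase hN) (le_antisymm hN2 h1)
    rw [hK, hn]
    have hle : N₀ ⊓ K' ≤ K' := inf_le_right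
    have h1 := relIndex_mul_index hle
    have h2 : (N₀ ⊓ K').index ≠ 0 := Subgroup.FiniteIndex.index_ne_zero
    have h3 : (N₀ ⊓ K').relIndex K' ≠ 0 := by
      intro h
      rw [h, zero_mul] at h1
      exact h2 h1.symm
    have h4 : (N₀ ⊓ K').relIndex K' ≠ 1 := by
      intro h
      rw [relIndex_eq_one] at h
      exact hnot (h.trans inf_le_left)
    rw [hcard] at ih'
    rw [← h1, pow_succ']
    exact Nat.mul_le_mul (by omega) ih'

/-- PROOF. `f.ker ≤ ⨅ N ∈ V, N`, so its index is at most (divides) `f.ker.index = |X₁|`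
(`Subgroup.index_ker`, `f` surjective; `Subgroup.index_dvd_of_le`).  `two_pow_card_le` and
`Nat.le_log_of_pow_le` (or `Nat.pow_le_iff_le_log`). -/
theorem card_unodes_log {X X₁ : Type} [Group X] [Finite X] [Group X₁] [Finite X₁] (f : X →* X₁)
    (hf : Function.Surjective f) (V : Finset (Subgroup X)) (hV : ∀ M ∈ V, UNode M ∧ f.ker ≤ M) :
    V.card ≤ Nat.log 2 (Nat.card X₁) := by
  have h1 := two_pow_card_le V fun N hN => (hV N hN).1.isNode
  have h2 : f.ker ≤ ⨅ N ∈ V, N := le_iInf₂ fun N hN => (hV N hN).2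
  have h3 : f.ker.index = Nat.card X₁ := by
    rw [index_ker, MonoidHom.range_eq_top.2 hf, Subgroup.card_top]
  have h4 : (⨅ N ∈ V, N : Subgroup X).index ∣ f.ker.index := index_dvd_of_le h2
  rw [h3] at h4
  have h5 : (⨅ N ∈ V, N : Subgroup X).index ≤ Nat.card X₁ := Nat.le_of_dvd Nat.card_pos h4
  exact Nat.le_log_of_pow_le one_lt_two (h1.trans h5)

end Pool.Agent.Lib.H65G
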