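import Pool.Agent.Lib.H65G.L5

/-! Chunk L6: locality of `hh A h₀ g`. -/

set_option autoImplicit false

namespace Pool.Agent.Lib.H65G

open Subgroup Pool.Agent.H69 Pool.Agent.Lib.H65F

variable {X X₁ : Type} [Group X] [Finite X] [Group X₁]

theorem hh_local (hX : Sep X) (hX₁ : Sep X₁) (A : Subgroup X) (h₀ : Fr →* X) (f : X →* X₁)
    (hf : Function.Surjective f)
    {g g' : Subgroup X → ℕ} (h : ∀ M : Subgroup X, UNode M → f.ker ≤ M → g M = g' M) (x : Fr) :
    f (hh A h₀ g x) = f (hh A h₀ g' x) := by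
  have key : (f (hh A h₀ g x))⁻¹ * f (hh A h₀ g' x) = 1 := by
    refine hX₁ _ fun N hN => ?_
    have hr : f.range ⊔ N = ⊤ := by
      rw [MonoidHom.range_eq_top.2 hf]
      exact top_sup_eq N
    have hC : UNode (N.comap f) := (unode_comap_iff hN.normal f hr).2 hN
    have hk : f.ker ≤ N.comap f := by
      intro a ha
      rw [mem_comap, (MonoidHom.mem_ker).1 ha]
      exact one_mem N
    have hs' : hs A h₀ g (N.comap f) = hs A h₀ g' (N.comap f) :=
      hs_congr A h₀ g g' hC fun M hM hle => h M hM (hk.trans hle)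
    have h1 := hh_spec hX A h₀ g hC x
    have h2 := hh_spec hX A h₀ g' hC x
    rw [← hs'] at h2
    have h3 : (hh A h₀ g x)⁻¹ * hh A h₀ g' x ∈ N.comap f := by
      have e : (hh A h₀ g x)⁻¹ * hh A h₀ g' x =
          ((hh A h₀ g x)⁻¹ * Pool.Agent.Lib.H65G.hs A h₀ g (N.comap f) x) *
          ((hh A h₀ g' x)⁻¹ * Pool.Agent.Lib.H65G.hs A h₀ g (N.comap f) x)⁻¹ := by group
      rw [e]
      exact mul_mem h1 (inv_mem h2)
    rw [mem_comap, map_mul, map_inv] at h3
    exact h3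
  exact inv_mul_eq_one.1 key

theorem comap_comp_hh (hX : Sep X) (A : Subgroup X) (h₀ : Fr →* X) (f : X →* X₁)
    (hf : Function.Surjective f)
    (g : Subgroup X → ℕ) {N : Subgroup X₁} (hN : UNode N) :
    UNode (N.comap f) ∧ f.ker ≤ N.comap f ∧
      N.comap (f.comp (hh A h₀ g)) = (N.comap f).comap (hs A h₀ g (N.comap f)) := by
  have hr : f.range ⊔ N = ⊤ := by
    rw [MonoidHom.range_eq_top.2 hf]
    exact top_sup_eq N
  have hC : UNode (N.comap f) := (unode_comap_iff hN.normal f hr).2 hN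
  refine ⟨hC, ?_, ?_⟩
  · intro a ha
    rw [mem_comap, (MonoidHom.mem_ker).1 ha]
    exact one_mem N
  · rw [← comap_comap]
    exact comap_hh_eq hX A h₀ g hC

/-- If `f (h x)` lies in all `UNode`s of `X₁` it is `1`. -/
theorem ker_comp (hX₁ : Sep X₁) (f : X →* X₁) (u : Fr →* X) {K : Subgroup Fr}
    (h : ∀ N : Subgroup X₁, UNode N → K ≤ N.comap (f.comp u)) :
    K ≤ (f.comp u).ker := by
  intro a ha
  rw [MonoidHom.mem_ker]
  exact hX₁ _ fun N hN => h N hN ha

/-- The composition with a quotient of `X ⧸ A` is the prescribed one. -/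
theorem comp_hh_base (hX : Sep X) (hX₁ : Sep X₁) {A : Subgroup X} (h₀ : Fr →* X) (f : X →* X₁)
    (hf : Function.Surjective f) (hA : A ≤ f.ker) (g : Subgroup X → ℕ) (x : Fr) :
    f (hh A h₀ g x) = f (h₀ x) := by
  have key : (f (hh A h₀ g x))⁻¹ * f (h₀ x) = 1 := by
    refine hX₁ _ fun N hN => ?_
    obtain ⟨hC, hk, -⟩ := comap_comp_hh hX A h₀ f hf g hN
    have h1 := hh_spec hX A h₀ g hC x
    rw [hs_base A h₀ g (hA.trans hk), mem_comap, map_mul, map_inv] at h1
    exact h1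
  exact inv_mul_eq_one.1 key

end Pool.Agent.Lib.H65G
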