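import Pool.Agent.Lib.H65G.L2
import Pool.Agent.Lib.H65G.L6

/-! Chunk L7: the kernels lie in the set `KS`. -/

set_option autoImplicit false

namespace Pool.Agent.Lib.H65G

open Subgroup Pool.Agent.H69 Pool.Agent.Lib.H65F

variable {X Y : Type} [Group X] [Finite X] [Group Y] [Finite Y] {A : Subgroup X} {h₀ : Fr →* X}

/-- The prescribed part uses only the generators `0, .., m₀ - 1` of block `0`. -/
def Kill {X : Type} [Group X] (h₀ : Fr →* X) (m₀ : ℕ) : Prop :=
  ∀ i : ℕ, ¬ (i.unpair.1 = 0 ∧ i.unpair.2 < m₀) → h₀ (FreeGroup.of i) = 1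

theorem kill_one (m₀ : ℕ) : Kill (1 : Fr →* X) m₀ := fun _ _ => rfl

/-- Transfer of surjectivity. -/
theorem l7_range {X Y T : Type} [Group X] [Group Y] [Group T] (u : X →* T) (v : Y →* T)
    (hu : Function.Surjective u) (φ : Fr →* X) (β : Fr →* Y)
    (hβ : ∀ f, v (β f) = u (φ f)) (U : Subgroup T) (hU : U.Normal)
    (hφ : φ.range ⊔ U.comap u = ⊤) : β.range ⊔ U.comap v = ⊤ := by
  rw [eq_top_iff]
  intro t _
  obtain ⟨x, hx⟩ := hu (v t)
  have hx' : x ∈ φ.range ⊔ U.comap u := hφ ▸ mem_top x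
  have h1 : (U.comap u).Normal := hU.comap u
  have h2 : (U.comap v).Normal := hU.comap v
  obtain ⟨a, ⟨f, rfl⟩, c, hc, hac⟩ := Subgroup.mem_sup_of_normal_right.1 hx'
  refine Subgroup.mem_sup_of_normal_right.2 ⟨β f, ⟨f, rfl⟩, (β f)⁻¹ * t, ?_, by group⟩
  rw [mem_comap, map_mul, map_inv, hβ, ← hx, ← hac, map_mul, inv_mul_cancel_left]
  exact hc

/-- The kernels of the `hs A h₀ g C` are in `KS`. -/
theorem hs_mem_KS (hlab : Lab X Y) (hd : Dat A h₀) {m₀ : ℕ} (hk : Kill h₀ m₀) (Λ : Finset ℕ)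
    {g : Subgroup X → ℕ} (hgood : GoodL h₀ g) {C : Subgroup X}
    (hC : UNode C) (hg : ∀ M : Subgroup X, UNode M → C ≤ M → g M ∈ Λ) :
    KS Y m₀ Λ (C.comap (hs A h₀ g C)) := by
  induction C using (wellFounded_gt (α := Subgroup X)).induction with
  | _ C ih =>
  obtain ⟨N, hN, T, iT, u, v, hu, hv, rfl, rfl⟩ := hlab C hC
  have hlt : u.ker < up u.ker := hC.isNode.lt_up
  have hker : ∀ w : X →* T, w.ker = (⊥ : Subgroup T).comap w := fun w => (MonoidHom.comap_bot w).symm
  by_cases hA : A ≤ u.ker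
  · rw [hs_base A h₀ g hA]
    obtain ⟨β, hβ⟩ := exists_transfer_hom u v hv h₀
    have hc : v.ker.comap β = u.ker.comap h₀ := by
      ext f
      rw [mem_comap, mem_comap, MonoidHom.mem_ker, MonoidHom.mem_ker, hβ]
    have hr : h₀.range ⊔ u.ker = ⊤ := by
      rw [eq_top_iff, ← hd.surj]
      exact sup_le_sup_left hA _
    rw [← hc]
    refine KS.base v.ker β hN ?_ ?_
    · rw [← MonoidHom.comap_bot v]
      rw [← MonoidHom.comap_bot u] at hr
      exact l7_range u v hu h₀ β hβ ⊥ inferInstance hr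
    · intro i hi
      rw [hc, mem_comap, hk i hi]
      exact one_mem _
  · obtain ⟨h1, h2, -⟩ := hs_spec_blk hd hgood hC
    obtain ⟨-, h3, -⟩ := h2 hA
    obtain ⟨β, hβ⟩ := exists_transfer_hom u v hv (hs A h₀ g (up u.ker))
    have hL : LS u.ker (hs A h₀ g (up u.ker)) (g u.ker) = LS v.ker β (g u.ker) := by
      refine LS_transfer u v hu hv _ β ?_ _
      intro f
      rw [hβ, inv_mul_cancel]
      exact one_mem _
    have hcom : (up v.ker).comap β = (up u.ker).comap (hs A h₀ g (up u.ker)) := by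
      have e1 := up_ker u hu
      have e2 := up_ker v hv
      ext f
      rw [mem_comap, mem_comap]
      generalize hs A h₀ g (up u.ker) = φ at hβ ⊢
      rw [e1, e2, mem_comap, mem_comap, hβ]
    have hrange := hs_up_surj hd hgood hC
    rw [h3, hL]
    refine KS.step v.ker β (g u.ker) hN ?_ ?_ (hg _ hC le_rfl)
    · have e1 := up_ker u hu
      have e2 := up_ker v hv
      rw [e2]
      generalize hs A h₀ g (up u.ker) = φ at hβ hrange ⊢
      rw [e1] at hrange
      exact l7_range u v hu φ β hβ _ (up_normal _) hrange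
    · rw [hcom]
      by_cases ht : up u.ker = ⊤
      · rw [ht, comap_top]
        exact KS.top
      · exact ih (up u.ker) hlt (hC.up_unode ht) fun M hM hle => hg M hM (hlt.le.trans hle)

theorem RB_le_ker {X₁ : Type} [Group X₁] (hX : Sep X) (hX₁ : Sep X₁) (hlab : Lab X Y)
    (hd : Dat A h₀) {m₀ : ℕ} (hk : Kill h₀ m₀)
    (f : X →* X₁) (hf : Function.Surjective f) (Λ : Finset ℕ) {g : Subgroup X → ℕ}
    (hgood : GoodL h₀ g)
    (hg : ∀ M : Subgroup X, UNode M → f.ker ≤ M → g M ∈ Λ) :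
    RB Y m₀ Λ ≤ (f.comp (hh A h₀ g)).ker := by
  refine ker_comp hX₁ f (hh A h₀ g) ?_
  intro N hN
  obtain ⟨hC, hk', he⟩ := comap_comp_hh hX A h₀ f hf g hN
  rw [he]
  exact sInf_le (hs_mem_KS hlab hd hk Λ hgood hC fun M hM hle => hg M hM (hk'.trans hle))

end Pool.Agent.Lib.H65G
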