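import Pool.Agent.Lib.H65G.K1
import Pool.Agent.Lib.H65G.G2
import Pool.Agent.Lib.H65G.L7
import Pool.Agent.Lib.H65F.C1
import Pool.Agent.Lib.H65F.C1b
import Pool.Agent.Lib.H65F.C2
import Pool.Agent.Lib.H65F.C3

/-! Chunk C3: first consequences of a `BSys`. -/

set_option autoImplicit false

namespace Pool.Agent.Lib.H65G

open Subgroup Pool.Agent.H69 Pool.Agent.Lib.H65F

variable {F : Formation} (S : BSys F) {A : Subgroup S.D'} {h₀ : Fr →* S.D'}

open Classical in
/-- The `UNode`s of `D'` above the kernel of `p'`, as a finite set. -/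
noncomputable def sigP : Finset (Subgroup S.D') :=
  letI := Fintype.ofFinite (Subgroup S.D')
  Finset.univ.filter fun M => UNode M ∧ S.p'.ker ≤ M

open Classical in
/-- The `UNode`s of `D'` above the kernel of `π' i`, as a finite set. -/
noncomputable def sigI (i : S.I) : Finset (Subgroup S.D') :=
  letI := Fintype.ofFinite (Subgroup S.D')
  Finset.univ.filter fun M => UNode M ∧ (S.π' i).ker ≤ M

theorem mem_sigP (M : Subgroup S.D') : M ∈ sigP S ↔ UNode M ∧ S.p'.ker ≤ M := by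
  simp [sigP]

theorem mem_sigI (i : S.I) (M : Subgroup S.D') : M ∈ sigI S i ↔ UNode M ∧ (S.π' i).ker ≤ M := by
  simp [sigI]

theorem sigI_card (i : S.I) : (sigI S i).card ≤ Nat.log 2 (Nat.card S.Y) :=
  card_unodes_log (S.π' i) (S.hπ' i) (sigI S i) fun M hM => (mem_sigI S i M).mp hM

theorem sys_surj (hd : Dat A h₀) {g : Subgroup S.D' → ℕ} (hg : GoodL h₀ g) :
    Function.Surjective (hh A h₀ g) := hh_surj S.sepD hd hg

theorem sys_local (A : Subgroup S.D') (h₀ : Fr →* S.D') (g g' : Subgroup S.D' → ℕ) :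
    (∀ i, (∀ M : Subgroup S.D', UNode M → (S.π' i).ker ≤ M → g M = g' M) →
      (S.π' i).comp (hh A h₀ g) = (S.π' i).comp (hh A h₀ g')) ∧
    ((∀ M : Subgroup S.D', UNode M → S.p'.ker ≤ M → g M = g' M) →
      S.p'.comp (hh A h₀ g) = S.p'.comp (hh A h₀ g')) :=
  ⟨fun i h => MonoidHom.ext fun x => hh_local S.sepD S.sepY A h₀ (S.π' i) (S.hπ' i) h x,
    fun h => MonoidHom.ext fun x => hh_local S.sepD S.sepG A h₀ S.p' S.hp' h x⟩

theorem sys_RB_le (hd : Dat A h₀) {m₀ : ℕ} (hk : Kill h₀ m₀) (i : S.I) (Λ : Finset ℕ)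
    {g : Subgroup S.D' → ℕ} (hgood : GoodL h₀ g)
    (hg : ∀ M : Subgroup S.D', UNode M → (S.π' i).ker ≤ M → g M ∈ Λ) :
    RB S.Y m₀ Λ ≤ ((S.π' i).comp (hh A h₀ g)).ker :=
  RB_le_ker S.sepD S.sepY S.lab hd hk (S.π' i) (S.hπ' i) Λ hgood hg

theorem depOn_comp (A : Subgroup S.D') (h₀ : Fr →* S.D') (i : S.I) :
    DepOn (fun g : Subgroup S.D' → ℕ => (S.π' i).comp (hh A h₀ g)) (sigI S i) := by
  intro g g' h
  exact (sys_local S A h₀ g g').1 i fun M hM hle => h M ((mem_sigI S i M).mpr ⟨hM, hle⟩)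

theorem goodQ_inf (hd : Dat A h₀) {R : Subgroup Fr} (hR : GoodQ F R)
    (s : Finset (Subgroup S.D' → ℕ)) (hs : ∀ g ∈ s, GoodL h₀ g) :
    GoodQ F (R ⊓ ⨅ g ∈ s, (hh A h₀ g : Fr →* S.D').ker) := by
  classical
  induction s using Finset.induction_on with
  | empty => simpa using hR
  | insert g s _ ih =>
    rw [Finset.iInf_insert, inf_left_comm, inf_comm]
    exact (ih fun g' hg' => hs g' (Finset.mem_insert_of_mem hg')).inf
      (goodQ_ker S.mD' S.zD' (hh A h₀ g) (sys_surj S hd (hs g (Finset.mem_insert_self g s))))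

/-- The same for the kernels of the homomorphisms to `G'`. -/
theorem goodQ_inf' (hd : Dat A h₀) {R : Subgroup Fr} (hR : GoodQ F R)
    (s : Finset (Subgroup S.D' → ℕ)) (hs : ∀ g ∈ s, GoodL h₀ g) :
    GoodQ F (R ⊓ ⨅ g ∈ s, (S.p'.comp (hh A h₀ g)).ker) := by
  classical
  induction s using Finset.induction_on with
  | empty => simpa using hR
  | insert g s _ ih =>
    rw [Finset.iInf_insert, inf_left_comm, inf_comm]
    exact (ih fun g' hg' => hs g' (Finset.mem_insert_of_mem hg')).inf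
      (goodQ_ker S.mG' S.zG' (S.p'.comp (hh A h₀ g))
        (S.hp'.comp (sys_surj S hd (hs g (Finset.mem_insert_self g s)))))

end Pool.Agent.Lib.H65G
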