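import Pool.Agent.Lib.H65F.D0
import Pool.Agent.Lib.H65F.S0
import Pool.Agent.Lib.H65F.L0
import Pool.Agent.Lib.H65F.L2
import Pool.Agent.Lib.H65F.N2
import Pool.Agent.Lib.H65F.N3
import Pool.Agent.Lib.H65F.N3b
import Pool.Agent.Lib.H65F.N4

/-!
Definitions for the project H65G (stronger form of MP_518fb6_al).  Paper proof: PROOF.md here
(and `../H65F/PROOF.md`).

The generators of `Fr = FreeGroup ℕ` are grouped in blocks: `x (z, j) = of (Nat.pair z j)` is the
`j`-th generator of block `z`.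
-/

set_option autoImplicit false

namespace Pool.Agent.Lib.H65G

open Subgroup Pool.Agent.H69 Pool.Agent.Lib.H65F

section Free

/-- The `j`-th generator of block `z`. -/
def gx (z j : ℕ) : Fr := FreeGroup.of (Nat.pair z j)

/-- The kernels (modulo `C`) of the lifts of `φ` with letter `z`: block `z` lies in the kernel of
`φ` (mod `up C`) but not in the new kernel `K`, all other generators in the old kernel are in `K`,
and the generators of block `z` of index at least `log₂` of the index of `K` are in `K`. -/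
def LS {X : Type} [Group X] (C : Subgroup X) (φ : Fr →* X) (z : ℕ) : Set (Subgroup Fr) :=
  {K | ∃ ψ : Fr →* X, IsLift C φ ψ ∧ C.comap ψ = K ∧
    (∀ j : ℕ, gx z j ∈ (up C).comap φ) ∧ (∃ j : ℕ, gx z j ∉ K) ∧
    (∀ i : ℕ, FreeGroup.of i ∈ (up C).comap φ → i.unpair.1 ≠ z → FreeGroup.of i ∈ K) ∧
    ∀ j : ℕ, Nat.log 2 K.index ≤ j → gx z j ∈ K}

open Classical in
/-- A chosen lift of `φ` with kernel `pick (LS C φ z)` modulo `C` (if there is one; else `φ`). -/
noncomputable def ex {X : Type} [Group X] (C : Subgroup X) (φ : Fr →* X) (z : ℕ) : Fr →* X :=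
  if h : ∃ ψ : Fr →* X, IsLift C φ ψ ∧ C.comap ψ = pick (LS C φ z) then h.choose else φ

theorem ex_spec {X : Type} [Group X] {C : Subgroup X} {φ : Fr →* X} {z : ℕ}
    (h : (LS C φ z).Nonempty) :
    IsLift C φ (ex C φ z) ∧ C.comap (ex C φ z) = pick (LS C φ z) := by
  obtain ⟨ψ, h1, h2, -⟩ := pick_mem h
  have hex : ∃ ψ : Fr →* X, IsLift C φ ψ ∧ C.comap ψ = pick (LS C φ z) := ⟨ψ, h1, h2⟩
  rw [ex, dif_pos hex]
  exact hex.choose_spec

theorem ex_ovr {X : Type} [Group X] (C : Subgroup X) (φ : Fr →* X) (z : ℕ) (f : Fr) :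
    (φ f)⁻¹ * ex C φ z f ∈ up C := by
  by_cases h : ∃ ψ : Fr →* X, IsLift C φ ψ ∧ C.comap ψ = pick (LS C φ z)
  · rw [ex, dif_pos h]
    exact h.choose_spec.1.ovr f
  · rw [ex, dif_neg h, inv_mul_cancel]
    exact one_mem _

open Classical in
/-- The homomorphisms modulo `C`, by recursion from the top: the prescribed homomorphism `h₀` for
`A ≤ C`; below, the chosen lift with the letter `g C`. -/
noncomputable def hs {X : Type} [Group X] [Finite X] (A : Subgroup X) (h₀ : Fr →* X)
    (g : Subgroup X → ℕ) : Subgroup X → (Fr →* X) :=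
  (wellFounded_gt (α := Subgroup X)).fix fun C rec =>
    if A ≤ C then h₀ else if h : C < up C then ex C (rec (up C) h) (g C) else 1

theorem hs_base {X : Type} [Group X] [Finite X] (A : Subgroup X) (h₀ : Fr →* X)
    (g : Subgroup X → ℕ) {C : Subgroup X} (h : A ≤ C) : hs A h₀ g C = h₀ := by
  rw [hs, WellFounded.fix_eq, if_pos h]

theorem hs_eq {X : Type} [Group X] [Finite X] (A : Subgroup X) (h₀ : Fr →* X)
    (g : Subgroup X → ℕ) {C : Subgroup X} (hA : ¬ A ≤ C) (h : C < up C) :
    hs A h₀ g C = ex C (hs A h₀ g (up C)) (g C) := by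
  rw [hs, WellFounded.fix_eq, if_neg hA, dif_pos h]

open Classical in
/-- The homomorphism `Fr → X` which agrees with `hs A h₀ g C` modulo every `UNode` `C`. -/
noncomputable def hh {X : Type} [Group X] [Finite X] (A : Subgroup X) (h₀ : Fr →* X)
    (g : Subgroup X → ℕ) : Fr →* X :=
  if h : ∃ u : Fr →* X, ∀ C : Subgroup X, UNode C → ∀ f : Fr, (u f)⁻¹ * hs A h₀ g C f ∈ C
  then h.choose else 1

/-- The prescribed part: `A` is normal and `h₀` is onto modulo `A`. -/
structure Dat {X : Type} [Group X] (A : Subgroup X) (h₀ : Fr →* X) : Prop where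
  normal : A.Normal
  surj : h₀.range ⊔ A = ⊤

/-- Good letter functions: injective, and `h₀` kills all blocks which are used. -/
structure GoodL {X : Type} [Group X] (h₀ : Fr →* X) (g : Subgroup X → ℕ) : Prop where
  inj : Function.Injective g
  blk : ∀ (C : Subgroup X) (j : ℕ), h₀ (gx (g C) j) = 1

theorem goodL_one {X : Type} [Group X] {g : Subgroup X → ℕ} (h : Function.Injective g) :
    GoodL (1 : Fr →* X) g := ⟨h, fun _ _ => rfl⟩

theorem dat_one {X : Type} [Group X] : Dat (⊤ : Subgroup X) (1 : Fr →* X) :=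
  ⟨inferInstance, sup_top_eq _⟩

/-- The kernels which occur: quotients of `Y`, letters in `Λ`, and `m₀` generators of block `0` in
the prescribed part. -/
inductive KS (Y : Type) [Group Y] (m₀ : ℕ) (Λ : Finset ℕ) : Subgroup Fr → Prop
  | top : KS Y m₀ Λ ⊤
  | base (N : Subgroup Y) (β : Fr →* Y) : UNode N → β.range ⊔ N = ⊤ →
      (∀ i : ℕ, ¬ (i.unpair.1 = 0 ∧ i.unpair.2 < m₀) → FreeGroup.of i ∈ N.comap β) →
      KS Y m₀ Λ (N.comap β)
  | step (N : Subgroup Y) (β : Fr →* Y) (z : ℕ) : UNode N → β.range ⊔ up N = ⊤ →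
      KS Y m₀ Λ ((up N).comap β) → z ∈ Λ → KS Y m₀ Λ (pick (LS N β z))

/-- The intersection of all these kernels. -/
def RB (Y : Type) [Group Y] (m₀ : ℕ) (Λ : Finset ℕ) : Subgroup Fr :=
  sInf {K | KS Y m₀ Λ K}

/-- The window: the only generators that are not in `RB` for `|Y| = y`. -/
def Win (m₀ : ℕ) (Λ : Finset ℕ) (y i : ℕ) : Prop :=
  (i.unpair.1 = 0 ∧ i.unpair.2 < m₀) ∨ (i.unpair.1 ∈ Λ ∧ i.unpair.2 < Nat.log 2 y)

/-- `Q` is generated by `m` elements. -/
def GenBy (m : ℕ) (Q : Type) [Group Q] : Prop :=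
  ∃ f : FreeGroup (Fin m) →* Q, Function.Surjective f

/-- The intersection of the kernels of all epimorphisms from the free group of rank `n` to `G`. -/
def relKer (n : ℕ) (G : Type) [Group G] : Subgroup (FreeGroup (Fin n)) :=
  ⨅ φ : {φ : FreeGroup (Fin n) →* G // Function.Surjective φ}, φ.1.ker

instance relKer_normal (n : ℕ) (G : Type) [Group G] : (relKer n G).Normal :=
  Subgroup.normal_iInf_normal fun _ => inferInstance

/-- The relatively free group of rank `n` of `G`: the free group of rank `n` modulo the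
intersection of the kernels of all its epimorphisms to `G`. -/
abbrev RelFree (n : ℕ) (G : Type) [Group G] : Type := FreeGroup (Fin n) ⧸ relKer n G

/-- The rank used in the test: `2 (1 + ⌊log₂ g⌋) ^ 3`. -/
def rk (g : ℕ) : ℕ := 2 * (1 + Nat.log 2 g) ^ 3

end Free

end Pool.Agent.Lib.H65G
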