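import Pool.Agent.Lib.H65F.K0
import Pool.Agent.Lib.H65F.D0

/-!
Example: `SL(2, 5)`.  A finite perfect group `K` with a central involution `z` which is the only
involution of `K`, such that `z` is a square and all proper normal subgroups lie in `{1, z}`.
-/

set_option autoImplicit false

namespace Pool.Agent.Lib.H65G

open Subgroup Pool.Agent.H69 Pool.Agent.Lib.H65F

/-- The properties of `K = SL(2, 5)`, `z = -1` which are used. -/
structure Dbl (K : Type) [Group K] (z : K) : Prop where
  perf : _root_.commutator K = ⊤
  ne : z ≠ 1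
  sq : z * z = 1
  cen : z ∈ center K
  nor : ∀ N : Subgroup K, N.Normal → N ≤ zpowers z ∨ N = ⊤
  inv : ∀ a : K, a * a = 1 → a = 1 ∨ a = z
  root : ∃ a : K, a * a = z

/-- The normal subgroup `{(1, 1), (z, z)}` of `K × K`. -/
def Zd {K : Type} [Group K] (z : K) : Subgroup (K × K) := zpowers (z, z)

end Pool.Agent.Lib.H65G
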