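import Pool.Agent.Lib.H65G.E1a

/-! Chunk E1b: one element which is an involution in all simple quotients. -/

set_option autoImplicit false

namespace Pool.Agent.Lib.H65G

open Subgroup Pool.Agent.H69 Pool.Agent.Lib.H65F

/-- PROOF. `V := Finset.univ.image (fun i => (f i).ker)` (`Fintype.ofFinite ι`, classical).  For `N ∈ V` there is `x N : Y` with
`x N ∉ N`, `x N * x N ∈ N`: `N = (f i).ker`, choose `x` with `f i x = s`; define `x : Subgroup Y → Y` by choice
(`if h : ∃ y, y ∉ N ∧ y * y ∈ N then h.choose else 1`).  `crt V` (H65F.N4; hypotheses: `unode_ker` first part; upward closed: second part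
of `unode_ker`; compatibility: `N ≤ M` in `V` implies `N = M` (`unode_ker` for `N`, `M ≠ ⊤`), and `(x N)⁻¹ * x N = 1`) gives `γ` with
`γ⁻¹ * x N ∈ N` for all `N ∈ V`.  For `i` let `N := (f i).ker`: `f i γ = f i (x N)`, so it is not `1` and its square is `1`. -/
theorem exists_common_involution {Y T : Type} [Group Y] [Group T]
    (hT : ∀ N : Subgroup T, N.Normal → N = ⊥ ∨ N = ⊤) (hna : ∃ a b : T, a * b ≠ b * a)
    {s : T} (hs : s ≠ 1) (hs2 : s * s = 1) {ι : Type} [Finite ι] (f : ι → Y →* T)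
    (hf : ∀ i, Function.Surjective (f i)) : ∃ γ : Y, ∀ i, f i γ ≠ 1 ∧ f i γ * f i γ = 1 := by
  classical
  letI : Fintype ι := Fintype.ofFinite ι
  let V : Finset (Subgroup Y) := Finset.univ.image (fun i => (f i).ker)
  have hV : ∀ N ∈ V, ∃ i, N = (f i).ker := by
    intro N hN
    obtain ⟨i, -, hi⟩ := Finset.mem_image.mp hN
    exact ⟨i, hi.symm⟩
  let x : Subgroup Y → Y := fun N => if h : ∃ y, y ∉ N ∧ y * y ∈ N then h.choose else 1
  have hx : ∀ N ∈ V, x N ∉ N ∧ x N * x N ∈ N := by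
    intro N hN
    obtain ⟨i, rfl⟩ := hV N hN
    have hex : ∃ y, y ∉ (f i).ker ∧ y * y ∈ (f i).ker := by
      obtain ⟨y, hy⟩ := hf i s
      refine ⟨y, ?_, ?_⟩
      · rw [MonoidHom.mem_ker, hy]
        exact hs
      · rw [MonoidHom.mem_ker, map_mul, hy]
        exact hs2
    have h1 : x (f i).ker = hex.choose := dif_pos hex
    rw [h1]
    exact hex.choose_spec
  obtain ⟨γ, hγ⟩ := crt V (fun N hN => by
      obtain ⟨i, rfl⟩ := hV N hN
      exact (unode_ker hT hna (f i) (hf i)).1)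
    (fun N hN M hM hNM hMt => by
      obtain ⟨i, rfl⟩ := hV N hN
      rcases (unode_ker hT hna (f i) (hf i)).2 M hM hNM with h | h
      · rw [h]
        exact hN
      · exact absurd h hMt) x
    (fun N hN M hM hNM => by
      obtain ⟨i, rfl⟩ := hV N hN
      obtain ⟨j, rfl⟩ := hV M hM
      rcases (unode_ker hT hna (f i) (hf i)).2 _ (f j).normal_ker hNM with h | h
      · rw [h]
        simp
      · exact absurd h (unode_ker hT hna (f j) (hf j)).1.ne_top)
  refine ⟨γ, fun i => ?_⟩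
  have hi : (f i).ker ∈ V := Finset.mem_image.mpr ⟨i, Finset.mem_univ i, rfl⟩
  have h1 := hγ _ hi
  obtain ⟨h2, h3⟩ := hx _ hi
  rw [MonoidHom.mem_ker] at h1 h2 h3
  rw [map_mul, map_inv, inv_mul_eq_one] at h1
  rw [map_mul] at h3
  rw [h1]
  exact ⟨h2, h3⟩

end Pool.Agent.Lib.H65G
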