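import Pool.Agent.Lib.H65G.E0
import Pool.Agent.Lib.H65F.N2
import Pool.Agent.Lib.H65F.N3
import Pool.Agent.Lib.H65F.N3b
import Pool.Agent.Lib.H65F.N4

/-! Chunk E1a: kernels of maps to simple groups. -/

set_option autoImplicit false

namespace Pool.Agent.Lib.H65G

open Subgroup Pool.Agent.H69 Pool.Agent.Lib.H65F
open scoped commutatorElement

/-- PROOF. `N := f.ker`.  A normal `M ≥ N`, `M ≠ ⊤`: `M.map f` is normal in `T`, so `⊥` or `⊤` (`hT`); `⊤` would give `M = ⊤`
(`comap_map_eq`, `N ≤ M`), so `M = N`.  So `up N = ⊤` (all normal `M > N` are `⊤`; `up_eq`/`sInf`) and `N < ⊤` (`T` nonabelian, so nontrivial);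
`¬ ⁅⊤, ⊤⁆ ≤ N` since `T` is not commutative (`f` onto; `commutator_mem_commutator`). -/
theorem unode_ker {Y T : Type} [Group Y] [Group T] (hT : ∀ N : Subgroup T, N.Normal → N = ⊥ ∨ N = ⊤)
    (hna : ∃ a b : T, a * b ≠ b * a) (f : Y →* T) (hf : Function.Surjective f) :
    UNode f.ker ∧ ∀ M : Subgroup Y, M.Normal → f.ker ≤ M → M = f.ker ∨ M = ⊤ := by
  have hdich : ∀ M : Subgroup Y, M.Normal → f.ker ≤ M → M = f.ker ∨ M = ⊤ := by
    intro M hM hle
    rcases hT (M.map f) (hM.map f hf) with h | h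
    · left
      exact le_antisymm ((Subgroup.map_eq_bot_iff M).mp h) hle
    · right
      have h1 : (M.map f).comap f = M := by
        rw [Subgroup.comap_map_eq, sup_eq_left.mpr hle]
      rw [← h1, h, Subgroup.comap_top]
  obtain ⟨a, b, hab⟩ := hna
  obtain ⟨y, rfl⟩ := hf a
  obtain ⟨y', rfl⟩ := hf b
  have hne : f.ker ≠ ⊤ := by
    intro h
    have h1 : y ∈ f.ker := h ▸ Subgroup.mem_top y
    rw [MonoidHom.mem_ker] at h1
    rw [h1] at hab
    simp at hab
  have hlt : f.ker < ⊤ := lt_top_iff_ne_top.mpr hne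
  have hup : up f.ker = ⊤ := by
    refine up_eq inferInstance hlt fun M' hM' hlt' => ?_
    rcases hdich M' hM' hlt'.le with h | h
    · exact absurd h hlt'.ne'
    · rw [h]
  have hnode : IsNode f.ker := by
    refine ⟨f.normal_ker, by rw [hup]; exact hlt, ?_⟩
    rw [hup]
    intro h
    have h1 : ⁅y, y'⁆ ∈ f.ker := h (Subgroup.commutator_mem_commutator (Subgroup.mem_top _) (Subgroup.mem_top _))
    rw [MonoidHom.mem_ker, map_commutatorElement, commutatorElement_eq_one_iff_mul_comm] at h1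
    exact hab h1
  refine ⟨⟨f.normal_ker, hne, fun M hM hle hMt => ?_⟩, hdich⟩
  rcases hdich M hM hle with h | h
  · rw [h]
    exact hnode
  · exact absurd h hMt

end Pool.Agent.Lib.H65G
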