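import Pool.Agent.Lib.H65G.E0

/-! Chunk E2a: the simple quotient. -/

set_option autoImplicit false

namespace Pool.Agent.Lib.H65G

open Subgroup Pool.Agent.H69 Pool.Agent.Lib.H65F
open scoped commutatorElement

variable {K : Type} [Group K] {z : K}

/-- PROOF. `zpowers z` is `{1, z}` since `z * z = 1` (`Subgroup.mem_zpowers_iff`; parity of the exponent). -/
theorem mem_zp (h : z * z = 1) (x : K) : x ∈ zpowers z ↔ x = 1 ∨ x = z := by
  constructor
  · rintro ⟨n, rfl⟩
    rcases Int.even_or_odd' n with ⟨k, rfl | rfl⟩
    · left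
      change z ^ (2 * k) = 1
      rw [zpow_mul, zpow_two, h, one_zpow]
    · right
      change z ^ (2 * k + 1) = z
      rw [zpow_add, zpow_mul, zpow_two, h, one_zpow, zpow_one, one_mul]
  · rintro (rfl | rfl)
    · exact one_mem _
    · exact mem_zpowers x

/-- PROOF. `zpowers z` is contained in the centre. -/
theorem zp_normal (h : z ∈ center K) : (zpowers z).Normal := by
  have hle : zpowers z ≤ center K := (zpowers_le).mpr h
  refine ⟨fun x hx g => ?_⟩
  have h1 := (mem_center_iff.mp (hle hx)) g
  rw [h1, mul_inv_cancel_right]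
  exact hx

/-- The simple quotient.
PROOF. `hn := zp_normal`.  First part: the comap of `N` is normal, so it is `≤ zpowers z` (then `N = ⊥`) or `⊤` (`Dbl.nor`).
Second: if the quotient were commutative, `commutator K ≤ zpowers z` (`Subgroup.Normal.quotient_commutative_iff_commutator_le` or by hand), so
`zpowers z = ⊤`, `K` is abelian, `commutator K = ⊥ ≠ ⊤` (`z ≠ 1`).  Third: `s := mk a` with `a * a = z` (`Dbl.root`); if `a ∈ zpowers z` then
`a * a = 1` (`mem_zp`, `sq`), contradiction. -/
theorem dbl_simple (h : Dbl K z) (hn : (zpowers z).Normal) :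
    (∀ N : Subgroup (K ⧸ zpowers z), N.Normal → N = ⊥ ∨ N = ⊤) ∧
    (∃ a b : K ⧸ zpowers z, a * b ≠ b * a) ∧
    ∃ s : K ⧸ zpowers z, s ≠ 1 ∧ s * s = 1 := by
  have hker : ∀ x : K, (QuotientGroup.mk' (zpowers z)) x = 1 ↔ x ∈ zpowers z := fun x =>
    QuotientGroup.eq_one_iff x
  refine ⟨fun N hN => ?_, ?_, ?_⟩
  · have hc : (N.comap (QuotientGroup.mk' (zpowers z))).Normal := hN.comap _
    have hmap : (N.comap (QuotientGroup.mk' (zpowers z))).map (QuotientGroup.mk' (zpowers z)) = N :=
      map_comap_eq_self_of_surjective (QuotientGroup.mk'_surjective _) N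
    rcases h.nor _ hc with h1 | h1
    · left
      rw [eq_bot_iff]
      intro x hx
      obtain ⟨y, rfl⟩ := QuotientGroup.mk'_surjective (zpowers z) x
      have h2 : y ∈ N.comap (QuotientGroup.mk' (zpowers z)) := hx
      rw [mem_bot]
      exact (hker y).mpr (h1 h2)
    · right
      rw [← hmap, h1]
      exact map_top_of_surjective _ (QuotientGroup.mk'_surjective _)
  · by_contra hcon
    push Not at hcon
    have hle : _root_.commutator K ≤ zpowers z := by
      rw [_root_.commutator_def, commutator_le]
      intro a _ b _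
      rw [← hker, map_commutatorElement, commutatorElement_eq_one_iff_mul_comm]
      exact hcon _ _
    have htop : ∀ x : K, x ∈ zpowers z := fun x => hle (h.perf ▸ mem_top x)
    have hab : ∀ a b : K, a * b = b * a := by
      intro a b
      rcases (mem_zp h.sq a).mp (htop a) with rfl | rfl
      · simp
      · rcases (mem_zp h.sq b).mp (htop b) with rfl | rfl
        · simp
        · rfl
    have hbot : _root_.commutator K ≤ ⊥ := by
      rw [_root_.commutator_def, commutator_le]
      intro a _ b _
      rw [mem_bot, commutatorElement_eq_one_iff_mul_comm]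
      exact hab a b
    have hz : z ∈ (⊥ : Subgroup K) := hbot (h.perf ▸ mem_top z)
    exact h.ne (mem_bot.mp hz)
  · obtain ⟨a, ha⟩ := h.root
    refine ⟨QuotientGroup.mk' (zpowers z) a, fun h1 => ?_, ?_⟩
    · rw [hker, mem_zp h.sq] at h1
      rcases h1 with rfl | rfl
      · exact h.ne (by rw [← ha, one_mul])
      · exact h.ne (ha.symm.trans h.sq)
    · rw [← map_mul, ha]
      exact (hker z).mpr (mem_zpowers z)

end Pool.Agent.Lib.H65G
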