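import Pool.Agent.Lib.H65G.E1
import Pool.Agent.Lib.H65G.E2a
import Pool.Agent.Lib.H65F.R2

/-! Chunk E2b: `K` is not in the formation of the central product. -/

set_option autoImplicit false

namespace Pool.Agent.Lib.H65G

open Subgroup Pool.Agent.H69 Pool.Agent.Lib.H65F

variable {K : Type} [Group K] {z : K}

/-- PROOF. `qr_of_inForm` (H69) gives `Finite K`, a finite `ι`, a finite group `Y`, surjections `ψ i : Y →* G`, a surjection `θ : Y →* K` with `θ y = 1`
if `ψ i y = 1` for all `i`.  Put `T := K ⧸ zpowers z`, `q := mk'`.  `r` has kernel `Zd z`, so there are homomorphisms `q₁ q₂ : G →* T` with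
`q₁ (r (a, b)) = q a`, `q₂ (r (a, b)) = q b` (`MonoidHom.liftOfSurjective r hr` for `q.comp (fst)`, kernels: `(z, z)` maps to `1`), both onto.
`exists_common_involution` (`dbl_simple`) for the finite family `Sum ι ι ⊕ Unit`, namely `q₁.comp (ψ i)`, `q₂.comp (ψ i)`, `q.comp θ`, gives `γ`.
For each `i` write `ψ i γ = r (a, b)`: `q a ≠ 1`, `q a * q a = 1`, so `a ∉ zpowers z`, `a * a ∈ zpowers z`, `a * a ≠ 1` (`Dbl.inv`, `mem_zp`), so `a * a = z`; also
`b * b = z`.  So `ψ i (γ * γ) = r (z, z) = 1` for all `i`, `θ (γ * γ) = 1`.  But `t := θ γ` has `q t ≠ 1`, `q t * q t = 1`, so `t * t = z ≠ 1` in the same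
way.  Contradiction. -/
theorem not_inForm [Finite K] (h : Dbl K z) {G : Type} [Group G] (r : K × K →* G)
    (hr : Function.Surjective r) (hk : r.ker = Zd z) : ¬ InForm G K := by
  intro hform
  have hfG : Finite G := Finite.of_surjective r hr
  obtain ⟨-, ι, hι, Y, hY, -, ψ, θ, hψ, hθ, hrel⟩ := qr_of_inForm hform
  have hn := zp_normal h.cen
  obtain ⟨hsimp, hna, s, hs, hs2⟩ := dbl_simple h hn
  let q : K →* K ⧸ zpowers z := QuotientGroup.mk' (zpowers z)
  have hq : Function.Surjective q := QuotientGroup.mk'_surjective _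
  have hqk : ∀ x : K, q x = 1 ↔ x ∈ zpowers z := fun x => QuotientGroup.eq_one_iff x
  have hqz : q z = 1 := (hqk z).mpr (mem_zpowers z)
  have hk1 : r.ker ≤ (q.comp (MonoidHom.fst K K)).ker := by
    rw [hk, Zd, zpowers_le, MonoidHom.mem_ker]
    exact hqz
  have hk2 : r.ker ≤ (q.comp (MonoidHom.snd K K)).ker := by
    rw [hk, Zd, zpowers_le, MonoidHom.mem_ker]
    exact hqz
  let q₁ : G →* K ⧸ zpowers z := r.liftOfSurjective hr ⟨q.comp (MonoidHom.fst K K), hk1⟩
  let q₂ : G →* K ⧸ zpowers z := r.liftOfSurjective hr ⟨q.comp (MonoidHom.snd K K), hk2⟩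
  have hq₁ : ∀ a b, q₁ (r (a, b)) = q a := fun a b =>
    r.liftOfRightInverse_comp_apply _ (Function.rightInverse_surjInv hr)
      ⟨q.comp (MonoidHom.fst K K), hk1⟩ (a, b)
  have hq₂ : ∀ a b, q₂ (r (a, b)) = q b := fun a b =>
    r.liftOfRightInverse_comp_apply _ (Function.rightInverse_surjInv hr)
      ⟨q.comp (MonoidHom.snd K K), hk2⟩ (a, b)
  have hs₁ : Function.Surjective q₁ := fun t => by
    obtain ⟨a, rfl⟩ := hq t
    exact ⟨r (a, 1), hq₁ a 1⟩
  have hs₂ : Function.Surjective q₂ := fun t => by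
    obtain ⟨a, rfl⟩ := hq t
    exact ⟨r (1, a), hq₂ 1 a⟩
  obtain ⟨γ, hγ⟩ := exists_common_involution (Y := Y) hsimp hna hs hs2 (ι := (ι ⊕ ι) ⊕ Unit)
    (Sum.elim (Sum.elim (fun i => q₁.comp (ψ i)) (fun i => q₂.comp (ψ i))) (fun _ => q.comp θ))
    (by
      rintro ((i | i) | _)
      · exact hs₁.comp (hψ i)
      · exact hs₂.comp (hψ i)
      · exact hq.comp hθ)
  have key : ∀ a : K, q a ≠ 1 → q a * q a = 1 → a * a = z := by
    intro a h1 h2
    rw [← map_mul, hqk, mem_zp h.sq] at h2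
    rcases h2 with h2 | h2
    · exfalso
      apply h1
      rw [hqk, mem_zp h.sq]
      exact h.inv a h2
    · exact h2
  have hψγ : ∀ i, ψ i (γ * γ) = 1 := by
    intro i
    obtain ⟨⟨a, b⟩, hab⟩ := hr (ψ i γ)
    have h1 : q a ≠ 1 ∧ q a * q a = 1 := by
      have := hγ (Sum.inl (Sum.inl i))
      change q₁ (ψ i γ) ≠ 1 ∧ q₁ (ψ i γ) * q₁ (ψ i γ) = 1 at this
      rw [← hab, hq₁] at this
      exact this
    have h2 : q b ≠ 1 ∧ q b * q b = 1 := by
      have := hγ (Sum.inl (Sum.inr i))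
      change q₂ (ψ i γ) ≠ 1 ∧ q₂ (ψ i γ) * q₂ (ψ i γ) = 1 at this
      rw [← hab, hq₂] at this
      exact this
    have h3 : ((a, b) * (a, b) : K × K) ∈ r.ker := by
      rw [hk, Zd]
      have : ((a, b) * (a, b) : K × K) = (z, z) := by
        rw [Prod.mk_mul_mk, key a h1.1 h1.2, key b h2.1 h2.2]
      rw [this]
      exact mem_zpowers _
    rw [map_mul, ← hab, ← map_mul]
    exact (MonoidHom.mem_ker).mp h3
  have h4 := hrel (γ * γ) hψγ
  have h5 := hγ (Sum.inr ())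
  change q (θ γ) ≠ 1 ∧ q (θ γ) * q (θ γ) = 1 at h5
  have h6 := key (θ γ) h5.1 h5.2
  rw [map_mul, h6] at h4
  exact h.ne h4

end Pool.Agent.Lib.H65G
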