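import Pool.Agent.Lib.H65G.E2

/-! Chunk E3b: the formation generated by `K` is not good. -/

set_option autoImplicit false

namespace Pool.Agent.Lib.H65G

open Subgroup Pool.Agent.H69 Pool.Agent.Lib.H65F

variable {K : Type} [Group K] {z : K}

/-- PROOF. Let `F := gen K`, `G := (K × K) ⧸ Zd z` (`Zd z` is central, so normal), `r := mk'`, `r.ker = Zd z`.  `K × K ∈ F`
(`mem_subdirect` with the two projections, `gen_mem_self`, finite), so `G ∈ F`.  If `F` were good, `gen G` (a subformation of `F`) would be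
normally closed.  `E := ((⊤ : Subgroup K).prod ⊥).map r` is normal in `G` (image of a normal subgroup under a surjection), so `(gen G).mem ↥E`.  `K ≃* E`:
the map `a ↦ r (a, 1)` is injective (`(a, 1) ∈ Zd z` implies `a = 1`: `(a, 1) = (1, 1)` or `(z, z)`, `z ≠ 1`) with range `E`.  So
`InForm G K`, contradiction to `not_inForm`. -/
theorem not_good (h : Dbl K z) [Finite K] :
    ¬ ∀ H : Formation, H.Sub (Formation.gen K) → H.NormallyClosed := by
  intro hgood
  have hzz : ((z, z) : K × K) ∈ center (K × K) := by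
    rw [mem_center_iff]
    rintro ⟨a, b⟩
    exact Prod.ext (mem_center_iff.1 h.cen a) (mem_center_iff.1 h.cen b)
  have hsq : ((z, z) : K × K) * (z, z) = 1 := Prod.ext h.sq h.sq
  haveI hZn : (Zd z).Normal := zp_normal hzz
  have hKK : (Formation.gen K).mem (K × K) :=
    (Formation.gen K).mem_prod (Formation.gen_mem_self K) (Formation.gen_mem_self K)
  have hG : (Formation.gen K).mem ((K × K) ⧸ Zd z) := (Formation.gen K).quot _ (Zd z) hKK
  haveI hfin : Finite ((K × K) ⧸ Zd z) := (Formation.gen K).finite _ hG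
  have hnc := hgood (Formation.gen ((K × K) ⧸ Zd z))
    (Formation.gen_sub ((K × K) ⧸ Zd z) (Formation.gen K) hG)
  have hEn : (((⊤ : Subgroup K).prod (⊥ : Subgroup K)).map (QuotientGroup.mk' (Zd z))).Normal :=
    Subgroup.Normal.map (Subgroup.prod_normal _ _) _ (QuotientGroup.mk'_surjective _)
  have hE := hnc ((K × K) ⧸ Zd z) _ hEn (Formation.gen_mem_self _)
  have hmem : ∀ a : K, ((QuotientGroup.mk' (Zd z)).comp (MonoidHom.inl K K)) a ∈
      (((⊤ : Subgroup K).prod (⊥ : Subgroup K)).map (QuotientGroup.mk' (Zd z))) :=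
    fun a => ⟨(a, 1), ⟨mem_top a, mem_bot.2 rfl⟩, rfl⟩
  let f : K →* (((⊤ : Subgroup K).prod (⊥ : Subgroup K)).map (QuotientGroup.mk' (Zd z)) :
      Subgroup ((K × K) ⧸ Zd z)) :=
    ((QuotientGroup.mk' (Zd z)).comp (MonoidHom.inl K K)).codRestrict _ hmem
  have hfinj : Function.Injective f := by
    rw [injective_iff_map_eq_one]
    intro a ha
    have h1 : ((QuotientGroup.mk' (Zd z)).comp (MonoidHom.inl K K)) a = 1 :=
      congrArg Subtype.val ha
    have h2 : ((a, 1) : K × K) ∈ Zd z := (QuotientGroup.eq_one_iff _).1 h1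
    rcases (mem_zp hsq _).1 h2 with h3 | h3
    · exact congrArg Prod.fst h3
    · exfalso
      exact h.ne (congrArg Prod.snd h3).symm
  have hfsurj : Function.Surjective f := by
    rintro ⟨_, ⟨a, b⟩, ⟨_, hb⟩, rfl⟩
    refine ⟨a, Subtype.ext ?_⟩
    have hb' : b = 1 := mem_bot.1 hb
    show (QuotientGroup.mk' (Zd z)) (a, 1) = (QuotientGroup.mk' (Zd z)) (a, b)
    rw [hb']
  have hK : InForm ((K × K) ⧸ Zd z) K :=
    (Formation.gen ((K × K) ⧸ Zd z)).iso _ _ (MulEquiv.ofBijective f ⟨hfinj, hfsurj⟩).symm hE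
  exact not_inForm h (QuotientGroup.mk' (Zd z)) (QuotientGroup.mk'_surjective _)
    (QuotientGroup.ker_mk' _) hK

end Pool.Agent.Lib.H65G
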