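import Pool.Agent.Lib.H65G.E3a
import Pool.Agent.Lib.H65G.E3b
import Pool.Agent.Lib.H65F.R4c
import Pool.Agent.Lib.H65F.R4e

/-! Chunk E3: the example. -/

set_option autoImplicit false

namespace Pool.Agent.Lib.H65G

open Subgroup Pool.Agent.H69 Pool.Agent.Lib.H65F

variable {K : Type} [Group K] {z : K}

theorem example_dbl (h : Dbl K z) [Finite K] :
    (∀ (G : Type) [Group G], (Formation.gen K).mem G → TestAbelian G ∧ TestTower G) ∧
    ¬ ∀ H : Formation, H.Sub (Formation.gen K) → H.NormallyClosed := by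
  refine ⟨fun G _ hG => ⟨?_, ?_⟩, not_good h⟩
  · exact condAbelian_gen K (fun M _ => (dbl_tests h M).1) G hG
  · exact condTower_gen K (fun M _ => (dbl_tests h M).2) G hG

end Pool.Agent.Lib.H65G
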