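import Pool.Agent.Lib.H65G.E0
import Pool.Agent.Lib.H65G.E2a

/-! Chunk E3a: the tests (a) and (b). -/

set_option autoImplicit false

namespace Pool.Agent.Lib.H65G

open Subgroup Pool.Agent.H69 Pool.Agent.Lib.H65F

variable {K : Type} [Group K] {z : K}

/-- PROOF. (a) `A` minimal normal and abelian: `A ≤ center X`, or `A = ⊤` and then `X` is commutative and `center X = ⊤`.
(b) `A` minimal normal and not abelian: not `≤ center X`, so `A = ⊤`, so all normal subgroups `B ≠ ⊥` of `X` are `⊤`.  Let
`P := ModCentralizer A = X ⧸ C`; a normal subgroup `M` of `P` is `⊥` or `⊤` (its comap in `X` is `⊥` or `⊤`; if the comap is `⊥` then `M = ⊥`).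
`IsTower P`: `M = ⊥`: a subgroup `K'` of `↥M` is `⊥`, so there is no minimal normal one.  `M = ⊤`: `P ≃* ↥M` (`subst`, `Subgroup.topEquiv.symm`) followed by
`QuotientGroup.mk'` is onto `ModCentralizer K' = ↥M ⧸ centralizer K'`. -/
theorem tests_of_central {X : Type} [Group X]
    (h : ∀ N : Subgroup X, N.Normal → N ≤ center X ∨ N = ⊤) : TestAbelian X ∧ TestTower X := by
  refine ⟨?_, ?_⟩
  · intro A hA hab
    rcases h A hA.1 with h1 | h1
    · exact h1
    · intro a ha
      rw [mem_center_iff]
      intro g
      exact hab g (by rw [h1]; exact mem_top g) a ha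
  · intro A _ hA hnab
    have hAtop : A = ⊤ := by
      rcases h A hA.1 with h1 | h1
      · exact absurd (fun a ha b _ => (mem_center_iff.1 (h1 ha) b).symm) hnab
      · exact h1
    have hsimple : ∀ B : Subgroup X, B.Normal → B = ⊥ ∨ B = ⊤ := by
      intro B hB
      by_cases hb : B = ⊥
      · exact Or.inl hb
      · right
        rw [← hAtop]
        exact hA.2.2 B hB (by rw [hAtop]; exact le_top) hb
    intro M hM K' _ hK'
    rcases hsimple (M.comap (QuotientGroup.mk' (centralizer (A : Set X)))) (hM.comap _) with h1 | h1
    · exfalso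
      have hMbot : M = ⊥ := by
        rw [eq_bot_iff]
        intro x hx
        obtain ⟨a, rfl⟩ := QuotientGroup.mk'_surjective (centralizer (A : Set X)) x
        have h2 : a ∈ M.comap (QuotientGroup.mk' (centralizer (A : Set X))) := hx
        rw [h1, mem_bot] at h2
        rw [h2, map_one]
        exact one_mem _
      apply hK'.2.1
      rw [eq_bot_iff]
      intro x _
      have h3 : (x : ModCentralizer A) = 1 := by
        have h4 : M ≤ ⊥ := hMbot.le
        exact mem_bot.1 (h4 x.2)
      rw [mem_bot]
      exact Subtype.ext h3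
    · have hMtop : M = ⊤ := by
        rw [eq_top_iff]
        intro x _
        obtain ⟨a, rfl⟩ := QuotientGroup.mk'_surjective (centralizer (A : Set X)) x
        have h2 : a ∈ M.comap (QuotientGroup.mk' (centralizer (A : Set X))) := by
          rw [h1]
          exact mem_top a
        exact h2
      subst hMtop
      refine ⟨(QuotientGroup.mk' (centralizer (K' : Set (⊤ : Subgroup (ModCentralizer A))))).comp
        (Subgroup.topEquiv.symm : ModCentralizer A ≃* (⊤ : Subgroup (ModCentralizer A))).toMonoidHom,
        ?_⟩
      exact (QuotientGroup.mk'_surjective _).comp (MulEquiv.surjective _)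

/-- PROOF. `tests_of_central` for `X := K ⧸ M`: the comap of a normal `N` is normal in `K`, so `≤ zpowers z ≤ center K` or `⊤`
(`Dbl.nor`); the image of the centre is central (`mk'` onto). -/
theorem dbl_tests (h : Dbl K z) (M : Subgroup K) [M.Normal] :
    TestAbelian (K ⧸ M) ∧ TestTower (K ⧸ M) := by
  apply tests_of_central
  intro N hN
  rcases h.nor (N.comap (QuotientGroup.mk' M)) (hN.comap _) with h1 | h1
  · left
    intro x hx
    obtain ⟨a, rfl⟩ := QuotientGroup.mk'_surjective M x
    have h2 : a ∈ center K := by
      have h3 : zpowers z ≤ center K := by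
        rw [zpowers_le]
        exact h.cen
      exact h3 (h1 hx)
    rw [mem_center_iff] at h2 ⊢
    intro g
    obtain ⟨b, rfl⟩ := QuotientGroup.mk'_surjective M g
    rw [← map_mul, ← map_mul, h2 b]
  · right
    rw [eq_top_iff]
    intro x _
    obtain ⟨a, rfl⟩ := QuotientGroup.mk'_surjective M x
    have h2 : a ∈ N.comap (QuotientGroup.mk' M) := by
      rw [h1]
      exact mem_top a
    exact h2

end Pool.Agent.Lib.H65G
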