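import Pool.Agent.Lib.H65G.E0

/-! Chunk E4: `SL(2, 5)`. -/

set_option autoImplicit false

namespace Pool.Agent.Lib.H65G

open Subgroup Pool.Agent.H69 Pool.Agent.Lib.H65F Matrix

/-- The group `SL(2, 5)`. -/
abbrev SL25 : Type := Matrix.SpecialLinearGroup (Fin 2) (ZMod 5)

/-- Upper unitriangular matrices. -/
def su (x : ZMod 5) : SL25 := ⟨!![1, x; 0, 1], by simp [Matrix.det_fin_two]⟩

/-- Lower unitriangular matrices. -/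
def sl (x : ZMod 5) : SL25 := ⟨!![1, 0; x, 1], by simp [Matrix.det_fin_two]⟩

/-- `w = [[0, 1], [-1, 0]]`. -/
def sw : SL25 := ⟨!![0, 1; -1, 0], by simp [Matrix.det_fin_two]⟩

/-- `d = diag(2, 3)` (`2 * 3 = 6 = 1`). -/
def sd : SL25 := ⟨!![2, 0; 0, 3], by simp [Matrix.det_fin_two]; decide⟩

/-- `m = -1`. -/
def sm : SL25 := ⟨!![-1, 0; 0, -1], by simp [Matrix.det_fin_two]⟩

theorem sl25_det (g : SL25) : g.1 0 0 * g.1 1 1 - g.1 0 1 * g.1 1 0 = 1 := by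
  have h := g.2
  rw [Matrix.det_fin_two] at h
  exact h

theorem sl25_ext {g h : SL25} (h00 : g.1 0 0 = h.1 0 0) (h01 : g.1 0 1 = h.1 0 1)
    (h10 : g.1 1 0 = h.1 1 0) (h11 : g.1 1 1 = h.1 1 1) : g = h := by
  apply Subtype.ext
  ext i j
  fin_cases i <;> fin_cases j <;> assumption

theorem sl25_mul (g h : SL25) :
    (g * h).1 0 0 = g.1 0 0 * h.1 0 0 + g.1 0 1 * h.1 1 0 ∧
    (g * h).1 0 1 = g.1 0 0 * h.1 0 1 + g.1 0 1 * h.1 1 1 ∧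
    (g * h).1 1 0 = g.1 1 0 * h.1 0 0 + g.1 1 1 * h.1 1 0 ∧
    (g * h).1 1 1 = g.1 1 0 * h.1 0 1 + g.1 1 1 * h.1 1 1 := by
  have h1 : (g * h).1 = g.1 * h.1 := rfl
  refine ⟨?_, ?_, ?_, ?_⟩ <;> rw [h1, Matrix.mul_apply, Fin.sum_univ_two]

theorem sl25_inv (g : SL25) :
    (g⁻¹).1 0 0 = g.1 1 1 ∧ (g⁻¹).1 0 1 = - g.1 0 1 ∧ (g⁻¹).1 1 0 = - g.1 1 0 ∧
    (g⁻¹).1 1 1 = g.1 0 0 := by
  have h1 : (g⁻¹).1 = !![g.1 1 1, - g.1 0 1; - g.1 1 0, g.1 0 0] := by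
    rw [Matrix.SpecialLinearGroup.coe_inv, Matrix.adjugate_fin_two]
  rw [h1]
  refine ⟨rfl, rfl, rfl, rfl⟩

end Pool.Agent.Lib.H65G
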