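import Pool.Agent.Lib.H65G.E5a

/-! Chunk E5b: `SL(2, 5)` is perfect. -/

set_option autoImplicit false

namespace Pool.Agent.Lib.H65G

open Subgroup Matrix

theorem e5b_su (x : ZMod 5) : sd * su (2 * x) * sd⁻¹ * (su (2 * x))⁻¹ = su x := by
  revert x
  decide

theorem e5b_sl (x : ZMod 5) : sd * sl (2 * x) * sd⁻¹ * (sl (2 * x))⁻¹ = sl x := by
  revert x
  decide

open commutatorElement in
theorem e5b_comm (a b : SL25) : a * b * a⁻¹ * b⁻¹ ∈ _root_.commutator SL25 := by
  rw [← commutatorElement_def]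
  exact Subgroup.commutator_mem_commutator (Subgroup.mem_top _) (Subgroup.mem_top _)

/-- PROOF. `su y = sd * su (2 * y) * sd⁻¹ * (su (2 * y))⁻¹` and `sl y = sd * sl (2 * y) * sd⁻¹ * (sl (2 * y))⁻¹` (`decide` over
`y : ZMod 5`, or `sl25_ext`; `sd = diag(2, 3)`), so all are commutators (`commutator_mem_commutator`, `commutatorElement_def`);
`gen_top`. -/
theorem sl25_perfect : _root_.commutator SL25 = ⊤ := by
  apply gen_top
  · intro x
    rw [← e5b_su x]
    exact e5b_comm _ _
  · intro x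
    rw [← e5b_sl x]
    exact e5b_comm _ _

end Pool.Agent.Lib.H65G
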