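import Pool.Agent.Lib.H65G.E4

/-! Chunk E5a: generators of `SL(2, 5)`. -/

set_option autoImplicit false

namespace Pool.Agent.Lib.H65G

open Subgroup Matrix

/-- PROOF. Let `g` have entries `a, b, c, d`, `a d - b c = 1`.  If `c ≠ 0`, then
`g = su ((a - 1) / c) * sl c * su ((d - 1) / c)` (`sl25_ext`, `sl25_mul`; field computation in `ZMod 5`, with `Fact (Nat.Prime 5)`; or
by finite check).  If `c = 0` then `a ≠ 0` and `sl 1 * g` has lower left entry `a ≠ 0`; so it is in `N`, and `g ∈ N`. -/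
theorem gen_top (N : Subgroup SL25) (h1 : ∀ x, su x ∈ N) (h2 : ∀ x, sl x ∈ N) : N = ⊤ := by
  have : Fact (Nat.Prime 5) := ⟨by norm_num⟩
  have key : ∀ g : SL25, g.1 1 0 ≠ 0 → g ∈ N := by
    intro g hc
    have hdet := sl25_det g
    have e : g = su ((g.1 0 0 - 1) * (g.1 1 0)⁻¹) * sl (g.1 1 0)
        * su ((g.1 1 1 - 1) * (g.1 1 0)⁻¹) := by
      apply Subtype.ext
      change g.1 = !![1, (g.1 0 0 - 1) * (g.1 1 0)⁻¹; 0, 1] * !![1, 0; g.1 1 0, 1]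
        * !![1, (g.1 1 1 - 1) * (g.1 1 0)⁻¹; 0, 1]
      rw [Matrix.mul_fin_two, Matrix.mul_fin_two]
      conv_lhs => rw [Matrix.eta_fin_two g.1]
      have e1 : (g.1 1 0)⁻¹ * g.1 1 0 = 1 := inv_mul_cancel₀ hc
      congr 1
      have r1 : g.1 0 0 = (1 * 1 + (g.1 0 0 - 1) * (g.1 1 0)⁻¹ * g.1 1 0) * 1
          + (1 * 0 + (g.1 0 0 - 1) * (g.1 1 0)⁻¹ * 1) * 0 := by
        linear_combination (-(g.1 0 0 - 1)) * e1
      have r2 : g.1 0 1 = (1 * 1 + (g.1 0 0 - 1) * (g.1 1 0)⁻¹ * g.1 1 0)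
          * ((g.1 1 1 - 1) * (g.1 1 0)⁻¹) + (1 * 0 + (g.1 0 0 - 1) * (g.1 1 0)⁻¹ * 1) * 1 := by
        linear_combination (-(g.1 1 0)⁻¹) * hdet - (g.1 0 1) * e1
          - ((g.1 0 0 - 1) * (g.1 1 1 - 1) * (g.1 1 0)⁻¹) * e1
      have r3 : g.1 1 0 = (0 * 1 + 1 * g.1 1 0) * 1 + (0 * 0 + 1 * 1) * 0 := by ring
      have r4 : g.1 1 1 = (0 * 1 + 1 * g.1 1 0) * ((g.1 1 1 - 1) * (g.1 1 0)⁻¹)
          + (0 * 0 + 1 * 1) * 1 := by
        linear_combination (-(g.1 1 1 - 1)) * e1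
      rw [← r1, ← r2, ← r3, ← r4]
    rw [e]
    exact N.mul_mem (N.mul_mem (h1 _) (h2 _)) (h1 _)
  rw [eq_top_iff]
  intro g _
  by_cases hc : g.1 1 0 = 0
  · have hdet := sl25_det g
    have ha : g.1 0 0 ≠ 0 := by
      intro ha
      rw [ha, hc] at hdet
      simp at hdet
    have h3 : sl 1 * g ∈ N := by
      apply key
      rw [(sl25_mul (sl 1) g).2.2.1, hc]
      change (1 : ZMod 5) * g.1 0 0 + 1 * 0 ≠ 0
      simpa using ha
    have h4 := N.mul_mem (N.inv_mem (h2 1)) h3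
    rwa [inv_mul_cancel_left] at h4
  · exact key g hc

end Pool.Agent.Lib.H65G
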