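import Pool.Agent.Lib.H65G.E6a

/-! Chunk E6b: elements which are not upper triangular. -/

set_option autoImplicit false

namespace Pool.Agent.Lib.H65G

open Subgroup Matrix

lemma e6b_inv (g : SL25) (a b c d : ZMod 5) (h : g.1 = !![a, b; c, d]) :
    (g⁻¹).1 = !![d, -b; -c, a] := by
  rw [Matrix.SpecialLinearGroup.coe_inv, h, Matrix.adjugate_fin_two_of]

lemma e6b_mul (g g' : SL25) (a b c d a' b' c' d' : ZMod 5) (h : g.1 = !![a, b; c, d])
    (h' : g'.1 = !![a', b'; c', d']) :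
    (g * g').1 = !![a * a' + b * c', a * b' + b * d'; c * a' + d * c', c * b' + d * d'] := by
  have h1 : (g * g').1 = g.1 * g'.1 := rfl
  rw [h1, h, h', Matrix.mul_fin_two]

/-- Dickson's argument.
PROOF. Let `c := g 1 0 ≠ 0`.  (1) `g₁ := su (1 / c) * g * su (-(1 / c)) * g⁻¹ ∈ N` (`N` normal) has lower left entry `c` and trace
`3`.  (2) Let `g₁` have entries `a, b, c, d` (`a + d = 3`), `g₂ := su (-(a / c)) * g₁ * su (a / c) ∈ N`; it is
`[[0, -1 / c], [c, 3]]`.  (3) `g₃ := sd * g₂ * sd⁻¹ * g₂⁻¹ ∈ N` is `[[4, 0], [-2 * 3 * c, 4]] = [[-1, 0], [4 * c, -1]]`, and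
`g₃ * g₃ = sl (2 * c) ∈ N` (signs: check by computation; the result is `sl` of a nonzero multiple of `c`).  `top_of_sl`. -/
theorem top_of_lower {N : Subgroup SL25} (hN : N.Normal) {g : SL25} (hg : g ∈ N)
    (hc : g.1 1 0 ≠ 0) : N = ⊤ := by
  have h5 : (5 : ZMod 5) = 0 := by decide
  have h2 : (2 : ZMod 5) ≠ 0 := by decide
  have : Fact (Nat.Prime 5) := ⟨by norm_num⟩
  obtain ⟨a, b, c, d, hgm⟩ : ∃ a b c d, g.1 = !![a, b; c, d] := ⟨_, _, _, _, Matrix.eta_fin_two g.1⟩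
  have hdet : a * d - b * c = 1 := by
    have h := sl25_det g
    rw [hgm] at h
    exact h
  have hc' : c ≠ 0 := by
    rw [hgm] at hc
    exact hc
  obtain ⟨t, ht⟩ : ∃ t : ZMod 5, c * t = 1 := ⟨c⁻¹, mul_inv_cancel₀ hc'⟩
  have hsu : ∀ x : ZMod 5, (su x).1 = !![1, x; 0, 1] := fun x => rfl
  -- `g₁`
  have m1 : su t * g * (su t)⁻¹ * g⁻¹ ∈ N :=
    N.mul_mem (hN.conj_mem g hg (su t)) (N.inv_mem hg)
  have e1 : (su t * g * (su t)⁻¹ * g⁻¹).1 = !![a + 2, -b + a * t * (d - a - 1); c, 1 - a] := by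
    have i1 := e6b_mul _ _ _ _ _ _ _ _ _ _ (hsu t) hgm
    have i2 := e6b_mul _ _ _ _ _ _ _ _ _ _ i1 (e6b_inv _ _ _ _ _ (hsu t))
    have i3 := e6b_mul _ _ _ _ _ _ _ _ _ _ i2 (e6b_inv _ _ _ _ _ hgm)
    rw [i3]
    congr 1
    have r1 : ((1 * a + t * c) * 1 + (1 * b + t * d) * -0) * d
        + ((1 * a + t * c) * -t + (1 * b + t * d) * 1) * -c = a + 2 := by
      linear_combination hdet + (a + 1 + c * t) * ht
    have r2 : ((1 * a + t * c) * 1 + (1 * b + t * d) * -0) * -b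
        + ((1 * a + t * c) * -t + (1 * b + t * d) * 1) * a = -b + a * t * (d - a - 1) := by
      linear_combination (-b - a * t) * ht
    have r3 : ((0 * a + 1 * c) * 1 + (0 * b + 1 * d) * -0) * d
        + ((0 * a + 1 * c) * -t + (0 * b + 1 * d) * 1) * -c = c := by
      linear_combination c * ht
    have r4 : ((0 * a + 1 * c) * 1 + (0 * b + 1 * d) * -0) * -b
        + ((0 * a + 1 * c) * -t + (0 * b + 1 * d) * 1) * a = 1 - a := by
      linear_combination hdet - a * ht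
    rw [r1, r2, r3, r4]
  set g₁ : SL25 := su t * g * (su t)⁻¹ * g⁻¹ with hg₁
  -- `g₂`
  set x : ZMod 5 := (a + 2) * t with hx
  have m2 : (su x)⁻¹ * g₁ * (su x)⁻¹⁻¹ ∈ N := hN.conj_mem g₁ m1 (su x)⁻¹
  have hdet1 : (a + 2) * (1 - a) - (-b + a * t * (d - a - 1)) * c = 1 := by
    have h := sl25_det g₁
    rw [e1] at h
    exact h
  have e2 : ((su x)⁻¹ * g₁ * (su x)⁻¹⁻¹).1 = !![0, -t; c, 3] := by
    have j0 := e6b_inv _ _ _ _ _ (hsu x)
    have i1 := e6b_mul _ _ _ _ _ _ _ _ _ _ j0 e1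
    have i2 := e6b_mul _ _ _ _ _ _ _ _ _ _ i1 (e6b_inv _ _ _ _ _ j0)
    rw [i2]
    congr 1
    have r1 : (1 * (a + 2) + -x * c) * 1 + (1 * (-b + a * t * (d - a - 1)) + -x * (1 - a)) * - -0
        = 0 := by
      rw [hx]
      linear_combination (-(a + 2)) * ht
    have r2 : (1 * (a + 2) + -x * c) * - -x + (1 * (-b + a * t * (d - a - 1))
        + -x * (1 - a)) * 1 = -t := by
      rw [hx]
      linear_combination (-t) * hdet1 - ((-b + a * t * (d - a - 1)) + (a + 2) ^ 2 * t) * ht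
    have r3 : (-0 * (a + 2) + 1 * c) * 1 + (-0 * (-b + a * t * (d - a - 1)) + 1 * (1 - a)) * - -0
        = c := by
      ring
    have r4 : (-0 * (a + 2) + 1 * c) * - -x + (-0 * (-b + a * t * (d - a - 1)) + 1 * (1 - a)) * 1
        = 3 := by
      rw [hx]
      linear_combination (a + 2) * ht
    rw [r1, r2, r3, r4]
  set g₂ : SL25 := (su x)⁻¹ * g₁ * (su x)⁻¹⁻¹ with hg₂
  have hsd : sd.1 = !![2, 0; 0, 3] := rfl
  have m3 : sd * g₂ * sd⁻¹ * g₂⁻¹ ∈ N := N.mul_mem (hN.conj_mem g₂ m2 sd) (N.inv_mem m2)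
  have e3 : (sd * g₂ * sd⁻¹ * g₂⁻¹).1 = !![-1, 0; 4 * c, -1] := by
    have i1 := e6b_mul _ _ _ _ _ _ _ _ _ _ hsd e2
    have i2 := e6b_mul _ _ _ _ _ _ _ _ _ _ i1 (e6b_inv _ _ _ _ _ hsd)
    have i3 := e6b_mul _ _ _ _ _ _ _ _ _ _ i2 (e6b_inv _ _ _ _ _ e2)
    rw [i3]
    congr 1
    have r1 : ((2 * 0 + 0 * c) * 3 + (2 * -t + 0 * 3) * -0) * 3
        + ((2 * 0 + 0 * c) * -0 + (2 * -t + 0 * 3) * 2) * -c = -1 := by
      linear_combination 4 * ht + h5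
    have r2 : ((2 * 0 + 0 * c) * 3 + (2 * -t + 0 * 3) * -0) * - -t
        + ((2 * 0 + 0 * c) * -0 + (2 * -t + 0 * 3) * 2) * 0 = 0 := by
      ring
    have r3 : ((0 * 0 + 3 * c) * 3 + (0 * -t + 3 * 3) * -0) * 3
        + ((0 * 0 + 3 * c) * -0 + (0 * -t + 3 * 3) * 2) * -c = 4 * c := by
      linear_combination c * h5
    have r4 : ((0 * 0 + 3 * c) * 3 + (0 * -t + 3 * 3) * -0) * - -t
        + ((0 * 0 + 3 * c) * -0 + (0 * -t + 3 * 3) * 2) * 0 = -1 := by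
      linear_combination 9 * ht + 2 * h5
    rw [r1, r2, r3, r4]
  set g₃ : SL25 := sd * g₂ * sd⁻¹ * g₂⁻¹ with hg₃
  have e4 : g₃ * g₃ = sl (2 * c) := by
    apply Subtype.ext
    rw [e6b_mul _ _ _ _ _ _ _ _ _ _ e3 e3]
    change _ = !![1, 0; 2 * c, 1]
    congr 1
    have r1 : (-1 : ZMod 5) * -1 + 0 * (4 * c) = 1 := by ring
    have r2 : (-1 : ZMod 5) * 0 + 0 * -1 = 0 := by ring
    have r3 : 4 * c * -1 + -1 * (4 * c) = 2 * c := by linear_combination (-2 * c) * h5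
    have r4 : 4 * c * 0 + -1 * -1 = (1 : ZMod 5) := by ring
    rw [r1, r2, r3, r4]
  have m4 : sl (2 * c) ∈ N := by
    rw [← e4]
    exact N.mul_mem m3 m3
  refine top_of_sl hN (x := 2 * c) ?_ m4
  exact mul_ne_zero h2 hc'

end Pool.Agent.Lib.H65G
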