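import Pool.Agent.Lib.H65G.E6a
import Pool.Agent.Lib.H65G.E6b

/-! Chunk E6c: normal subgroups. -/

set_option autoImplicit false

namespace Pool.Agent.Lib.H65G

open Subgroup Matrix

/-- PROOF. If not `N ≤ zpowers sm`, take `g ∈ N`, `g ∉ zpowers sm`, entries `a, b, c, d`.  `c ≠ 0`: `top_of_lower`.  `c = 0`, `b ≠ 0`:
`sw * g * sw⁻¹` has lower left entry `-b`.  `b = c = 0`: `a * d = 1`; if `a = d` then `a = 1` or `a = -1` (`decide`), so `g = 1` or `g = sm`, in
`zpowers sm`, contradiction; so `a ≠ d` and `su 1 * g * su (-1)` has upper right entry `d - a ≠ 0`, lower left entry `0`; previous case. -/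
theorem sl25_normal (N : Subgroup SL25) (hN : N.Normal) : N ≤ zpowers sm ∨ N = ⊤ := by
  have : Fact (Nat.Prime 5) := ⟨by norm_num⟩
  by_cases hle : N ≤ zpowers sm
  · exact Or.inl hle
  right
  obtain ⟨g, hg, hgn⟩ := SetLike.not_le_iff_exists.1 hle
  by_cases hc : g.1 1 0 = 0
  swap
  · exact top_of_lower hN hg hc
  -- elements with a nonzero upper right entry and zero lower left entry
  have key : ∀ g : SL25, g ∈ N → g.1 0 1 ≠ 0 → N = ⊤ := by
    intro g hg hb
    have m : sw * g * sw⁻¹ ∈ N := hN.conj_mem g hg sw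
    refine top_of_lower hN m ?_
    have hgm : g.1 = !![g.1 0 0, g.1 0 1; g.1 1 0, g.1 1 1] := Matrix.eta_fin_two g.1
    have hw : sw.1 = !![0, 1; -1, 0] := rfl
    have i1 := e6b_mul _ _ _ _ _ _ _ _ _ _ hw hgm
    have i2 := e6b_mul _ _ _ _ _ _ _ _ _ _ i1 (e6b_inv _ _ _ _ _ hw)
    rw [i2]
    change (-1 * g.1 0 0 + 0 * g.1 1 0) * 0 + (-1 * g.1 0 1 + 0 * g.1 1 1) * - -1 ≠ 0
    intro h
    apply hb
    linear_combination -h
  by_cases hb : g.1 0 1 = 0
  swap
  · exact key g hg hb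
  have hdet := sl25_det g
  rw [hb, zero_mul, sub_zero] at hdet
  have hsu : (su 1).1 = !![1, 1; 0, 1] := rfl
  have m : su 1 * g * (su 1)⁻¹ ∈ N := hN.conj_mem g hg (su 1)
  by_cases had : g.1 0 0 = g.1 1 1
  · exfalso
    apply hgn
    rw [← had] at hdet
    have h1 : (g.1 0 0 - 1) * (g.1 0 0 + 1) = 0 := by linear_combination hdet
    rcases mul_eq_zero.1 h1 with h | h
    · have h2 : g.1 0 0 = 1 := by linear_combination h
      have : g = 1 := sl25_ext h2 hb hc (had ▸ h2)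
      rw [this]
      exact one_mem _
    · have h2 : g.1 0 0 = -1 := by linear_combination h
      have : g = sm := sl25_ext h2 hb hc (had ▸ h2)
      rw [this]
      exact mem_zpowers sm
  · refine key _ m ?_
    have hgm : g.1 = !![g.1 0 0, g.1 0 1; g.1 1 0, g.1 1 1] := Matrix.eta_fin_two g.1
    have i1 := e6b_mul _ _ _ _ _ _ _ _ _ _ hsu hgm
    have i2 := e6b_mul _ _ _ _ _ _ _ _ _ _ i1 (e6b_inv _ _ _ _ _ hsu)
    rw [i2]
    change (1 * g.1 0 0 + 1 * g.1 1 0) * -1 + (1 * g.1 0 1 + 1 * g.1 1 1) * 1 ≠ 0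
    rw [hb, hc]
    intro h
    apply had
    linear_combination -h

end Pool.Agent.Lib.H65G
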