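import Pool.Agent.Lib.H65G.E5

/-! Chunk E6a: unitriangular elements in normal subgroups. -/

set_option autoImplicit false

namespace Pool.Agent.Lib.H65G

open Subgroup Matrix

theorem e6a_sl_mul (x y : ZMod 5) : sl x * sl y = sl (x + y) := by
  obtain ⟨h1, h2, h3, h4⟩ := sl25_mul (sl x) (sl y)
  apply sl25_ext
  · rw [h1]; simp [sl]
  · rw [h2]; simp [sl]
  · rw [h3]; simp [sl]
  · rw [h4]; simp [sl]

theorem e6a_sl_zero : sl 0 = 1 := by
  apply sl25_ext <;> simp [sl]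

theorem e6a_sl_pow (x : ZMod 5) (k : ℕ) : sl x ^ k = sl (k * x) := by
  induction k with
  | zero => simp [e6a_sl_zero]
  | succ k ih =>
    rw [pow_succ, ih, e6a_sl_mul]
    congr 1
    push_cast
    ring

theorem e6a_conj (x : ZMod 5) : sw * sl x * sw⁻¹ = su (-x) := by
  obtain ⟨h1, h2, h3, h4⟩ := sl25_mul (sw * sl x) sw⁻¹
  obtain ⟨k1, k2, k3, k4⟩ := sl25_mul sw (sl x)
  obtain ⟨i1, i2, i3, i4⟩ := sl25_inv sw
  apply sl25_ext
  · rw [h1, k1, k2, i1, i3]; simp [sl, sw, su]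
  · rw [h2, k1, k2, i2, i4]; simp [sl, sw, su]
  · rw [h3, k3, k4, i1, i3]; simp [sl, sw, su]
  · rw [h4, k3, k4, i2, i4]; simp [sl, sw, su]

/-- PROOF. `sl x ^ k = sl (k * x)` (induction), so `sl y ∈ N` for all `y` (`y = k * x` with `k := (y / x).val`; or `decide`: for
`x ≠ 0` and `y` there is `k < 5` with `y = k * x`).  `sw * sl x * sw⁻¹ = su (-x)`, so `su y ∈ N` for all `y`.  `gen_top`. -/
theorem top_of_sl {N : Subgroup SL25} (hN : N.Normal) {x : ZMod 5} (hx : x ≠ 0)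
    (h : sl x ∈ N) : N = ⊤ := by
  have key : ∀ x y : ZMod 5, x ≠ 0 → ∃ k : Fin 5, y = ((k : ℕ) : ZMod 5) * x := by decide
  have h2 : ∀ y, sl y ∈ N := by
    intro y
    obtain ⟨k, hk⟩ := key x y hx
    rw [hk, ← e6a_sl_pow]
    exact N.pow_mem h _
  have h1 : ∀ y, su y ∈ N := by
    intro y
    have h3 := hN.conj_mem _ (h2 (-y)) sw
    rw [e6a_conj, neg_neg] at h3
    exact h3
  exact gen_top N h1 h2

end Pool.Agent.Lib.H65G
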