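import Pool.Agent.Lib.H65G.E6

/-! Chunk E7: `SL(2, 5)` has the properties `Dbl`. -/

set_option autoImplicit false

namespace Pool.Agent.Lib.H65G

open Subgroup Matrix

/-- PROOF. If `a * a = 1` then `a = a⁻¹`, so (`sl25_inv`) `a 0 1 = - a 0 1`, `a 1 0 = - a 1 0`, `a 0 0 = a 1 1`; in `ZMod 5` the off-diagonal
entries are `0` (`decide`) and `a 0 0 * a 0 0 = 1`, so `a 0 0 = 1` or `-1` (`decide`). -/
theorem sl25_inv_eq (a : SL25) (h : a * a = 1) : a = 1 ∨ a = sm := by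
  have h1 : a = a⁻¹ := eq_inv_of_mul_eq_one_left h
  obtain ⟨i1, i2, i3, -⟩ := sl25_inv a
  rw [← h1] at i1 i2 i3
  have z : ∀ x : ZMod 5, x = -x → x = 0 := by decide
  have o : ∀ x : ZMod 5, x * x = 1 → x = 1 ∨ x = -1 := by decide
  have h01 := z _ i2
  have h10 := z _ i3
  have hdet := sl25_det a
  rw [h01, h10, ← i1, mul_zero, sub_zero] at hdet
  rcases o _ hdet with h2 | h2
  · left
    exact sl25_ext h2 h01 h10 (i1.symm.trans h2)
  · right
    exact sl25_ext h2 h01 h10 (i1.symm.trans h2)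

/-- PROOF. `perf`: `sl25_perfect`; `ne`, `sq`: entries; `cen`: `sl25_ext` with `sl25_mul`; `nor`: `sl25_normal`; `inv`: `sl25_inv_eq`; `root`: `sw`. -/
theorem dbl_sl25 : Dbl SL25 sm where
  perf := sl25_perfect
  ne := by
    intro h
    have h1 : sm.1 0 0 = (1 : SL25).1 0 0 := by rw [h]
    have h2 : (-1 : ZMod 5) = 1 := h1
    revert h2
    decide
  sq := by
    obtain ⟨m1, m2, m3, m4⟩ := sl25_mul sm sm
    refine sl25_ext (m1.trans ?_) (m2.trans ?_) (m3.trans ?_) (m4.trans ?_)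
    · show (-1 : ZMod 5) * (-1) + 0 * 0 = 1
      decide
    · show (-1 : ZMod 5) * 0 + 0 * (-1) = 0
      decide
    · show (0 : ZMod 5) * (-1) + (-1) * 0 = 0
      decide
    · show (0 : ZMod 5) * 0 + (-1) * (-1) = 1
      decide
  cen := by
    rw [mem_center_iff]
    intro g
    obtain ⟨m1, m2, m3, m4⟩ := sl25_mul g sm
    obtain ⟨n1, n2, n3, n4⟩ := sl25_mul sm g
    refine sl25_ext (m1.trans (Eq.trans ?_ n1.symm)) (m2.trans (Eq.trans ?_ n2.symm))
      (m3.trans (Eq.trans ?_ n3.symm)) (m4.trans (Eq.trans ?_ n4.symm))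
    · show g.1 0 0 * (-1) + g.1 0 1 * 0 = (-1) * g.1 0 0 + 0 * g.1 1 0
      ring
    · show g.1 0 0 * 0 + g.1 0 1 * (-1) = (-1) * g.1 0 1 + 0 * g.1 1 1
      ring
    · show g.1 1 0 * (-1) + g.1 1 1 * 0 = 0 * g.1 0 0 + (-1) * g.1 1 0
      ring
    · show g.1 1 0 * 0 + g.1 1 1 * (-1) = 0 * g.1 0 1 + (-1) * g.1 1 1
      ring
  nor := sl25_normal
  inv := sl25_inv_eq
  root := by
    refine ⟨sw, ?_⟩
    obtain ⟨m1, m2, m3, m4⟩ := sl25_mul sw sw
    refine sl25_ext (m1.trans ?_) (m2.trans ?_) (m3.trans ?_) (m4.trans ?_)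
    · show (0 : ZMod 5) * 0 + 1 * (-1) = -1
      decide
    · show (0 : ZMod 5) * 1 + 1 * 0 = 0
      decide
    · show (-1 : ZMod 5) * 0 + 0 * (-1) = 0
      decide
    · show (-1 : ZMod 5) * 1 + 0 * 0 = -1
      decide

instance finite_sl25 : Finite SL25 := inferInstance

end Pool.Agent.Lib.H65G
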