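import Pool.Agent.Lib.H65G.D0

/-! Chunk K1a: the window. -/

set_option autoImplicit false

namespace Pool.Agent.Lib.H65G

open Subgroup Pool.Agent.H69 Pool.Agent.Lib.H65F

variable {Y : Type} [Group Y] [Finite Y]

/-- The window is finite, with at most `m₀ + |Λ| log₂ y` elements.
PROOF. `W := (Finset.range m₀).image (Nat.pair 0) ∪ (Λ ×ˢ Finset.range (Nat.log 2 y)).image (fun p => Nat.pair p.1 p.2)`;
`Nat.pair_unpair`; `Finset.card_union_le`, `Finset.card_image_le`, `Finset.card_product`. -/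
theorem exists_window (m₀ : ℕ) (Λ : Finset ℕ) (y : ℕ) :
    ∃ W : Finset ℕ, (∀ i, Win m₀ Λ y i → i ∈ W) ∧ W.card ≤ m₀ + Λ.card * Nat.log 2 y := by
  classical
  refine ⟨(Finset.range m₀).image (Nat.pair 0) ∪
    (Λ ×ˢ Finset.range (Nat.log 2 y)).image (fun p => Nat.pair p.1 p.2), ?_, ?_⟩
  · rintro i (⟨h1, h2⟩ | ⟨h1, h2⟩)
    · rw [Finset.mem_union]
      left
      rw [Finset.mem_image]
      refine ⟨i.unpair.2, Finset.mem_range.2 h2, ?_⟩
      rw [← h1, Nat.pair_unpair]
    · rw [Finset.mem_union]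
      right
      rw [Finset.mem_image]
      refine ⟨i.unpair, Finset.mem_product.2 ⟨h1, Finset.mem_range.2 h2⟩, ?_⟩
      exact Nat.pair_unpair i
  · refine (Finset.card_union_le _ _).trans (Nat.add_le_add ?_ ?_)
    · exact Finset.card_image_le.trans (Finset.card_range _).le
    · refine Finset.card_image_le.trans ?_
      rw [Finset.card_product, Finset.card_range]

/-- Subgroups which contain almost all generators and are of the form `N.comap ψ`.
PROOF. The map `(N, t) ↦ N.comap (FreeGroup.lift (fun i => if h : i ∈ W then t ⟨i, h⟩ else 1))` from the finite type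
`Subgroup Y × (W → Y)` hits every such subgroup: for `K = N.comap ψ` take `t i := ψ (of i)`; the two homomorphisms agree
modulo `N` on all generators (for `i ∉ W`: `of i ∈ K`, so `ψ (of i) ∈ N`), `agree_of_gen` (`N` normal), `comap_eq_of_agree`.
`Set.Finite.subset (Set.finite_range _)`. -/
theorem finite_of_window (W : Finset ℕ) :
    {K : Subgroup Fr | (∀ i, i ∉ W → FreeGroup.of i ∈ K) ∧
      ∃ N : Subgroup Y, N.Normal ∧ ∃ ψ : Fr →* Y, N.comap ψ = K}.Finite := by
  classical
  let F : Subgroup Y × ({i // i ∈ W} → Y) → Subgroup Fr := fun p =>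
    p.1.comap (FreeGroup.lift (fun i => if h : i ∈ W then p.2 ⟨i, h⟩ else 1))
  refine Set.Finite.subset (Set.finite_range F) ?_
  rintro K ⟨hK, N, hN, ψ, hψ⟩
  refine ⟨(N, fun i => ψ (FreeGroup.of i.1)), ?_⟩
  change N.comap (FreeGroup.lift (fun i => if h : i ∈ W then ψ (FreeGroup.of i) else 1)) = K
  rw [← hψ]
  refine comap_eq_of_agree _ _ (agree_of_gen hN _ _ ?_) le_rfl
  intro i
  rw [FreeGroup.lift_apply_of]
  by_cases h : i ∈ W
  · rw [dif_pos h, inv_mul_cancel]
    exact one_mem _
  · rw [dif_neg h, inv_one, one_mul]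
    have h2 := hK i h
    rw [← hψ] at h2
    exact h2

end Pool.Agent.Lib.H65G
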