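import Pool.Agent.Lib.H65G.D0
import Pool.Agent.Lib.H65G.K1a
import Pool.Agent.Lib.H65F.K3
import Pool.Agent.Lib.H65F.K3b

/-! Chunk K1: the set `KS` and the group `Fr ⧸ RB`. -/

set_option autoImplicit false

namespace Pool.Agent.Lib.H65G

open Subgroup Pool.Agent.H69 Pool.Agent.Lib.H65F

variable {Y : Type} [Group Y] [Finite Y]

theorem KS_mem {m₀ : ℕ} {Λ : Finset ℕ} {K : Subgroup Fr} (hK : KS Y m₀ Λ K) :
    K = ⊤ ∨ ∃ N : Subgroup Y, UNode N ∧ ∃ ψ : Fr →* Y, ψ.range ⊔ N = ⊤ ∧ N.comap ψ = K := by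
  cases hK with
  | top => exact Or.inl rfl
  | base N β hN hr _ => exact Or.inr ⟨N, hN, β, hr, rfl⟩
  | step N β z hN hr hK hz =>
    by_cases h : (LS N β z).Nonempty
    · obtain ⟨ψ, h1, h2, -⟩ := pick_mem h
      exact Or.inr ⟨N, hN, ψ, h1.surj, h2⟩
    · left
      rw [pick, dif_neg h]

theorem l_index_le (N : Subgroup Y) (ψ : Fr →* Y) : (N.comap ψ).index ≤ Nat.card Y := by
  rw [index_comap]
  have h2 : N.relIndex ψ.range ∣ Nat.card ψ.range := index_dvd_card _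
  have h3 : 0 < Nat.card ψ.range := Nat.card_pos
  exact (Nat.le_of_dvd h3 h2).trans (card_le_card_group _)

/-- The window lemma. -/
theorem KS_win {m₀ : ℕ} {Λ : Finset ℕ} {K : Subgroup Fr} (hK : KS Y m₀ Λ K) {i : ℕ}
    (hi : ¬ Win m₀ Λ (Nat.card Y) i) : FreeGroup.of i ∈ K := by
  induction hK with
  | top => exact mem_top _
  | base N β hN hr hw =>
    exact hw i fun h => hi (Or.inl h)
  | step N β z hN hr hK hz ih =>
    by_cases h : (LS N β z).Nonempty
    · obtain ⟨ψ, h1, h2, h3, h4, h5, h6⟩ := pick_mem h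
      by_cases hiz : i.unpair.1 = z
      · have h7 : FreeGroup.of i = gx z i.unpair.2 := by
          rw [gx, ← hiz, Nat.pair_unpair]
        rw [h7]
        apply h6
        by_contra hcon
        rw [not_le] at hcon
        apply hi
        refine Or.inr ⟨hiz ▸ hz, hcon.trans_le (Nat.log_mono_right ?_)⟩
        rw [← h2]
        exact l_index_le N ψ
      · exact h5 i ih hiz
    · rw [pick, dif_neg h]
      exact mem_top _

theorem RB_win {m₀ : ℕ} {Λ : Finset ℕ} {i : ℕ}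
    (hi : ¬ Win m₀ Λ (Nat.card Y) i) : FreeGroup.of i ∈ RB Y m₀ Λ := by
  rw [RB, mem_sInf]
  intro K hK
  exact KS_win hK hi


theorem KS_finite (m₀ : ℕ) (Λ : Finset ℕ) : {K : Subgroup Fr | KS Y m₀ Λ K}.Finite := by
  obtain ⟨W, hW, -⟩ := exists_window m₀ Λ (Nat.card Y)
  refine ((finite_of_window (Y := Y) W).union (Set.finite_singleton ⊤)).subset ?_
  intro K hK
  rcases KS_mem hK with h | ⟨N, hN, ψ, -, h⟩
  · exact Or.inr h
  · exact Or.inl ⟨fun i hi => KS_win hK fun h' => hi (hW i h'), N, hN.normal, ψ, h⟩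

theorem RB_goodQ {F : Formation} (hY : F.mem Y) (m₀ : ℕ) (Λ : Finset ℕ) :
    GoodQ F (RB Y m₀ Λ) := by
  unfold RB
  refine GoodQ.sInf hY (KS_finite m₀ Λ) ?_
  intro K hK
  rcases KS_mem hK with rfl | ⟨N, hN, ψ, h1, rfl⟩
  · exact GoodQ.top hY
  · exact goodQ_comap hY hN ψ h1

end Pool.Agent.Lib.H65G
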