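import Pool.Agent.Lib.H65G.G1

/-! Chunk L1: existence of lifts with a given letter. -/

set_option autoImplicit false

namespace Pool.Agent.Lib.H65G

open Subgroup Pool.Agent.H69 Pool.Agent.Lib.H65F

/-- PROOF. (Compare `H65F/L1.lean`, `LSet_nonempty`.)  Let `l` be a list for `C ≤ up C` from `exists_list_gen`:
`C ⊔ closure {x | x ∈ l} = up C`, `l.length ≤ Nat.log 2 (C.relIndex (up C))`.  Some `x ∈ l` is not in `C` (otherwise
`closure ≤ C` and `up C = C`).  Define `a : ℕ → X` by `a i := φ (of i)` if `φ (of i) ∉ up C`; otherwise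
`a i := l.getD i.unpair.2 1` if `i.unpair.1 = z` and `a i := 1` if not.  `ψ := FreeGroup.lift a`.
* `(φ f)⁻¹ * ψ f ∈ up C`: `agree_of_gen` (`up_normal`), on generators clear.
* For `j < l.length`: `ψ (gx z j) = l[j]` (`hblk`, `Nat.unpair_pair`), so `closure {x | x ∈ l} ≤ ψ.range` and
  `up C = C ⊔ closure .. ≤ ψ.range ⊔ C`; `ψ.range ⊔ up C = ⊤` by `range_sup_of_agree`; so `ψ.range ⊔ C = ⊤`.
* `gx z j ∉ C.comap ψ` for the `j` with `l[j] ∉ C`.
* `of i ∈ (up C).comap φ`, `i.unpair.1 ≠ z`: `ψ (of i) = 1`.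
* `(C.comap ψ).index = C.relIndex ψ.range = C.index` (`index_comap`, `relIndex_sup_left`-type lemma, `ψ.range ⊔ C = ⊤`, `C` normal; only
  `≥` is needed) and `C.relIndex (up C) ≤ C.index`, so `l.length ≤ Nat.log 2 (C.comap ψ).index ≤ j` gives
  `ψ (gx z j) = l.getD j 1 = 1`. -/
theorem LS_nonempty {X : Type} [Group X] [Finite X] {C : Subgroup X} (hC : C.Normal)
    (hlt : C < up C) (φ : Fr →* X) (hφ : φ.range ⊔ up C = ⊤) (z : ℕ)
    (hblk : ∀ j : ℕ, gx z j ∈ (up C).comap φ) : (LS C φ z).Nonempty := by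
  classical
  obtain ⟨l, hl1, hl2, hl3⟩ := exists_list_gen hlt.le
  set a : ℕ → X := fun i => if φ (FreeGroup.of i) ∈ up C then
    (if i.unpair.1 = z then l.getD i.unpair.2 1 else 1) else φ (FreeGroup.of i) with ha
  set ψ : Fr →* X := FreeGroup.lift a with hψ
  have hof : ∀ i, ψ (FreeGroup.of i) = a i := fun i => FreeGroup.lift_apply_of
  have hgx : ∀ j, ψ (gx z j) = l.getD j 1 := by
    intro j
    have h1 : φ (FreeGroup.of (Nat.pair z j)) ∈ up C := hblk j
    show ψ (FreeGroup.of (Nat.pair z j)) = _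
    rw [hof, ha]
    simp only [h1, if_true, Nat.unpair_pair]
  have hovr : ∀ f, (φ f)⁻¹ * ψ f ∈ up C := by
    refine agree_of_gen (up_normal C) φ ψ fun i => ?_
    rw [hof, ha]
    by_cases h1 : φ (FreeGroup.of i) ∈ up C
    · simp only [h1, if_true]
      refine mul_mem (inv_mem h1) ?_
      split_ifs
      · rw [List.getD_eq_getElem?_getD]
        by_cases h3 : i.unpair.2 < l.length
        · rw [List.getElem?_eq_getElem h3]
          exact hl1 _ (List.getElem_mem h3)
        · rw [List.getElem?_eq_none (not_lt.1 h3)]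
          exact one_mem _
      · exact one_mem _
    · simp only [h1, if_false, inv_mul_cancel]
      exact one_mem _
  have hmem : ∀ x ∈ l, ∃ j, ψ (gx z j) = x := by
    intro x hx
    obtain ⟨j, hj, rfl⟩ := List.getElem_of_mem hx
    refine ⟨j, ?_⟩
    rw [hgx, List.getD_eq_getElem?_getD, List.getElem?_eq_getElem hj]
    rfl
  have hup : up C ≤ ψ.range ⊔ C := by
    rw [← hl2]
    refine sup_le le_sup_right ((closure_le _).2 ?_)
    intro x hx
    obtain ⟨j, hj⟩ := hmem x hx
    exact (le_sup_left : ψ.range ≤ ψ.range ⊔ C) ⟨_, hj⟩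
  have hsurj : ψ.range ⊔ C = ⊤ := by
    have h1 := range_sup_of_agree (up_normal C) φ ψ hovr le_rfl hφ
    rw [eq_top_iff, ← h1]
    exact sup_le le_sup_left hup
  refine ⟨C.comap ψ, ψ, ⟨hsurj, hovr⟩, rfl, hblk, ?_, ?_, ?_⟩
  · by_contra hcon
    push Not at hcon
    have h1 : closure {x | x ∈ l} ≤ C := by
      rw [closure_le]
      intro x hx
      obtain ⟨j, hj⟩ := hmem x hx
      rw [← hj]
      exact hcon j
    rw [sup_eq_left.2 h1] at hl2
    exact hlt.ne hl2
  · intro i hi hne
    have hi' : φ (FreeGroup.of i) ∈ up C := hi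
    rw [mem_comap, hof, ha]
    simp only [hi', if_true, hne, if_false]
    exact one_mem C
  · intro j hj
    have h1 : (C.comap ψ).index = C.index := by
      rw [index_comap, ← relIndex_sup_right, hsurj, relIndex_top_right]
    have h2 : C.relIndex (up C) ≤ C.index := by
      rw [← relIndex_mul_index hlt.le]
      exact Nat.le_mul_of_pos_right _ (Nat.pos_of_ne_zero (index_ne_zero_of_finite))
    have h3 : l.length ≤ j := by
      refine hl3.trans ((Nat.log_mono_right h2).trans ?_)
      rwa [h1] at hj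
    rw [mem_comap, hgx, List.getD_eq_getElem?_getD, List.getElem?_eq_none h3]
    exact one_mem C

end Pool.Agent.Lib.H65G
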