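import Pool.Agent.Lib.H65G.D0
import Pool.Agent.Lib.H65F.L2b

/-! Chunk L2: the sets `LS` depend only on the quotient. -/

set_option autoImplicit false

namespace Pool.Agent.Lib.H65G

open Subgroup Pool.Agent.H69 Pool.Agent.Lib.H65F

variable {X Y T : Type} [Group X] [Group Y] [Group T]

/-- PROOF. Copy of `l2b_sub` in `H65F/L2b.lean` (`l2b_comap_eq` of that file gives
`(up u.ker).comap φ = (up v.ker).comap β`; the four last conditions of `LS` speak only about this subgroup and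
`K`). -/
theorem ls_sub (u : X →* T) (v : Y →* T) (hu : Function.Surjective u)
    (hv : Function.Surjective v) (φ : Fr →* X) (β : Fr →* Y)
    (h : ∀ f, (u (φ f))⁻¹ * v (β f) ∈ up (⊥ : Subgroup T)) (z : ℕ) :
    LS u.ker φ z ⊆ LS v.ker β z := by
  rintro K ⟨ψ, hl, hK, hb1, hb2, hb3, hb4⟩
  obtain ⟨ψ', hψ'⟩ := exists_transfer_hom u v hv ψ
  have hker : v.ker.comap ψ' = u.ker.comap ψ := by
    ext f
    rw [mem_comap, mem_comap, MonoidHom.mem_ker, MonoidHom.mem_ker, hψ']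
  have hc := l2b_comap_eq u v hu hv φ β h
  refine ⟨ψ', ⟨?_, ?_⟩, ?_, ?_, hb2, ?_, hb4⟩
  · rw [eq_top_iff]
    intro t _
    obtain ⟨x, hx⟩ := hu (v t)
    have hx2 : x ∈ ψ.range ⊔ u.ker := by rw [hl.surj]; exact mem_top x
    rw [mem_sup_of_normal_right] at hx2
    obtain ⟨_, ⟨f, rfl⟩, c, hc', rfl⟩ := hx2
    have h1 : v (ψ' f) = v t := by
      rw [hψ', ← hx, map_mul, (MonoidHom.mem_ker).mp hc', mul_one]
    have h2 : (ψ' f)⁻¹ * t ∈ v.ker := by
      rw [MonoidHom.mem_ker, map_mul, map_inv, h1, inv_mul_cancel]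
    have h3 : ψ' f * ((ψ' f)⁻¹ * t) ∈ ψ'.range ⊔ v.ker := mul_mem_sup ⟨f, rfl⟩ h2
    rwa [mul_inv_cancel_left] at h3
  · intro f
    rw [up_ker v hv, mem_comap, map_mul, map_inv, hψ']
    have h1 := hl.ovr f
    rw [up_ker u hu, mem_comap, map_mul, map_inv] at h1
    have := mul_mem (inv_mem (h f)) h1
    rwa [mul_inv_rev, inv_inv, mul_assoc, mul_inv_cancel_left] at this
  · rw [hker, hK]
  · rw [← hc]; exact hb1
  · rw [← hc]; exact hb3

/-- Transfer along a common quotient `T`. -/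
theorem LS_transfer (u : X →* T) (v : Y →* T) (hu : Function.Surjective u)
    (hv : Function.Surjective v) (φ : Fr →* X) (β : Fr →* Y)
    (h : ∀ f, (u (φ f))⁻¹ * v (β f) ∈ up (⊥ : Subgroup T)) (z : ℕ) :
    LS u.ker φ z = LS v.ker β z := by
  apply Set.Subset.antisymm (ls_sub u v hu hv φ β h z)
  apply ls_sub v u hv hu β φ
  intro f
  have := inv_mem (h f)
  rwa [mul_inv_rev, inv_inv] at this

end Pool.Agent.Lib.H65G
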