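import Pool.Agent.Lib.H65G.D0

/-! Chunk L3c: compatibility of the homomorphisms `hs A h₀ g C`. -/

set_option autoImplicit false

namespace Pool.Agent.Lib.H65G

open Subgroup Pool.Agent.H69 Pool.Agent.Lib.H65F

variable {X : Type} [Group X] [Finite X] {A : Subgroup X} {h₀ : Fr →* X}

/-- No condition on `g` and `h₀` is needed here.
PROOF. As `hs_compat` in `H65F/L3b.lean`: well-founded induction on `C` upwards, for all `M`.  `M = C`: trivial.  `M = ⊤`: trivial.
Otherwise `C < M`, `up C ≤ M` (`up_le`).  If `A ≤ C` both are `h₀`.  Otherwise `hs A h₀ g C = ex C (hs A h₀ g (up C)) (g C)` (`hs_eq`), so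
`(hs A h₀ g (up C) f)⁻¹ * hs A h₀ g C f ∈ up C ≤ M` (`ex_ovr`), and by induction (`up C ≤ M ≠ ⊤` so `up C ≠ ⊤`, a `UNode`)
`(hs A h₀ g M f)⁻¹ * hs A h₀ g (up C) f ∈ M`; multiply. -/
theorem hs_compat (A : Subgroup X) (h₀ : Fr →* X) (g : Subgroup X → ℕ) {C : Subgroup X}
    (hC : UNode C) {M : Subgroup X} (hM : M.Normal) (h : C ≤ M) (f : Fr) :
    (hs A h₀ g M f)⁻¹ * hs A h₀ g C f ∈ M := by
  induction C using (wellFounded_gt (α := Subgroup X)).induction with
  | _ C ih =>
    rcases eq_or_lt_of_le h with he | hlt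
    · rw [he, inv_mul_cancel]; exact one_mem _
    · by_cases hA : A ≤ C
      · rw [hs_base A h₀ g hA, hs_base A h₀ g (hA.trans h), inv_mul_cancel]
        exact one_mem _
      · have hle : up C ≤ M := up_le hM hlt
        have h1 : (hs A h₀ g (up C) f)⁻¹ * hs A h₀ g C f ∈ M := by
          rw [hs_eq A h₀ g hA hC.isNode.lt_up]
          exact hle (ex_ovr C _ _ f)
        by_cases ht : up C = ⊤
        · rw [ht, top_le_iff] at hle
          rw [hle]; exact mem_top _
        · have h2 := ih (up C) hC.isNode.lt_up (hC.up_unode ht) hle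
          have := mul_mem h2 h1
          rwa [mul_assoc, mul_inv_cancel_left] at this

/-- PROOF. As in `H65F/L3b.lean`: if `A ≤ C` both are `h₀` (`hs_base`); otherwise `hs_eq` for both and induction for `up C`
(if `up C = ⊤` both are `h₀` by `hs_base`). -/
theorem hs_congr (A : Subgroup X) (h₀ : Fr →* X) (g g' : Subgroup X → ℕ) {C : Subgroup X}
    (hC : UNode C) (h : ∀ M : Subgroup X, UNode M → C ≤ M → g M = g' M) :
    hs A h₀ g C = hs A h₀ g' C := by
  induction C using (wellFounded_gt (α := Subgroup X)).induction with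
  | _ C ih =>
    by_cases hA : A ≤ C
    · rw [hs_base A h₀ g hA, hs_base A h₀ g' hA]
    · have hlt : C < up C := hC.isNode.lt_up
      have hup : hs A h₀ g (up C) = hs A h₀ g' (up C) := by
        by_cases ht : up C = ⊤
        · rw [ht, hs_base A h₀ g le_top, hs_base A h₀ g' le_top]
        · exact ih (up C) hlt (hC.up_unode ht) fun M hM hle => h M hM (hlt.le.trans hle)
      rw [hs_eq A h₀ g hA hlt, hs_eq A h₀ g' hA hlt, hup, h C hC le_rfl]

end Pool.Agent.Lib.H65G
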