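import Pool.Agent.Lib.H65G.L1

/-! Chunk L3a: the homomorphisms `hs A h₀ g C`. -/

set_option autoImplicit false

namespace Pool.Agent.Lib.H65G

open Subgroup Pool.Agent.H69 Pool.Agent.Lib.H65F

variable {X : Type} [Group X] [Finite X] {A : Subgroup X} {h₀ : Fr →* X}

/-- Properties of `hs A h₀ g C`; the last part says that unused blocks are killed.
PROOF. Well-founded induction on `C` upwards (as in `H65F/L3.lean`).  If `A ≤ C`: `hs A h₀ g C = h₀` (`hs_base`),
`h₀.range ⊔ C = ⊤` (`hd.surj`, `A ≤ C`), the second part is void, the third: `h₀ (gx z j) = 1 ∈ C`.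
If `¬ A ≤ C`: `φ := hs A h₀ g (up C)`, `C < up C` (`UNode.isNode`).  `φ.range ⊔ up C = ⊤`, and for every `z` with
`h₀ (gx z j) = 1` for all `j` and `g M ≠ z` for all `UNode` `M ≥ up C`: `gx z j ∈ (up C).comap φ` (both by
induction if `up C ≠ ⊤` (`UNode.up_unode`), trivial if `up C = ⊤`).  For `z := g C`: `hg.blk`, and `g M = g C` would give
`M = C` (`hg.inj`), but `C < up C ≤ M`.  So `LS C φ (g C)` is nonempty (`LS_nonempty`), and `hs_eq`, `ex_spec`, `pick_mem` give the
second part and the first (`IsLift.surj`).  Third part: `z ≠ g C` (hypothesis for `M := C`), `gx z j ∈ (up C).comap φ` as above,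
`(Nat.pair z j).unpair.1 = z ≠ g C` (`Nat.unpair_pair`), so `gx z j ∈ K` by the third condition in `LS`. -/
theorem hs_spec_blk (hd : Dat A h₀) {g : Subgroup X → ℕ} (hg : GoodL h₀ g) {C : Subgroup X}
    (hC : UNode C) :
    (hs A h₀ g C).range ⊔ C = ⊤ ∧
    (¬ A ≤ C → IsLift C (hs A h₀ g (up C)) (hs A h₀ g C) ∧
      C.comap (hs A h₀ g C) = pick (LS C (hs A h₀ g (up C)) (g C)) ∧
      C.comap (hs A h₀ g C) ∈ LS C (hs A h₀ g (up C)) (g C)) ∧
    ∀ z : ℕ, (∀ j, h₀ (gx z j) = 1) → (∀ M : Subgroup X, UNode M → C ≤ M → g M ≠ z) →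
      ∀ j, gx z j ∈ C.comap (hs A h₀ g C) := by
  induction C using (wellFounded_gt (α := Subgroup X)).induction with
  | _ C ih =>
    have hlt : C < up C := hC.isNode.lt_up
    by_cases hA : A ≤ C
    · rw [hs_base A h₀ g hA]
      refine ⟨?_, fun h => absurd hA h, ?_⟩
      · rw [← top_le_iff, ← hd.surj]
        exact sup_le_sup_left hA _
      · intro z hz _ j
        rw [mem_comap, hz j]
        exact one_mem _
    · have hup : (hs A h₀ g (up C)).range ⊔ up C = ⊤ ∧
          ∀ z : ℕ, (∀ j, h₀ (gx z j) = 1) → (∀ M : Subgroup X, UNode M → up C ≤ M → g M ≠ z) →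
            ∀ j, gx z j ∈ (up C).comap (hs A h₀ g (up C)) := by
        by_cases ht : up C = ⊤
        · rw [ht]
          refine ⟨sup_top_eq _, fun z _ _ j => ?_⟩
          rw [comap_top]
          exact mem_top _
        · obtain ⟨h1, -, h3⟩ := ih (up C) hlt (hC.up_unode ht)
          exact ⟨h1, h3⟩
      have hgC : ∀ j, gx (g C) j ∈ (up C).comap (hs A h₀ g (up C)) := by
        refine hup.2 (g C) (hg.blk C) fun M _ hM he => ?_
        rw [hg.inj he] at hM
        exact hlt.not_ge hM
      have hne := LS_nonempty hC.normal hlt _ hup.1 (g C) hgC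
      obtain ⟨h1, h2⟩ := ex_spec hne
      have heq := hs_eq A h₀ g hA hlt
      have hmem : C.comap (hs A h₀ g C) ∈ LS C (hs A h₀ g (up C)) (g C) := by
        rw [heq, h2]
        exact pick_mem hne
      refine ⟨?_, fun _ => ⟨?_, ?_, hmem⟩, ?_⟩
      · rw [heq]
        exact h1.surj
      · rw [heq]
        exact h1
      · rw [heq]
        exact h2
      · intro z hz hM j
        obtain ⟨ψ, -, -, -, -, h5, -⟩ := hmem
        refine h5 (Nat.pair z j) ?_ ?_
        · exact hup.2 z hz (fun M hM1 hM2 => hM M hM1 (hlt.le.trans hM2)) j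
        · rw [Nat.unpair_pair]
          exact fun h => hM C hC le_rfl h.symm

/-- The same for `up C`, which is a `UNode` or `⊤`. -/
theorem hs_up_surj (hd : Dat A h₀) {g : Subgroup X → ℕ} (hg : GoodL h₀ g) {C : Subgroup X}
    (hC : UNode C) : (hs A h₀ g (up C)).range ⊔ up C = ⊤ := by
  by_cases ht : up C = ⊤
  · rw [ht]
    exact sup_top_eq _
  · exact (hs_spec_blk hd hg (hC.up_unode ht)).1

end Pool.Agent.Lib.H65G
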