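import Pool.Agent.Lib.H65G.L3

/-! Chunk L3b: kernels of the homomorphisms `hs A h₀ g C`. -/

set_option autoImplicit false

namespace Pool.Agent.Lib.H65G

open Subgroup Pool.Agent.H69 Pool.Agent.Lib.H65F

variable {X : Type} [Group X] [Finite X] {A : Subgroup X} {h₀ : Fr →* X}

theorem comap_hs_eq (A : Subgroup X) (h₀ : Fr →* X) (g : Subgroup X → ℕ) {C : Subgroup X}
    (hC : UNode C) {M : Subgroup X}
    (hM : M.Normal) (h : C ≤ M) : M.comap (hs A h₀ g M) = M.comap (hs A h₀ g C) :=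
  comap_eq_of_agree _ _ (fun f => hs_compat A h₀ g hC hM h f) le_rfl

theorem unode_comap_hs (hd : Dat A h₀) {g : Subgroup X → ℕ} (hg : GoodL h₀ g) {C : Subgroup X}
    (hC : UNode C) : UNode (C.comap (hs A h₀ g C)) :=
  (unode_comap_iff hC.normal (hs A h₀ g C) (hs_spec_blk hd hg hC).1).mpr hC

/-- Normal subgroups of the free group above a kernel are kernels (or `⊤`). -/
theorem exists_of_comap_hs_le (hd : Dat A h₀) {g : Subgroup X → ℕ} (hg : GoodL h₀ g)
    {C : Subgroup X} (hC : UNode C)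
    {K : Subgroup Fr} (hK : K.Normal) (hle : C.comap (hs A h₀ g C) ≤ K) (hne : K ≠ ⊤) :
    ∃ M : Subgroup X, UNode M ∧ C ≤ M ∧ M.comap (hs A h₀ g M) = K := by
  obtain ⟨M, hM, hCM, hMK⟩ :=
    exists_eq_comap hC.normal (hs A h₀ g C) (hs_spec_blk hd hg hC).1 hK hle
  have hMt : M ≠ ⊤ := by
    rintro rfl
    rw [comap_top] at hMK
    exact hne hMK.symm
  refine ⟨M, hC.mono hM hCM hMt, hCM, ?_⟩
  rw [comap_hs_eq A h₀ g hC hM hCM, hMK]

end Pool.Agent.Lib.H65G
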