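import Pool.Agent.Lib.H65G.L3b

/-! Chunk L4: the kernels are pairwise distinct. -/

set_option autoImplicit false

namespace Pool.Agent.Lib.H65G

open Subgroup Pool.Agent.H69 Pool.Agent.Lib.H65F

variable {X : Type} [Group X] [Finite X] {A : Subgroup X} {h₀ : Fr →* X}

/-- PROOF. Let `K := C.comap (hs A h₀ g C)`.
Case `¬ A ≤ C`: `K ∈ LS ..` (`hs_spec_blk`, second part) gives `j` with `gx (g C) j ∉ K`.  If `¬ C' ≤ C`, then `g M ≠ g C` for all
`UNode` `M ≥ C'` (otherwise `M = C` by `hg.inj`, `C' ≤ C`), so by the third part of `hs_spec_blk` for `C'` (`hg.blk C`)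
`gx (g C) j ∈ C'.comap (hs A h₀ g C') = K`, contradiction.
Case `A ≤ C`, `¬ A ≤ C'`: `gx (g C') j ∉ C'.comap (hs ..) = K` for some `j`, but `hs A h₀ g C = h₀` (`hs_base`) and
`h₀ (gx (g C') j) = 1 ∈ C` (`hg.blk`), contradiction.
Case `A ≤ C`, `A ≤ C'`: `C.comap h₀ = C'.comap h₀`.  For `c' ∈ C'` write `c' = h₀ f * a`, `a ∈ A` (`n3_decomp`, or `hd.surj` with
`mem_sup_of_normal_right`, `hd.normal`); `h₀ f ∈ C'`, so `f ∈ C'.comap h₀ = C.comap h₀`, `h₀ f ∈ C`, `c' ∈ C`. -/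
theorem le_of_hs_ker_eq (hd : Dat A h₀) {g : Subgroup X → ℕ} (hg : GoodL h₀ g)
    {C C' : Subgroup X} (hC : UNode C) (hC' : UNode C')
    (h : C.comap (hs A h₀ g C) = C'.comap (hs A h₀ g C')) : C' ≤ C := by
  by_cases hAC : A ≤ C
  · by_cases hAC' : A ≤ C'
    · rw [hs_base A h₀ g hAC, hs_base A h₀ g hAC'] at h
      have hn := hd.normal
      intro c hc
      have h1 : c ∈ h₀.range ⊔ A := by rw [hd.surj]; exact mem_top c
      rw [mem_sup_of_normal_right] at h1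
      obtain ⟨y, ⟨f, rfl⟩, a, ha, rfl⟩ := h1
      have h2 : h₀ f ∈ C' := by
        have := mul_mem hc (inv_mem (hAC' ha))
        rwa [mul_inv_cancel_right] at this
      have h3 : f ∈ C.comap h₀ := by rw [h]; exact h2
      exact mul_mem h3 (hAC ha)
    · exfalso
      obtain ⟨-, hspec, -⟩ := hs_spec_blk hd hg hC'
      obtain ⟨ψ, -, -, -, ⟨j, hj⟩, -, -⟩ := (hspec hAC').2.2
      apply hj
      rw [← h, hs_base A h₀ g hAC, mem_comap, hg.blk]
      exact one_mem C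
  · by_contra hCC
    obtain ⟨-, hspec, -⟩ := hs_spec_blk hd hg hC
    obtain ⟨ψ, -, -, -, ⟨j, hj⟩, -, -⟩ := (hspec hAC).2.2
    apply hj
    rw [h]
    refine (hs_spec_blk hd hg hC').2.2 (g C) (hg.blk C) (fun M _ hM he => ?_) j
    rw [hg.inj he] at hM
    exact hCC hM

theorem hs_ker_inj (hd : Dat A h₀) {g : Subgroup X → ℕ} (hg : GoodL h₀ g) {C C' : Subgroup X}
    (hC : UNode C) (hC' : UNode C') (h : C.comap (hs A h₀ g C) = C'.comap (hs A h₀ g C')) :
    C = C' :=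
  le_antisymm (le_of_hs_ker_eq hd hg hC' hC h.symm) (le_of_hs_ker_eq hd hg hC hC' h)

theorem le_of_comap_hs_le (hd : Dat A h₀) {g : Subgroup X → ℕ} (hg : GoodL h₀ g)
    {C C' : Subgroup X} (hC : UNode C) (hC' : UNode C')
    (h : C.comap (hs A h₀ g C) ≤ C'.comap (hs A h₀ g C')) : C ≤ C' := by
  have hu := unode_comap_hs hd hg hC'
  obtain ⟨M, hM, hCM, hMe⟩ := exists_of_comap_hs_le hd hg hC hu.normal h hu.ne_top
  rw [← hs_ker_inj hd hg hM hC' hMe]
  exact hCM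

end Pool.Agent.Lib.H65G
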