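import Pool.Agent.Lib.H65G.L4

/-! Chunk L5: the homomorphism `hh A h₀ g`. -/

set_option autoImplicit false

namespace Pool.Agent.Lib.H65G

open Subgroup Pool.Agent.H69 Pool.Agent.Lib.H65F

variable {X : Type} [Group X] [Finite X] {A : Subgroup X} {h₀ : Fr →* X}

theorem l5_ex (hX : Sep X) (A : Subgroup X) (h₀ : Fr →* X) (g : Subgroup X → ℕ) :
    ∃ u : Fr →* X, ∀ C : Subgroup X, UNode C → ∀ f : Fr, (u f)⁻¹ * hs A h₀ g C f ∈ C := by
  classical
  letI := Fintype.ofFinite (Subgroup X)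
  have h1 : ∀ f : Fr, ∃ γ : X, ∀ N ∈ Finset.univ.filter (fun C : Subgroup X => UNode C),
      γ⁻¹ * hs A h₀ g N f ∈ N := by
    intro f
    refine crt _ (fun N hN => (Finset.mem_filter.mp hN).2)
      (fun N hN M hM hNM hne => Finset.mem_filter.mpr
        ⟨Finset.mem_univ _, ((Finset.mem_filter.mp hN).2).mono hM hNM hne⟩)
      (fun N => hs A h₀ g N f) (fun N hN M hM hNM => ?_)
    have h2 := hs_compat A h₀ g (Finset.mem_filter.mp hN).2
      ((Finset.mem_filter.mp hM).2).normal hNM f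
    have h3 := inv_mem h2
    rw [mul_inv_rev, inv_inv] at h3
    exact h3
  choose γ hγ using h1
  have hγ' : ∀ C, UNode C → ∀ f, (γ f)⁻¹ * hs A h₀ g C f ∈ C := fun C hC f =>
    hγ f C (Finset.mem_filter.mpr ⟨Finset.mem_univ _, hC⟩)
  have hmul : ∀ f f', γ (f * f') = γ f * γ f' := by
    intro f f'
    have h4 : (γ (f * f'))⁻¹ * (γ f * γ f') = 1 := by
      apply hX
      intro C hC
      have hCn := hC.normal
      have a := hγ' C hC (f * f')
      have b := hγ' C hC f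
      have c := hγ' C hC f'
      rw [map_mul] at a
      have d : (γ f * γ f')⁻¹ * (hs A h₀ g C f * hs A h₀ g C f') ∈ C := by
        have e : (γ f * γ f')⁻¹ * (hs A h₀ g C f * hs A h₀ g C f') =
            ((γ f')⁻¹ * ((γ f)⁻¹ * hs A h₀ g C f) * (γ f')⁻¹⁻¹) *
              ((γ f')⁻¹ * hs A h₀ g C f') := by group
        rw [e]
        exact mul_mem (hCn.conj_mem _ b _) c
      have e : (γ (f * f'))⁻¹ * (γ f * γ f') =
          ((γ (f * f'))⁻¹ * (hs A h₀ g C f * hs A h₀ g C f')) *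
          ((γ f * γ f')⁻¹ * (hs A h₀ g C f * hs A h₀ g C f'))⁻¹ := by group
      rw [e]
      exact mul_mem a (inv_mem d)
    rw [inv_mul_eq_one] at h4
    exact h4
  exact ⟨MonoidHom.mk' γ hmul, hγ'⟩

theorem hh_spec (hX : Sep X) (A : Subgroup X) (h₀ : Fr →* X) (g : Subgroup X → ℕ)
    {C : Subgroup X} (hC : UNode C) (f : Fr) : (hh A h₀ g f)⁻¹ * hs A h₀ g C f ∈ C := by
  rw [hh, dif_pos (l5_ex hX A h₀ g)]
  exact (l5_ex hX A h₀ g).choose_spec C hC f

theorem comap_hh_eq (hX : Sep X) (A : Subgroup X) (h₀ : Fr →* X) (g : Subgroup X → ℕ)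
    {C : Subgroup X} (hC : UNode C) : C.comap (hh A h₀ g) = C.comap (hs A h₀ g C) :=
  comap_eq_of_agree (hh A h₀ g) (hs A h₀ g C) (fun f => hh_spec hX A h₀ g hC f) le_rfl

theorem hh_surj (hX : Sep X) (hd : Dat A h₀) {g : Subgroup X → ℕ} (hg : GoodL h₀ g) :
    Function.Surjective (hh A h₀ g) := by
  classical
  intro t
  letI := Fintype.ofFinite (Subgroup X)
  have hf : ∀ C : Subgroup X, UNode C → ∃ f : Fr, (hs A h₀ g C f)⁻¹ * t ∈ C := by
    intro C hC
    have h1 := (hs_spec_blk hd hg hC).1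
    have h2 : t ∈ (hs A h₀ g C).range ⊔ C := h1 ▸ mem_top t
    haveI := hC.normal
    obtain ⟨a, ha, c, hc, hac⟩ := Subgroup.mem_sup_of_normal_right.1 h2
    obtain ⟨f, rfl⟩ := ha
    refine ⟨f, ?_⟩
    rw [← hac, inv_mul_cancel_left]
    exact hc
  choose! fC hfC using hf
  let V : Finset (Subgroup Fr) :=
    (Finset.univ.filter fun C : Subgroup X => UNode C).image fun C => C.comap (hs A h₀ g C)
  have hV : ∀ K, K ∈ V ↔ ∃ C : Subgroup X, UNode C ∧ C.comap (hs A h₀ g C) = K := by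
    intro K
    simp only [V, Finset.mem_image, Finset.mem_filter, Finset.mem_univ, true_and]
  let x : Subgroup Fr → Fr := fun K =>
    if h : ∃ C : Subgroup X, UNode C ∧ C.comap (hs A h₀ g C) = K then fC h.choose else 1
  have hx : ∀ C : Subgroup X, UNode C → x (C.comap (hs A h₀ g C)) = fC C := by
    intro C hC
    have hex : ∃ C' : Subgroup X, UNode C' ∧ C'.comap (hs A h₀ g C') =
      C.comap (hs A h₀ g C) := ⟨C, hC, rfl⟩
    have h1 : x (C.comap (hs A h₀ g C)) = fC hex.choose := dif_pos hex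
    rw [h1, hs_ker_inj hd hg hex.choose_spec.1 hC hex.choose_spec.2]
  obtain ⟨γ, hγ⟩ := crt V (by
      intro K hK
      obtain ⟨C, hC, rfl⟩ := (hV K).1 hK
      exact unode_comap_hs hd hg hC) (by
      intro K hK M hM hle hne
      obtain ⟨C, hC, rfl⟩ := (hV K).1 hK
      obtain ⟨C', hC', -, he⟩ := exists_of_comap_hs_le hd hg hC hM hle hne
      exact (hV M).2 ⟨C', hC', he⟩) x (by
      intro K hK M hM hle
      obtain ⟨C, hC, rfl⟩ := (hV K).1 hK
      obtain ⟨C', hC', rfl⟩ := (hV M).1 hM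
      rw [hx C hC, hx C' hC']
      have h1 : C ≤ C' := le_of_comap_hs_le hd hg hC hC' hle
      have h2 := hs_compat A h₀ g hC hC'.normal h1 (fC C)
      have h3 := h1 (hfC C hC)
      have h4 := hfC C' hC'
      rw [mem_comap, map_mul, map_inv]
      have h5 : (hs A h₀ g C' (fC C))⁻¹ * hs A h₀ g C' (fC C') =
          ((hs A h₀ g C' (fC C))⁻¹ * hs A h₀ g C (fC C)) * ((hs A h₀ g C (fC C))⁻¹ * t) *
            ((hs A h₀ g C' (fC C'))⁻¹ * t)⁻¹ := by group
      rw [h5]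
      exact mul_mem (mul_mem h2 h3) (inv_mem h4))
  refine ⟨γ, ?_⟩
  have key : (hh A h₀ g γ)⁻¹ * t = 1 := by
    refine hX _ fun C hC => ?_
    have h1 := hh_spec hX A h₀ g hC γ
    have h2 := hγ (C.comap (hs A h₀ g C)) ((hV _).2 ⟨C, hC, rfl⟩)
    rw [hx C hC, mem_comap, map_mul, map_inv] at h2
    have h3 := hfC C hC
    have h4 : (hh A h₀ g γ)⁻¹ * t = ((hh A h₀ g γ)⁻¹ * hs A h₀ g C γ) *
        ((hs A h₀ g C γ)⁻¹ * hs A h₀ g C (fC C)) * ((hs A h₀ g C (fC C))⁻¹ * t) := by group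
    rw [h4]
    exact mul_mem (mul_mem h1 h2) h3
  exact inv_mul_eq_one.1 key

end Pool.Agent.Lib.H65G
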