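import Pool.Agent.Lib.H65G.R5d
import Pool.Agent.Lib.H65G.E3
import Pool.Agent.Lib.H65G.E7

/-! The three parts of the final theorem. -/

set_option autoImplicit false

namespace Pool.Agent.Lib.H65G

open Subgroup Pool.Agent.H69 Pool.Agent.Lib.H65F

theorem main3 :
    (∀ (G : Type) [Group G], (Formation.gen SL25).mem G → TestAbelian G ∧ TestTower G) ∧
    ¬ ∀ H : Formation, H.Sub (Formation.gen SL25) → H.NormallyClosed :=
  example_dbl dbl_sl25

end Pool.Agent.Lib.H65G
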