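import Pool.Agent.Lib.H65G.D0
import Pool.Agent.Lib.H65G.G1
import Pool.Agent.Lib.H69.Formation.Basic

/-! Chunk R0: the relatively free groups. -/

set_option autoImplicit false

namespace Pool.Agent.Lib.H65G

open Subgroup Pool.Agent.H69 Pool.Agent.Lib.H65F

/-- PROOF. There are finitely many homomorphisms `FreeGroup (Fin n) →* G` (`FreeGroup.lift` is an equivalence with
`Fin n → G`).  `RelFree n G` embeds in the finite group `{φ // Surjective φ} → G` (`Finite.of_injective` with the map induced by
`MonoidHom.pi (fun φ => φ.1)`, whose kernel is `relKer n G`; or `MonoidHom.pi ..`, `QuotientGroup.quotientKerEquivRange`). -/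
theorem relFree_finite (n : ℕ) (G : Type) [Group G] [Finite G] : Finite (RelFree n G) := by
  haveI : Finite (FreeGroup (Fin n) →* G) := Finite.of_equiv (Fin n → G) FreeGroup.lift
  let Φ : RelFree n G →* ({φ : FreeGroup (Fin n) →* G // Function.Surjective φ} → G) :=
    QuotientGroup.lift (relKer n G) (MonoidHom.pi fun φ => φ.1) (fun x hx => by
      funext φ
      exact (Subgroup.mem_iInf.mp hx φ))
  apply Finite.of_injective Φ
  rw [injective_iff_map_eq_one]
  intro x
  induction x using QuotientGroup.induction_on with
  | H x =>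
    intro hx
    rw [QuotientGroup.eq_one_iff]
    refine Subgroup.mem_iInf.mpr fun φ => ?_
    exact congrFun hx φ

/-- PROOF. Let `F'` be a formation with `F'.mem G`.  `F'.mem_of_family` with the family of all epimorphisms `φ`,
`f φ := QuotientGroup.lift (relKer n G) φ.1 _ : RelFree n G →* G` (`iInf_le`), jointly injective by definition of `relKer`.
(`relFree_finite`.) -/
theorem relFree_inForm (n : ℕ) (G : Type) [Group G] [Finite G] : InForm G (RelFree n G) := by
  intro F hF
  haveI := relFree_finite n G
  refine F.mem_of_family hF (ι := {φ : FreeGroup (Fin n) →* G // Function.Surjective φ})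
    (fun _ => G)
    (fun φ => QuotientGroup.lift (relKer n G) φ.1 (fun x hx => Subgroup.mem_iInf.mp hx φ))
    (fun φ => ?_) (fun _ => hF) ?_
  · intro g
    obtain ⟨x, hx⟩ := φ.2 g
    exact ⟨QuotientGroup.mk x, hx⟩
  · intro g
    induction g using QuotientGroup.induction_on with
    | H x =>
      intro hx
      rw [QuotientGroup.eq_one_iff]
      exact Subgroup.mem_iInf.mpr fun φ => hx φ

theorem r0_relKer_le (n : ℕ) {G G' : Type} [Group G] [Group G'] (e : G ≃* G') :
    relKer n G ≤ relKer n G' := by
  intro x hx
  refine Subgroup.mem_iInf.mpr fun φ => ?_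
  have h1 : Function.Surjective (e.symm.toMonoidHom.comp φ.1) :=
    e.symm.surjective.comp φ.2
  have h2 := Subgroup.mem_iInf.mp hx ⟨_, h1⟩
  rw [MonoidHom.mem_ker] at h2 ⊢
  have h3 : e.symm (φ.1 x) = 1 := h2
  exact (MulEquiv.map_eq_one_iff e.symm).mp h3

/-- PROOF. `φ ↦ e.toMonoidHom.comp φ` is a bijection of the sets of epimorphisms which preserves kernels, so the two subgroups
`relKer` are equal. -/
theorem relKer_congr (n : ℕ) {G G' : Type} [Group G] [Group G'] (e : G ≃* G') :
    relKer n G = relKer n G' :=
  le_antisymm (r0_relKer_le n e) (r0_relKer_le n e.symm)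

end Pool.Agent.Lib.H65G
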