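import Pool.Agent.Lib.H65G.R0
import Pool.Agent.Lib.H65G.B2
import Pool.Agent.Lib.H65G.A6d
import Pool.Agent.Lib.H65F.R2
import Pool.Agent.Lib.H65F.R2b
import Pool.Agent.Lib.H65F.R3

/-! Chunk R3: Theorems A and B in terms of `form(G₀)`, and MAIN 1. -/

set_option autoImplicit false

namespace Pool.Agent.Lib.H65G

open Subgroup Pool.Agent.H69 Pool.Agent.Lib.H65F

/-- Theorem B. -/
theorem thmB {F : Formation} (h1 : CondAbelian F) (h2 : CondTower' F) {G₀ E : Type} [Group G₀]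
    [Group E] (hG₀ : F.mem G₀) (hE : _root_.commutator E = ⊤) (h : InForm G₀ E) {m₀ n : ℕ}
    (hm : GenBy m₀ E)
    (hn : m₀ + (Nat.log 2 (Nat.card ↥(pr G₀)) + 1) ^ 2 * Nat.log 2 (Nat.card ↥(pr G₀)) ≤ n) :
    ∃ f : RelFree n ↥(pr G₀) →* E, Function.Surjective f := by
  have := F.finite G₀ hG₀
  obtain ⟨D, _, _, I, _, π, p, hπ, inj, hp⟩ := exists_data hE h
  have : Finite E := Finite.of_surjective p hp
  refine thmB_sys (mkSys h1 h2 (pr_perfect G₀).2 hE (pr_quot_mem h1 h2 hG₀) π hπ inj p hp) hm ?_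
  refine le_trans ?_ hn
  have h3 : Nat.card (↥(pr G₀) ⧸ center ↥(pr G₀)) ≤ Nat.card ↥(pr G₀) :=
    Nat.card_le_card_of_surjective _ (QuotientGroup.mk'_surjective (center ↥(pr G₀)))
  have h4 := Nat.log_mono_right (b := 2) h3
  exact Nat.add_le_add_left (Nat.mul_le_mul (Nat.pow_le_pow_left (Nat.add_le_add_right h4 1) 2) h4) _

theorem mB_mono {y y' : ℕ} (h : y ≤ y') : mB y ≤ mB y' := by
  unfold mB
  have h4 := Nat.log_mono_right (b := 2) h
  exact Nat.mul_le_mul (Nat.add_le_add (Nat.pow_le_pow_left (Nat.add_le_add_right h4 1) 2)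
    (Nat.mul_le_mul_left 2 h4)) h4

/-- Theorem A. -/
theorem thmA {F : Formation} (h1 : CondAbelian F) (h2 : CondTower' F) {G₀ G : Type} [Group G₀]
    [Group G] (hG₀ : F.mem G₀) (hG : _root_.commutator G = ⊤) (h : InForm G₀ G) (H : Formation)
    (hH : ∀ (Q : Type) [Group Q] [Finite Q], InForm G Q → _root_.commutator Q = ⊤ →
      GenBy (mB (Nat.card ↥(pr G₀))) Q → H.mem Q) : H.mem G := by
  have := F.finite G₀ hG₀
  obtain ⟨D, _, _, I, _, π, p, hπ, inj, hp⟩ := exists_data hG h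
  have : Finite G := Finite.of_surjective p hp
  refine thmA_sys (mkSys h1 h2 (pr_perfect G₀).2 hG (pr_quot_mem h1 h2 hG₀) π hπ inj p hp)
    fun Q _ _ q1 q2 q3 => hH Q q1 q2 (q3.mono (mB_mono ?_))
  exact Nat.card_le_card_of_surjective _ (QuotientGroup.mk'_surjective (center ↥(pr G₀)))

/-- Arithmetic for MAIN 1 and MAIN 2. -/
theorem rk_bound1 {e y : ℕ} (h : Nat.log 2 e ≤ Nat.log 2 y) :
    Nat.log 2 e + (Nat.log 2 y + 1) ^ 2 * Nat.log 2 y ≤ rk y := by
  unfold rk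
  generalize Nat.log 2 y = L at *
  generalize Nat.log 2 e = l at *
  nlinarith [Nat.zero_le (L ^ 3), Nat.zero_le (L ^ 2), Nat.zero_le L]

theorem rk_bound2 (y : ℕ) : mB y + (Nat.log 2 y + 1) ^ 2 * Nat.log 2 y ≤ rk y := by
  unfold rk mB
  generalize Nat.log 2 y = L
  nlinarith [Nat.zero_le (L ^ 3), Nat.zero_le (L ^ 2), Nat.zero_le L]

/-- Test (c) for one group. -/
def TestPerf (G : Type) [Group G] : Prop :=
  _root_.commutator G = ⊤ → ∀ C : Subgroup G, IsMinNormal C →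
    (∀ B : Subgroup G, IsMinNormal B → B = C) → C ≤ center G →
    ∀ E : Subgroup G, E.Normal → _root_.commutator E = ⊤ →
      ∃ f : RelFree (rk (Nat.card G)) G →* E, Function.Surjective f

end Pool.Agent.Lib.H65G
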