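import Pool.Agent.Lib.H65G.R3
import Pool.Agent.Lib.H65F.R3b

/-! Chunk R3b: MAIN 1. -/

set_option autoImplicit false

namespace Pool.Agent.Lib.H65G

open Subgroup Pool.Agent.H69 Pool.Agent.Lib.H65F

/-- MAIN 1. -/
theorem main1 (F : Formation) : (∀ H : Formation, H.Sub F → H.NormallyClosed) ↔
    ∀ (G : Type) [Group G], F.mem G → TestAbelian G ∧ TestTower G ∧ TestPerf G := by
  constructor
  · intro h
    have h0 : Prop0 F := (all_sub_normallyClosed_iff F).mp h
    have h1 : CondAbelian F := condAbelian_of_prop0 h0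
    have h2 : CondTower F := condTower_of_prop0 h0
    intro G _ hG
    have := F.finite G hG
    refine ⟨h1 G hG, h2 G hG, ?_⟩
    intro hp C _ _ _ E hE hEp
    have e : ↥(pr G) ≃* G := (MulEquiv.subgroupCongr (pr_eq_top hp)).trans topEquiv
    have hc : Nat.card ↥(pr G) = Nat.card G := Nat.card_congr e.toEquiv
    have hB := thmB h1 ((condTower_iff F).mp h2) hG hEp (h0 G E hE hG)
      (n := rk (Nat.card G)) (genBy_of_card (Q := ↥E) le_rfl) (by
        rw [hc]
        exact rk_bound1 (Nat.log_mono_right E.card_le_card_group))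
    obtain ⟨f, hf⟩ := hB
    have hk : relKer (rk (Nat.card G)) G ≤ relKer (rk (Nat.card G)) ↥(pr G) :=
      (relKer_congr _ e).ge
    refine ⟨f.comp (QuotientGroup.map _ _ (MonoidHom.id _) (by rw [comap_id]; exact hk)), ?_⟩
    refine hf.comp ?_
    intro q
    obtain ⟨x, rfl⟩ := QuotientGroup.mk_surjective q
    exact ⟨QuotientGroup.mk x, rfl⟩
  · intro h
    rw [classification]
    refine ⟨fun G _ hG => (h G hG).1, fun G _ hG => (h G hG).2.1, ?_⟩
    intro G _ hG hp C hC hCu hCc E hE hEE
    have := F.finite G hG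
    obtain ⟨f, hf⟩ := (h G hG).2.2 hp C hC hCu hCc E hE ((commutator_coe_eq_top_iff E).mpr hEE)
    exact (relFree_inForm _ G).of_surjective f hf

end Pool.Agent.Lib.H65G
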