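import Pool.Agent.Lib.H65G.R3b
import Pool.Agent.Lib.H65G.R5c
import Pool.Agent.Lib.H65F.R5d

/-! Chunk R5d: MAIN 2. -/

set_option autoImplicit false

namespace Pool.Agent.Lib.H65G

open Subgroup Pool.Agent.H69 Pool.Agent.Lib.H65F

/-- MAIN 2. -/
theorem main2 (G₀ : Type) [Group G₀] [Finite G₀] :
    (∀ H : Formation, H.Sub (Formation.gen G₀) → H.NormallyClosed) ↔
      ∀ (X : Type) [Group X], ((∃ f : G₀ →* X, Function.Surjective f) ∨
        ∃ f : RelFree (rk (Nat.card ↥(pr G₀))) ↥(pr G₀) →* X, Function.Surjective f) →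
        TestAbelian X ∧ TestTower X ∧ TestPerf X := by
  have hself := Formation.gen_mem_self G₀
  constructor
  · intro hgood X _ hX
    refine (main1 (Formation.gen G₀)).1 hgood X ?_
    rcases hX with ⟨f, hf⟩ | ⟨f, hf⟩
    · exact (Formation.gen G₀).mem_of_surjective f hf hself
    · have hpr : (Formation.gen G₀).mem ↥(pr G₀) :=
        hgood (Formation.gen G₀) (fun _ _ h => h) G₀ (pr G₀) (pr_normal G₀) hself
      exact (Formation.gen G₀).mem_of_surjective f hf (relFree_inForm _ ↥(pr G₀) _ hpr)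
  · intro hT
    have hAT : ∀ (M : Subgroup G₀) [M.Normal], TestAbelian (G₀ ⧸ M) ∧ TestTower (G₀ ⧸ M) := by
      intro M _
      have h := hT (G₀ ⧸ M) (Or.inl ⟨QuotientGroup.mk' M, QuotientGroup.mk'_surjective M⟩)
      exact ⟨h.1, h.2.1⟩
    have h1 : CondAbelian (Formation.gen G₀) := condAbelian_gen G₀ fun M _ => (hAT M).1
    have h2 : CondTower' (Formation.gen G₀) := condTower_gen G₀ fun M _ => (hAT M).2
    refine (classification (Formation.gen G₀)).2 ⟨h1, (condTower_iff _).2 h2, ?_⟩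
    intro G _ hG hp C _ _ _ E hE hEE
    obtain ⟨H, hH⟩ := exists_pnForm G
    have hmem : H.mem G := by
      refine thmA h1 h2 hself hp hG H ?_
      intro Q _ _ hGQ hpQ hgen
      have hFQ : (Formation.gen G₀).mem Q := hGQ _ hG
      refine (hH Q).2 ⟨inferInstance, pnIn_of_tests h1 h2 hFQ hGQ hpQ ?_⟩
      intro M _
      have hQM : InForm G₀ (Q ⧸ M) := (Formation.gen G₀).quot Q M hFQ
      exact (hT (Q ⧸ M) (Or.inr (thmB h1 h2 hself (r5d_perf hpQ M) hQM
        (hgen.of_surjective _ (QuotientGroup.mk'_surjective M)) (rk_bound2 _)))).2.2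
    exact ((hH G).1 hmem).2 E hE hEE

end Pool.Agent.Lib.H65G
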