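import Pool.Agent.Lib.H69.Formation.Defs

/-!
The definitions used in the statement of `MP_518fb6_al.RelativelyFreeTest`.  `Formation`,
`Formation.Sub`, `Formation.NormallyClosed`, `IsMinNormal` and `InForm` (membership in the
formation generated by one group) are in `Pool/Agent/Lib/H69/Formation/Defs.lean`.
-/

set_option autoImplicit false

namespace Pool.Agent.H65R

open Subgroup Pool.Agent.H69

/-- The intersection of the kernels of all epimorphisms from the free group of rank `n` to `G`. -/
def relKer (n : ℕ) (G : Type) [Group G] : Subgroup (FreeGroup (Fin n)) :=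
  ⨅ φ : {φ : FreeGroup (Fin n) →* G // Function.Surjective φ}, φ.1.ker

instance relKer_normal (n : ℕ) (G : Type) [Group G] : (relKer n G).Normal :=
  Subgroup.normal_iInf_normal fun _ => inferInstance

/-- The relatively free group `F_n(G)`: the free group of rank `n` modulo the intersection of the
kernels of all its epimorphisms to `G`. -/
abbrev RelFree (n : ℕ) (G : Type) [Group G] : Type := FreeGroup (Fin n) ⧸ relKer n G

/-- The rank `2 (1 + ⌊log₂ g⌋) ^ 3`. -/
def rk (g : ℕ) : ℕ := 2 * (1 + Nat.log 2 g) ^ 3

/-- Test (a): abelian minimal normal subgroups of `G` are central. -/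
def TestAbelian (G : Type) [Group G] : Prop :=
  ∀ A : Subgroup G, IsMinNormal A → (∀ a ∈ A, ∀ b ∈ A, a * b = b * a) → A ≤ center G

/-- Every group `M ⧸ C_M(K)`, where `M` is a normal subgroup of `P` and `K` is a minimal normal
subgroup of `M`, is a homomorphic image of `P`. -/
def IsTower (P : Type) [Group P] : Prop :=
  ∀ M : Subgroup P, M.Normal → ∀ (K : Subgroup M) [K.Normal], IsMinNormal K →
    ∃ f : P →* M ⧸ centralizer (K : Set M), Function.Surjective f

/-- Test (b): for each nonabelian minimal normal subgroup `A` of `G` the group `G ⧸ C_G(A)` has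
the property `IsTower`. -/
def TestTower (G : Type) [Group G] : Prop :=
  ∀ (A : Subgroup G) [A.Normal], IsMinNormal A →
    (¬ ∀ a ∈ A, ∀ b ∈ A, a * b = b * a) → IsTower (G ⧸ centralizer (A : Set G))

/-- Test (c): if `G` is perfect with a unique minimal normal subgroup `C` and `C` is central, then
each perfect normal subgroup `E` of `G` is a homomorphic image of the relatively free group
`F_n(G)`, `n = 2 (1 + ⌊log₂ |G|⌋) ^ 3`. -/
def TestPerfect (G : Type) [Group G] : Prop :=
  _root_.commutator G = ⊤ → ∀ C : Subgroup G, IsMinNormal C →
    (∀ B : Subgroup G, IsMinNormal B → B = C) → C ≤ center G →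
    ∀ E : Subgroup G, E.Normal → _root_.commutator E = ⊤ →
      ∃ f : RelFree (rk (Nat.card G)) G →* E, Function.Surjective f

/-- The perfect residual of a finite group: the intersection of the derived series. -/
def perfectResidual (G : Type) [Group G] : Subgroup G := ⨅ n : ℕ, derivedSeries G n

end Pool.Agent.H65R
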